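import Mathlib
import Pool.Agent.Helper620.WgDefs

set_option autoImplicit false

open Complex MeasureTheory Set Filter Topology

namespace Wg


theorem wp_surj (L : PeriodPair) (x : ℂ) : ∃ z ∉ L.lattice, L.weierstrassP z = x := by

  classical
  by_contra hcon
  push Not at hcon
  set h : ℂ → ℂ := fun z => if z ∈ L.lattice then 0 else (L.weierstrassP z - x)⁻¹ with hh
  have hdiff_off : ∀ z ∉ L.lattice, DifferentiableAt ℂ h z := by
    intro z hz
    have h1 : DifferentiableAt ℂ L.weierstrassP z :=
      (L.analyticOnNhd_weierstrassP z hz).differentiableAt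
    have h2 : DifferentiableAt ℂ (fun z => (L.weierstrassP z - x)⁻¹) z :=
      (h1.sub_const x).inv (sub_ne_zero.2 (hcon z hz))
    apply h2.congr_of_eventuallyEq
    filter_upwards [L.isClosed_lattice.isOpen_compl.mem_nhds hz] with w hw
    have hw' : w ∉ L.lattice := hw
    simp [hh, hw']
  have hcont : ∀ z ∈ L.lattice, ContinuousAt h z := by
    intro z hz
    have h1 : Tendsto L.weierstrassP (𝓝[≠] z) (Bornology.cobounded ℂ) :=
      (tendsto_cobounded_iff_meromorphicOrderAt_neg (L.meromorphic_weierstrassP z)).2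
        (by rw [L.order_weierstrassP z hz]; decide)
    have h1' : Tendsto (fun w => L.weierstrassP w - x) (𝓝[≠] z) (Bornology.cobounded ℂ) := by
      rw [← tendsto_norm_atTop_iff_cobounded] at h1 ⊢
      have h3 : Tendsto (fun w => ‖L.weierstrassP w‖ - ‖x‖) (𝓝[≠] z) atTop :=
        tendsto_atTop_add_const_right _ (-‖x‖) h1
      refine tendsto_atTop_mono (fun w => ?_) h3
      exact norm_sub_norm_le _ _
    have h2 : Tendsto (fun w => (L.weierstrassP w - x)⁻¹) (𝓝[≠] z) (𝓝 0) :=
      tendsto_inv₀_cobounded.comp h1'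
    rw [continuousAt_iff_punctured_nhds]
    have h3 : h z = 0 := by simp [hh, hz]
    rw [h3]
    refine h2.congr' ?_
    filter_upwards [mem_nhdsWithin_of_mem_nhds (L.compl_lattice_sdiff_singleton_mem_nhds z),
      self_mem_nhdsWithin] with w hw hwz
    have hw' : w ∉ L.lattice := fun hmem => hw ⟨hmem, hwz⟩
    simp [hh, hw']
  have hdiff : Differentiable ℂ h := by
    intro z
    by_cases hz : z ∈ L.lattice
    · refine (Complex.analyticAt_of_differentiable_on_punctured_nhds_of_continuousAt ?_
        (hcont z hz)).differentiableAt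
      filter_upwards [mem_nhdsWithin_of_mem_nhds (L.compl_lattice_sdiff_singleton_mem_nhds z),
        self_mem_nhdsWithin] with w hw hwz
      exact hdiff_off w (fun hmem => hw ⟨hmem, hwz⟩)
    · exact hdiff_off z hz
  have hper : ∀ z w, w ∈ L.lattice → h (z + w) = h z := by
    intro z w hw
    have h1 : z + w ∈ L.lattice ↔ z ∈ L.lattice := L.lattice.add_mem_iff_left hw
    have h2 : L.weierstrassP (z + w) = L.weierstrassP z := L.weierstrassP_add_coe z ⟨w, hw⟩
    simp only [hh, h1, h2]
  have hconst := hdiff.apply_eq_apply_of_bounded (IsZLattice.isCompact_range_of_periodic L.lattice _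
    hdiff.continuous hper).isBounded (L.ω₁ / 2) 0
  have h0 : h 0 = 0 := by simp [hh]
  have h1 : h (L.ω₁ / 2) = (L.weierstrassP (L.ω₁ / 2) - x)⁻¹ := by
    simp [hh, L.ω₁_div_two_notMem_lattice]
  rw [h0, h1] at hconst
  exact sub_ne_zero.2 (hcon _ L.ω₁_div_two_notMem_lattice) (inv_eq_zero.1 hconst)

end Wg
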