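import Mathlib
import Pool.Agent.Helper620.WgDefs

set_option autoImplicit false

open Complex MeasureTheory Set Filter Topology

namespace Wg


theorem q_P (k : Kit) {z : ℂ} (hz : z ∉ Lam) : q k (k.P z) = k.Pd z ^ 2 := (k.Pd_sq z hz).symm

theorem sec_spec (k : Kit) (x : ℂ) : sec k x ∉ Lam ∧ k.P (sec k x) = x :=
  Classical.choose_spec (k.P_surj x)

theorem notMem_of_two {z : ℂ} (h : 2 * z ∉ Lam) : z ∉ Lam := fun hz => h (by
  have := Lam.add_mem hz hz
  rwa [← two_mul] at this)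

/-- D1 -/
theorem S_eq (k : Kit) {z y : ℂ} (hz : z ∉ Lam) (hy : q k (k.P z) ≠ y ^ 2) :
    S k (k.P z) y = ‖E k z y‖ + ‖(E k z y)⁻¹‖ := by
  obtain ⟨h1, h2⟩ := sec_spec k (k.P z)
  unfold S
  generalize sec k (k.P z) = z' at h1 h2
  rcases k.P_inj z' h1 z hz h2 with h | h
  · obtain ⟨c, hc, hg⟩ := k.g_add _ h
    have e1 : z + (z' - z) = z' := by ring
    have e2 : k.Pd z' = k.Pd z := by
      have := k.Pd_add _ h z
      rwa [e1] at this
    have e3 : k.g z' = c * k.g z := by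
      have := hg z hz
      rwa [e1] at this
    have e4 : E k z' y = c * E k z y := by
      unfold E
      rw [e2, e3]
      ring
    rw [e4, mul_inv, norm_mul, norm_mul, norm_inv c, hc]
    simp
  · obtain ⟨c, hc, hg⟩ := k.g_add _ h
    have hz' : -z ∉ Lam := fun hn => hz (by simpa using Lam.neg_mem hn)
    have e1 : -z + (z' + z) = z' := by ring
    have e2 : k.Pd z' = - k.Pd z := by
      have := k.Pd_add _ h (-z)
      rwa [e1, k.Pd_neg] at this
    have e3 : k.g z' = c * (k.g z)⁻¹ := by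
      have := hg (-z) hz'
      rwa [e1, k.g_neg] at this
    have e5 : (-k.Pd z + y) / (-k.Pd z - y) = (k.Pd z - y) / (k.Pd z + y) := by
      rw [← neg_div_neg_eq]
      congr 1 <;> ring
    have e4 : E k z' y = c * (E k z y)⁻¹ := by
      unfold E
      rw [e2, e3, e5, mul_inv, inv_div]
      ring
    rw [e4, mul_inv, inv_inv, norm_mul, norm_mul, norm_inv c, hc, inv_one, one_mul, one_mul, add_comm]

/-- D2 -/
theorem psi_spec (k : Kit) {z s : ℂ} (hz : 2 * z ∉ Lam) (hs : s ≠ 0) (hg : s + k.g z ≠ 0) :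
    E k z (psi k z s) = s ∧
    q k (k.P z) - (psi k z s) ^ 2 = 4 * s * k.g z * (k.Pd z) ^ 2 / (s + k.g z) ^ 2 ∧
    q k (k.P z) - (psi k z s) ^ 2 ≠ 0 ∧ q k (k.P z) ≠ 0 := by
  have hw := k.Pd_ne z hz
  have hgz := k.g_ne z
  have hzn := notMem_of_two hz
  have hq := q_P k hzn
  have h1 : k.Pd z + psi k z s = 2 * k.Pd z * s / (s + k.g z) := by
    unfold psi
    field_simp
    ring
  have h2 : k.Pd z - psi k z s = 2 * k.Pd z * k.g z / (s + k.g z) := by
    unfold psi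
    field_simp
    ring
  have h3 : q k (k.P z) - (psi k z s) ^ 2 =
      4 * s * k.g z * (k.Pd z) ^ 2 / (s + k.g z) ^ 2 := by
    have : q k (k.P z) - (psi k z s) ^ 2 =
        (k.Pd z + psi k z s) * (k.Pd z - psi k z s) := by rw [hq]; ring
    rw [this, h1, h2]
    field_simp
    ring
  refine ⟨?_, h3, ?_, ?_⟩
  · unfold E
    rw [h1, h2]
    field_simp
  · rw [h3]
    have h4 : (4 : ℂ) ≠ 0 := by norm_num
    exact div_ne_zero (mul_ne_zero (mul_ne_zero (mul_ne_zero h4 hs) hgz) (pow_ne_zero 2 hw))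
      (pow_ne_zero 2 hg)
  · rw [hq]
    exact pow_ne_zero 2 hw

theorem psi_mem_aux {s : ℂ} (hs0 : s ≠ 0) : ‖s‖ + ‖s⁻¹‖ < 5 / 2 ↔ s ∈ An := by
  have hpos : 0 < ‖s‖ := norm_pos_iff.2 hs0
  show _ ↔ (1 / 2 < ‖s‖ ∧ ‖s‖ < 2)
  rw [norm_inv]
  generalize ‖s‖ = t at *
  have h1 : t + t⁻¹ < 5 / 2 ↔ (t - 1 / 2) * (t - 2) < 0 := by
    have h2 : (t - 1 / 2) * (t - 2) = t * (t + t⁻¹ - 5 / 2) := by
      field_simp
      ring
    rw [h2]
    constructor
    · intro h
      exact mul_neg_of_pos_of_neg hpos (by linarith)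
    · intro h
      by_contra hc
      have : 0 ≤ t * (t + t⁻¹ - 5 / 2) := mul_nonneg hpos.le (by linarith)
      linarith
  rw [h1]
  constructor
  · intro h
    constructor
    · by_contra hc
      have : 0 ≤ (t - 1 / 2) * (t - 2) := mul_nonneg_of_nonpos_of_nonpos (by linarith) (by linarith)
      linarith
    · by_contra hc
      have : 0 ≤ (t - 1 / 2) * (t - 2) := mul_nonneg (by linarith) (by linarith)
      linarith
  · rintro ⟨h2, h3⟩
    exact mul_neg_of_pos_of_neg (by linarith) (by linarith)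

/-- D3 -/
theorem psi_mem (k : Kit) {z s : ℂ} (hz : 2 * z ∉ Lam) (hs : s ∈ An) (hg : s + k.g z ≠ 0) :
    (k.P z, psi k z s) ∈ Om k := by
  have hs0 : s ≠ 0 := by
    rintro rfl
    have h1 : (1 : ℝ) / 2 < ‖(0 : ℂ)‖ := hs.1
    rw [norm_zero] at h1
    norm_num at h1
  obtain ⟨h1, h2, h3, h4⟩ := psi_spec k hz hs0 hg
  have h5 : q k (k.P z) ≠ (psi k z s) ^ 2 := sub_ne_zero.1 h3
  refine ⟨h4, h5, ?_⟩
  show S k (k.P z) (psi k z s) < 5 / 2
  rw [S_eq k (notMem_of_two hz) h5, h1]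
  exact (psi_mem_aux hs0).2 hs

/-- D4 -/
theorem exists_psi (k : Kit) {z y : ℂ} (hz : z ∉ Lam) (h : (k.P z, y) ∈ Om k) :
    2 * z ∉ Lam ∧ E k z y ∈ An ∧ E k z y + k.g z ≠ 0 ∧ psi k z (E k z y) = y := by
  obtain ⟨h1, h2, h3⟩ := h
  have h1' : q k (k.P z) ≠ 0 := h1
  have h2' : q k (k.P z) ≠ y ^ 2 := h2
  have h3' : S k (k.P z) y < 5 / 2 := h3
  have hq := q_P k hz
  have hw : k.Pd z ≠ 0 := by
    intro h0
    apply h1'
    rw [hq, h0]
    ring
  have hgz := k.g_ne z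
  have h2z : 2 * z ∉ Lam := fun hm => hw (k.Pd_zero z hm)
  have hm : k.Pd z - y ≠ 0 := by
    intro h0
    apply h2'
    rw [hq, sub_eq_zero.1 h0]
  have hp : k.Pd z + y ≠ 0 := by
    intro h0
    apply h2'
    rw [hq, eq_neg_of_add_eq_zero_left h0]
    ring
  have hE0 : E k z y ≠ 0 := mul_ne_zero (div_ne_zero hp hm) hgz
  rw [S_eq k hz h2'] at h3'
  have hEA := (psi_mem_aux hE0).1 h3'
  have hsum : E k z y + k.g z = 2 * k.Pd z * k.g z / (k.Pd z - y) := by
    unfold E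
    field_simp
    ring
  have hdiff : E k z y - k.g z = 2 * y * k.g z / (k.Pd z - y) := by
    unfold E
    field_simp
    ring
  have hne : E k z y + k.g z ≠ 0 := by
    rw [hsum]
    exact div_ne_zero (mul_ne_zero (mul_ne_zero two_ne_zero hw) hgz) hm
  refine ⟨h2z, hEA, hne, ?_⟩
  unfold psi
  rw [hsum, hdiff]
  field_simp

end Wg
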