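import Mathlib
import Pool.Agent.Helper620.WgDefs
import Pool.Agent.Helper620.Wg.D14

set_option autoImplicit false

open Complex MeasureTheory Set Filter Topology

namespace Wg


theorem S_local_closed : IsClosed (Lam : Set ℂ) := by
  have h : (Lam : Set ℂ) = (Complex.re ⁻¹' range ((↑) : ℤ → ℝ)) ∩
      (Complex.im ⁻¹' range ((↑) : ℤ → ℝ)) := by
    ext z
    constructor
    · rintro ⟨m, n, rfl⟩
      exact ⟨⟨m, by simp⟩, ⟨n, by simp⟩⟩
    · rintro ⟨⟨m, hm⟩, ⟨n, hn⟩⟩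
      refine ⟨m, n, ?_⟩
      apply Complex.ext
      · simp [hm]
      · simp [hn]
  rw [h]
  exact (Int.isClosedEmbedding_coe_real.isClosed_range.preimage Complex.continuous_re).inter
    (Int.isClosedEmbedding_coe_real.isClosed_range.preimage Complex.continuous_im)

theorem S_local_strict (k : Kit) {z : ℂ} (hz : z ∉ Lam) : HasStrictDerivAt k.P (k.Pd z) z := by
  have hd : DifferentiableOn ℂ k.P (Lam : Set ℂ)ᶜ := fun w hw =>
    (k.hP w hw).differentiableAt.differentiableWithinAt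
  have han : AnalyticAt ℂ k.P z := hd.analyticAt (S_local_closed.isOpen_compl.mem_nhds hz)
  have h := han.hasStrictDerivAt
  rwa [(k.hP z hz).deriv] at h

/-- a local section of `P` -/
theorem S_local_sec (k : Kit) {x₀ : ℂ} (h1 : q k x₀ ≠ 0) :
    ∃ ρ : ℂ → ℂ, ∃ V : Set ℂ, IsOpen V ∧ x₀ ∈ V ∧ DifferentiableOn ℂ ρ V ∧
      ∀ x ∈ V, ρ x ∉ Lam ∧ k.P (ρ x) = x ∧ q k x ≠ 0 := by
  obtain ⟨hz, hPz⟩ := sec_spec k x₀
  set z₀ := sec k x₀
  have hq := q_P k hz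
  rw [hPz] at hq
  have hPd : k.Pd z₀ ≠ 0 := by
    intro h
    rw [h] at hq
    apply h1
    rw [hq]
    ring
  have hs := (S_local_strict k hz).hasStrictFDerivAt_equiv hPd
  set φ := hs.toOpenPartialHomeomorph k.P with hφ
  have hcoe : (φ : ℂ → ℂ) = k.P := hs.toOpenPartialHomeomorph_coe
  have hsrc : z₀ ∈ φ.source := hs.mem_toOpenPartialHomeomorph_source
  have htgt : x₀ ∈ φ.target := by
    have := hs.image_mem_toOpenPartialHomeomorph_target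
    rwa [hPz] at this
  have hsymm : φ.symm x₀ = z₀ := by
    have := φ.left_inv hsrc
    rw [hcoe, hPz] at this
    exact this
  have hqc : Continuous (q k) := by
    unfold q
    fun_prop
  have hV1 : IsOpen (φ.target ∩ φ.symm ⁻¹' (Lam : Set ℂ)ᶜ) :=
    φ.symm.continuousOn.isOpen_inter_preimage φ.open_target S_local_closed.isOpen_compl
  refine ⟨φ.symm, (φ.target ∩ φ.symm ⁻¹' (Lam : Set ℂ)ᶜ) ∩ {x | q k x ≠ 0},
    hV1.inter (isOpen_ne_fun hqc continuous_const), ⟨⟨htgt, ?_⟩, h1⟩, ?_, ?_⟩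
  · show φ.symm x₀ ∉ Lam
    rw [hsymm]
    exact hz
  · rintro x ⟨⟨hx1, hx2⟩, hx3⟩
    have hinv : k.P (φ.symm x) = x := by
      have := φ.right_inv hx1
      rwa [hcoe] at this
    have hx2' : φ.symm x ∉ Lam := hx2
    have hq2 := q_P k hx2'
    rw [hinv] at hq2
    have hPd2 : k.Pd (φ.symm x) ≠ 0 := by
      intro h
      rw [h] at hq2
      apply hx3
      rw [hq2]
      ring
    have hev : ∀ᶠ y in 𝓝 x, k.P (φ.symm y) = y := by
      have := φ.eventually_right_inverse hx1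
      rwa [hcoe] at this
    exact (HasDerivAt.of_local_left_inverse (φ.continuousAt_symm hx1) (k.hP _ hx2') hPd2
      hev).differentiableAt.differentiableWithinAt
  · rintro x ⟨⟨hx1, hx2⟩, hx3⟩
    refine ⟨hx2, ?_, hx3⟩
    have := φ.right_inv hx1
    rwa [hcoe] at this

/-- D5: local holomorphic representation of `S` -/
theorem S_local (k : Kit) {p : ℂ × ℂ} (h1 : q k p.1 ≠ 0) (h2 : q k p.1 ≠ p.2 ^ 2) :
    ∃ e : ℂ × ℂ → ℂ, ∃ U : Set (ℂ × ℂ), IsOpen U ∧ p ∈ U ∧ DifferentiableOn ℂ e U ∧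
      (∀ w ∈ U, e w ≠ 0) ∧ ∀ w ∈ U, S k w.1 w.2 = ‖e w‖ + ‖(e w)⁻¹‖ := by
  obtain ⟨ρ, V, hV, hpV, hρ, hρ2⟩ := S_local_sec k h1
  have hqc : Continuous (q k) := by
    unfold q
    fun_prop
  have hkey : ∀ w : ℂ × ℂ, w.1 ∈ V → q k w.1 ≠ w.2 ^ 2 →
      k.Pd (ρ w.1) - w.2 ≠ 0 ∧ k.Pd (ρ w.1) + w.2 ≠ 0 := by
    intro w hw1 hw2
    obtain ⟨a1, a2, a3⟩ := hρ2 w.1 hw1
    have hq := q_P k a1
    rw [a2] at hq
    constructor
    · intro h
      apply hw2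
      have : k.Pd (ρ w.1) = w.2 := sub_eq_zero.1 h
      rw [hq, this]
    · intro h
      apply hw2
      have : k.Pd (ρ w.1) = -w.2 := eq_neg_of_add_eq_zero_left h
      rw [hq, this]
      ring
  refine ⟨fun w => E k (ρ w.1) w.2, {w | w.1 ∈ V} ∩ {w | q k w.1 ≠ w.2 ^ 2}, ?_, ⟨hpV, h2⟩, ?_, ?_, ?_⟩
  · exact (hV.preimage continuous_fst).inter
      (isOpen_ne_fun (hqc.comp continuous_fst) (continuous_snd.pow 2))
  · rintro w ⟨hw1, hw2⟩
    apply DifferentiableAt.differentiableWithinAt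
    obtain ⟨a1, a2, a3⟩ := hρ2 w.1 hw1
    obtain ⟨b1, b2⟩ := hkey w hw1 hw2
    have hnb : (Lam : Set ℂ)ᶜ ∈ 𝓝 (ρ w.1) := S_local_closed.isOpen_compl.mem_nhds a1
    have d1 : DifferentiableAt ℂ (fun w : ℂ × ℂ => ρ w.1) w :=
      (hρ.differentiableAt (hV.mem_nhds hw1)).comp w differentiableAt_fst
    have d2 : DifferentiableAt ℂ (fun w : ℂ × ℂ => k.Pd (ρ w.1)) w :=
      DifferentiableAt.comp w (k.hPd.differentiableAt hnb) d1
    have d3 : DifferentiableAt ℂ (fun w : ℂ × ℂ => k.g (ρ w.1)) w :=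
      DifferentiableAt.comp w (k.hg.differentiableAt hnb) d1
    have d4 : DifferentiableAt ℂ (fun w : ℂ × ℂ => k.Pd (ρ w.1) + w.2) w :=
      d2.fun_add differentiableAt_snd
    have d5 : DifferentiableAt ℂ (fun w : ℂ × ℂ => k.Pd (ρ w.1) - w.2) w :=
      d2.fun_sub differentiableAt_snd
    have d6 : DifferentiableAt ℂ (fun w : ℂ × ℂ =>
      (k.Pd (ρ w.1) + w.2) / (k.Pd (ρ w.1) - w.2)) w := by
      simp only [div_eq_mul_inv]
      exact d4.fun_mul (d5.inv b1)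
    exact d6.fun_mul d3
  · rintro w ⟨hw1, hw2⟩
    obtain ⟨b1, b2⟩ := hkey w hw1 hw2
    exact mul_ne_zero (div_ne_zero b2 b1) (k.g_ne _)
  · rintro w ⟨hw1, hw2⟩
    obtain ⟨a1, a2, a3⟩ := hρ2 w.1 hw1
    have h := S_eq k (z := ρ w.1) (y := w.2) a1 (by rw [a2]; exact hw2)
    rw [a2] at h
    exact h

/-- D6 -/
theorem isOpen_Om (k : Kit) : IsOpen (Om k) := by
  rw [isOpen_iff_mem_nhds]
  rintro p ⟨h1, h2, h3⟩
  obtain ⟨e, U, hU, hpU, he, he0, heS⟩ := S_local k h1 h2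
  have hqc : Continuous (q k) := by
    unfold q
    fun_prop
  have hc : ContinuousAt e p := (he.continuousOn).continuousAt (hU.mem_nhds hpU)
  have hc2 : ContinuousAt (fun w => ‖e w‖ + ‖(e w)⁻¹‖) p :=
    hc.norm.add (hc.inv₀ (he0 p hpU)).norm
  have hlt : ‖e p‖ + ‖(e p)⁻¹‖ < 5 / 2 := by
    rw [← heS p hpU]
    exact h3
  have e1 : ∀ᶠ w in 𝓝 p, ‖e w‖ + ‖(e w)⁻¹‖ < 5 / 2 := hc2.eventually (eventually_lt_nhds hlt)
  have e2 : ∀ᶠ w in 𝓝 p, w ∈ U := hU.mem_nhds hpU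
  have e3 : ∀ᶠ w : ℂ × ℂ in 𝓝 p, q k w.1 ≠ 0 :=
    (isOpen_ne_fun (hqc.comp continuous_fst) continuous_const).mem_nhds h1
  have e4 : ∀ᶠ w : ℂ × ℂ in 𝓝 p, q k w.1 ≠ w.2 ^ 2 :=
    (isOpen_ne_fun (hqc.comp continuous_fst) (continuous_snd.pow 2)).mem_nhds h2
  filter_upwards [e1, e2, e3, e4] with w w1 w2 w3 w4
  exact ⟨w3, w4, by rw [heS w w2]; exact w1⟩

end Wg
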