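import Mathlib
import Pool.Agent.Helper620.WgDefs

set_option autoImplicit false

open Complex MeasureTheory Set Filter Topology

namespace Wg



theorem an_diff_preconnected_countable (c : ℂ) : {u : ℂ | Complex.exp u = c}.Countable := by
  by_cases hc : c = 0
  · have : {u : ℂ | Complex.exp u = c} = ∅ := by
      ext u
      simp [hc, Complex.exp_ne_zero]
    rw [this]
    exact Set.countable_empty
  · have : {u : ℂ | Complex.exp u = c} ⊆ Set.range (fun n : ℤ => Complex.log c + n * (2 * Real.pi * I)) := by
      intro u hu
      have hu' : Complex.exp u = Complex.exp (Complex.log c) := by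
        rw [Complex.exp_log hc]; exact hu
      obtain ⟨n, hn⟩ := Complex.exp_eq_exp_iff_exists_int.mp hu'
      exact ⟨n, hn.symm⟩
    exact (Set.countable_range _).mono this

/-- auxiliary map -/
noncomputable def an_diff_preconnected_u (w : ℂ) : ℂ :=
  ((Real.log 2 * (2 / Real.pi) * Real.arctan w.re : ℝ) : ℂ) + (w.im : ℂ) * I

theorem an_diff_preconnected_inj : Function.Injective an_diff_preconnected_u := by
  intro w w' h
  have h1 := congrArg Complex.re h
  have h2 := congrArg Complex.im h
  unfold an_diff_preconnected_u at h1 h2
  simp only [Complex.add_re, Complex.ofReal_re, Complex.mul_re, Complex.I_re, mul_zero, Complex.ofReal_im,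
    Complex.I_im, mul_one, sub_self, add_zero, Complex.add_im, Complex.mul_im, zero_add] at h1 h2
  have hl : Real.log 2 * (2 / Real.pi) ≠ 0 := by
    have := Real.log_pos (by norm_num : (1 : ℝ) < 2)
    positivity
  have h3 := Real.arctan_injective (mul_left_cancel₀ hl h1)
  exact Complex.ext h3 h2

theorem an_diff_preconnected_cont : Continuous an_diff_preconnected_u := by
  unfold an_diff_preconnected_u
  have := Real.continuous_arctan
  fun_prop

theorem an_diff_preconnected_norm (w : ℂ) : ‖Complex.exp (an_diff_preconnected_u w)‖ =
    Real.exp (Real.log 2 * (2 / Real.pi) * Real.arctan w.re) := by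
  rw [Complex.norm_exp]
  congr 1
  unfold an_diff_preconnected_u
  simp only [Complex.add_re, Complex.ofReal_re, Complex.mul_re, Complex.I_re, mul_zero, Complex.ofReal_im,
    Complex.I_im, mul_one, sub_self, add_zero]

/-- G6 -/
theorem an_diff_preconnected (c : ℂ) : IsPreconnected (An \ {c}) := by
  have hl : 0 < Real.log 2 := Real.log_pos (by norm_num : (1 : ℝ) < 2)
  have hpi := Real.pi_pos
  have hcount : ((fun w => Complex.exp (an_diff_preconnected_u w)) ⁻¹' {c}).Countable :=
    (an_diff_preconnected_countable c).preimage an_diff_preconnected_inj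
  have hrank : 1 < Module.rank ℝ ℂ := by
    rw [Complex.rank_real_complex]; norm_num
  have hconn := hcount.isConnected_compl_of_one_lt_rank hrank
  have hcont : Continuous (fun w => Complex.exp (an_diff_preconnected_u w)) :=
    Complex.continuous_exp.comp an_diff_preconnected_cont
  have himg : (fun w => Complex.exp (an_diff_preconnected_u w)) ''
      ((fun w => Complex.exp (an_diff_preconnected_u w)) ⁻¹' {c})ᶜ = An \ {c} := by
    ext s
    constructor
    · rintro ⟨w, hw, rfl⟩
      refine ⟨?_, hw⟩
      show 1 / 2 < ‖Complex.exp (an_diff_preconnected_u w)‖ ∧ ‖Complex.exp (an_diff_preconnected_u w)‖ < 2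
      rw [an_diff_preconnected_norm]
      have h1 := Real.arctan_lt_pi_div_two w.re
      have h2 := Real.neg_pi_div_two_lt_arctan w.re
      have h3 : Real.log 2 * (2 / Real.pi) * Real.arctan w.re < Real.log 2 := by
        have : Real.log 2 * (2 / Real.pi) * Real.arctan w.re < Real.log 2 * (2 / Real.pi) * (Real.pi / 2) :=
          mul_lt_mul_of_pos_left h1 (by positivity)
        refine this.trans_le (le_of_eq ?_)
        field_simp
      have h4 : -Real.log 2 < Real.log 2 * (2 / Real.pi) * Real.arctan w.re := by
        have : Real.log 2 * (2 / Real.pi) * (-(Real.pi / 2)) < Real.log 2 * (2 / Real.pi) * Real.arctan w.re :=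
          mul_lt_mul_of_pos_left h2 (by positivity)
        refine lt_of_le_of_lt (le_of_eq ?_) this
        field_simp
      constructor
      · have : (1 / 2 : ℝ) = Real.exp (-Real.log 2) := by
          rw [Real.exp_neg, Real.exp_log (by norm_num)]; norm_num
        rw [this]
        exact Real.exp_lt_exp.mpr h4
      · calc Real.exp (Real.log 2 * (2 / Real.pi) * Real.arctan w.re) < Real.exp (Real.log 2) := Real.exp_lt_exp.mpr h3
          _ = 2 := Real.exp_log (by norm_num)
    · rintro ⟨⟨h1, h2⟩, hs⟩
      have hs0 : 0 < ‖s‖ := by linarith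
      have hlog1 : Real.log ‖s‖ < Real.log 2 := Real.log_lt_log hs0 h2
      have hlog2 : -Real.log 2 < Real.log ‖s‖ := by
        have := Real.log_lt_log (by norm_num) h1
        rw [one_div, Real.log_inv] at this
        exact this
      have hy1 : Real.pi / 2 * (Real.log ‖s‖ / Real.log 2) < Real.pi / 2 := by
        have : Real.log ‖s‖ / Real.log 2 < 1 := by rw [div_lt_one hl]; exact hlog1
        nlinarith
      have hy2 : -(Real.pi / 2) < Real.pi / 2 * (Real.log ‖s‖ / Real.log 2) := by
        have : -1 < Real.log ‖s‖ / Real.log 2 := by rw [lt_div_iff₀ hl]; linarith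
        nlinarith
      have hval : Complex.exp (an_diff_preconnected_u ⟨Real.tan (Real.pi / 2 * (Real.log ‖s‖ / Real.log 2)), s.arg⟩) = s := by
        have h3 : an_diff_preconnected_u ⟨Real.tan (Real.pi / 2 * (Real.log ‖s‖ / Real.log 2)), s.arg⟩ = Complex.log s := by
          unfold an_diff_preconnected_u Complex.log
          simp only
          rw [Real.arctan_tan hy2 hy1]
          congr 2
          field_simp
        rw [h3, Complex.exp_log (norm_pos_iff.mp hs0)]
      refine ⟨⟨Real.tan (Real.pi / 2 * (Real.log ‖s‖ / Real.log 2)), s.arg⟩, ?_, hval⟩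
      rw [mem_compl_iff, mem_preimage, hval]
      exact hs
  rw [← himg]
  exact hconn.isPreconnected.image _ hcont.continuousOn

end Wg
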