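import Mathlib
import Pool.Agent.Helper620.WgDefs
import Pool.Agent.Helper620.Wg.D14
import Pool.Agent.Helper620.Wg.G6

set_option autoImplicit false

open Complex MeasureTheory Set Filter Topology

namespace Wg


theorem isConnected_Om_Z : IsConnected {z : ℂ | 2 * z ∉ Lam} := by
  have hc : ({z : ℂ | 2 * z ∈ Lam}).Countable := by
    have : {z : ℂ | 2 * z ∈ Lam} ⊆
        Set.range (fun p : ℤ × ℤ => ((p.1 : ℂ) + (p.2 : ℂ) * I) / 2) := by
      rintro z ⟨m, n, h⟩
      exact ⟨(m, n), by simp only; rw [← h]; ring⟩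
    exact (Set.countable_range _).mono this
  have h2 : (1 : Cardinal) < Module.rank ℝ ℂ := by
    rw [Complex.rank_real_complex]
    exact Cardinal.one_lt_two
  have := Set.Countable.isConnected_compl_of_one_lt_rank h2 hc
  exact this

/-- the domain of the parametrisation -/
def isConnected_Om_W (k : Kit) : Set (ℂ × ℂ) :=
  {p | 2 * p.1 ∉ Lam ∧ p.2 ∈ An ∧ p.2 + k.g p.1 ≠ 0}

theorem isConnected_Om_contg (k : Kit) : ContinuousOn k.g {z : ℂ | 2 * z ∉ Lam} :=
  (k.hg.continuousOn).mono (fun _ hz => notMem_of_two hz)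

theorem isConnected_Om_contP (k : Kit) : ContinuousOn k.P {z : ℂ | 2 * z ∉ Lam} :=
  fun z hz => (k.hP z (notMem_of_two hz)).continuousAt.continuousWithinAt

theorem isConnected_Om_contPd (k : Kit) : ContinuousOn k.Pd {z : ℂ | 2 * z ∉ Lam} :=
  (k.hPd.continuousOn).mono (fun _ hz => notMem_of_two hz)

theorem isConnected_Om_ex (k : Kit) (z : ℂ) : ∃ s ∈ An, s + k.g z ≠ 0 := by
  by_cases h : (1 : ℂ) + k.g z = 0
  · refine ⟨3 / 2, ?_, ?_⟩
    · constructor <;> norm_num
    · intro h'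
      have : (1 / 2 : ℂ) = 0 := by linear_combination h' - h
      norm_num at this
  · refine ⟨1, ?_, h⟩
    constructor <;> norm_num

theorem isConnected_Om_preW (k : Kit) : IsPreconnected (isConnected_Om_W k) := by
  classical
  apply isPreconnected_of_forall_constant
  intro f hf
  -- constancy on the fibres
  have hfib : ∀ z s s', (z, s) ∈ isConnected_Om_W k → (z, s') ∈ isConnected_Om_W k →
      f (z, s) = f (z, s') := by
    intro z s s' hs hs'
    have hpre : IsPreconnected (An \ {-k.g z}) := an_diff_preconnected _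
    have hmem : ∀ t, (z, t) ∈ isConnected_Om_W k ↔ 2 * z ∉ Lam ∧ t ∈ An \ {-k.g z} := by
      intro t
      simp only [isConnected_Om_W, Set.mem_setOf_eq, Set.mem_diff, Set.mem_singleton_iff]
      constructor
      · rintro ⟨h1, h2, h3⟩
        exact ⟨h1, h2, fun h => h3 (by rw [h]; ring)⟩
      · rintro ⟨h1, h2, h3⟩
        exact ⟨h1, h2, fun h => h3 (eq_neg_of_add_eq_zero_left h)⟩
    have hz := ((hmem s).1 hs).1
    have hcont : ContinuousOn (fun t => f (z, t)) (An \ {-k.g z}) := by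
      have : ContinuousOn (fun t : ℂ => ((z, t) : ℂ × ℂ)) (An \ {-k.g z}) := by fun_prop
      exact hf.comp this (fun t ht => (hmem t).2 ⟨hz, ht⟩)
    exact hpre.constant hcont ((hmem s).1 hs).2 ((hmem s').1 hs').2
  set F : ℂ → Bool := fun z => f (z, Classical.choose (isConnected_Om_ex k z)) with hF
  have hFW : ∀ z, 2 * z ∉ Lam → (z, Classical.choose (isConnected_Om_ex k z)) ∈
      isConnected_Om_W k := by
    intro z hz
    have := Classical.choose_spec (isConnected_Om_ex k z)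
    exact ⟨hz, this.1, this.2⟩
  have hFeq : ∀ z s, (z, s) ∈ isConnected_Om_W k → f (z, s) = F z := by
    intro z s hs
    exact hfib z s _ hs (hFW z hs.1)
  have hFc : ContinuousOn F {z : ℂ | 2 * z ∉ Lam} := by
    intro z₀ hz₀
    obtain ⟨s₀, hs₀, hne⟩ := isConnected_Om_ex k z₀
    have hg0 : ContinuousWithinAt k.g {z : ℂ | 2 * z ∉ Lam} z₀ := isConnected_Om_contg k z₀ hz₀
    have hev : ∀ᶠ z in 𝓝[{z : ℂ | 2 * z ∉ Lam}] z₀, (z, s₀) ∈ isConnected_Om_W k := by
      have h1 : ∀ᶠ z in 𝓝[{z : ℂ | 2 * z ∉ Lam}] z₀, s₀ + k.g z ≠ 0 := by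
        have : ContinuousWithinAt (fun z => s₀ + k.g z) {z : ℂ | 2 * z ∉ Lam} z₀ :=
          continuousWithinAt_const.add hg0
        exact this.eventually_ne hne
      filter_upwards [h1, self_mem_nhdsWithin] with z hz hz'
      exact ⟨hz', hs₀, hz⟩
    have hW0 : (z₀, s₀) ∈ isConnected_Om_W k := ⟨hz₀, hs₀, hne⟩
    have ht : Tendsto (fun z : ℂ => ((z, s₀) : ℂ × ℂ)) (𝓝[{z : ℂ | 2 * z ∉ Lam}] z₀)
        (𝓝[isConnected_Om_W k] (z₀, s₀)) := by
      apply tendsto_nhdsWithin_iff.2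
      refine ⟨?_, hev⟩
      have : Continuous (fun z : ℂ => ((z, s₀) : ℂ × ℂ)) := by fun_prop
      exact (this.tendsto z₀).mono_left nhdsWithin_le_nhds
    have h2 : Tendsto (fun z : ℂ => f (z, s₀)) (𝓝[{z : ℂ | 2 * z ∉ Lam}] z₀)
        (𝓝 (f (z₀, s₀))) := (hf (z₀, s₀) hW0).tendsto.comp ht
    have h3 : Tendsto F (𝓝[{z : ℂ | 2 * z ∉ Lam}] z₀) (𝓝 (f (z₀, s₀))) := by
      refine h2.congr' ?_
      filter_upwards [hev] with z hz
      exact hFeq z s₀ hz
    rw [ContinuousWithinAt, ← hFeq z₀ s₀ hW0]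
    exact h3
  rintro ⟨z, s⟩ h ⟨z', s'⟩ h'
  rw [hFeq z s h, hFeq z' s' h']
  exact isConnected_Om_Z.isPreconnected.constant hFc h.1 h'.1

/-- D7 -/
theorem isConnected_Om (k : Kit) : IsConnected (Om k) := by
  have himg : Om k = (fun p : ℂ × ℂ => (k.P p.1, psi k p.1 p.2)) '' isConnected_Om_W k := by
    ext ⟨x, y⟩
    constructor
    · intro h
      obtain ⟨h1, h2⟩ := sec_spec k x
      have h' : (k.P (sec k x), y) ∈ Om k := by rw [h2]; exact h
      obtain ⟨h3, h4, h5, h6⟩ := exists_psi k h1 h'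
      refine ⟨(sec k x, E k (sec k x) y), ⟨h3, h4, h5⟩, ?_⟩
      simp only [h6, h2]
    · rintro ⟨⟨z, s⟩, ⟨h1, h2, h3⟩, h4⟩
      rw [← h4]
      exact psi_mem k h1 h2 h3
  rw [himg]
  have hne : (isConnected_Om_W k).Nonempty := by
    obtain ⟨s, hs, hs'⟩ := isConnected_Om_ex k (1 / 4)
    refine ⟨(1 / 4, s), ?_, hs, hs'⟩
    rintro ⟨m, n, h⟩
    have hre := congrArg Complex.re h
    simp at hre
    have h2 : (2 : ℝ) * m = 1 := by
      rw [← hre]; norm_num
    have h3 : (2 * m : ℤ) = 1 := by exact_mod_cast h2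
    omega
  refine IsConnected.image ⟨hne, isConnected_Om_preW k⟩ _ ?_
  have hP1 : ContinuousOn (fun p : ℂ × ℂ => k.P p.1) (isConnected_Om_W k) :=
    (isConnected_Om_contP k).comp continuous_fst.continuousOn (fun p hp => hp.1)
  have hPd1 : ContinuousOn (fun p : ℂ × ℂ => k.Pd p.1) (isConnected_Om_W k) :=
    (isConnected_Om_contPd k).comp continuous_fst.continuousOn (fun p hp => hp.1)
  have hg1 : ContinuousOn (fun p : ℂ × ℂ => k.g p.1) (isConnected_Om_W k) :=
    (isConnected_Om_contg k).comp continuous_fst.continuousOn (fun p hp => hp.1)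
  have hs1 : ContinuousOn (fun p : ℂ × ℂ => p.2) (isConnected_Om_W k) :=
    continuous_snd.continuousOn
  have hpsi : ContinuousOn (fun p : ℂ × ℂ => psi k p.1 p.2) (isConnected_Om_W k) := by
    unfold psi
    exact (hPd1.mul (hs1.sub hg1)).div (hs1.add hg1) (fun p hp => hp.2.2)
  exact hP1.prodMk hpsi

end Wg
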