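import Mathlib
import Pool.Agent.Helper620.WgDefs

set_option autoImplicit false

open Complex MeasureTheory Set Filter Topology

namespace Wg

theorem submean_of_local_fourier (n : ℤ) : ∃ p q : Polynomial ℂ, ∀ t : AddCircle (1 : ℝ),
    fourier n t = p.eval (AddCircle.toCircle t : ℂ)
      + (starRingEnd ℂ) (q.eval (AddCircle.toCircle t : ℂ)) := by
  have hnat : ∀ k : ℕ, ∀ t : AddCircle (1 : ℝ),
      fourier (k : ℤ) t = (AddCircle.toCircle t : ℂ) ^ k := by
    intro k t
    induction k with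
    | zero => simp
    | succ k ih =>
      rw [Nat.cast_succ, fourier_add, ih, fourier_one, pow_succ]
  obtain ⟨k, rfl | rfl⟩ := n.eq_nat_or_neg
  · refine ⟨Polynomial.X ^ k, 0, fun t => ?_⟩
    rw [hnat]
    simp
  · refine ⟨0, Polynomial.X ^ k, fun t => ?_⟩
    rw [fourier_neg, hnat]
    simp

theorem submean_of_local_span (ψ : C(AddCircle (1 : ℝ), ℂ))
    (hψ : ψ ∈ Submodule.span ℂ (Set.range (@fourier (1 : ℝ)))) :
    ∃ p q : Polynomial ℂ, ∀ t : AddCircle (1 : ℝ),
    ψ t = p.eval (AddCircle.toCircle t : ℂ)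
      + (starRingEnd ℂ) (q.eval (AddCircle.toCircle t : ℂ)) := by
  refine Submodule.span_induction (p := fun ψ _ => ∃ p q : Polynomial ℂ, ∀ t : AddCircle (1 : ℝ),
    ψ t = p.eval (AddCircle.toCircle t : ℂ)
      + (starRingEnd ℂ) (q.eval (AddCircle.toCircle t : ℂ))) ?_ ?_ ?_ ?_ hψ
  · rintro _ ⟨n, rfl⟩
    exact submean_of_local_fourier n
  · exact ⟨0, 0, fun t => by simp⟩
  · rintro a b _ _ ⟨p, q, h⟩ ⟨p', q', h'⟩
    refine ⟨p + p', q + q', fun t => ?_⟩
    rw [ContinuousMap.add_apply, h, h', Polynomial.eval_add, Polynomial.eval_add, map_add]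
    ring
  · rintro c a _ ⟨p, q, h⟩
    refine ⟨Polynomial.C c * p, Polynomial.C ((starRingEnd ℂ) c) * q, fun t => ?_⟩
    rw [ContinuousMap.smul_apply, h, Polynomial.eval_mul, Polynomial.eval_mul, Polynomial.eval_C,
      Polynomial.eval_C, map_mul, Complex.conj_conj, smul_eq_mul]
    ring

theorem submean_of_local_approx {u : ℂ → ℝ} (hu : ContinuousOn u (Metric.closedBall 0 1)) {ε : ℝ}
    (hε : 0 < ε) : ∃ P : Polynomial ℂ, ∀ z : ℂ, ‖z‖ = 1 → |u z - (P.eval z).re| < ε := by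
  let φ : C(AddCircle (1 : ℝ), ℂ) := ⟨fun t => ((u (AddCircle.toCircle t : ℂ) : ℝ) : ℂ), by
    refine Complex.continuous_ofReal.comp (hu.comp_continuous ?_ ?_)
    · exact continuous_induced_dom.comp AddCircle.continuous_toCircle
    · intro t
      simp⟩
  have hφ : φ ∈ (Submodule.span ℂ (Set.range (@fourier (1 : ℝ)))).topologicalClosure := by
    rw [span_fourier_closure_eq_top]
    trivial
  obtain ⟨ψ, hψ, hd⟩ := Metric.mem_closure_iff.1 hφ ε hε
  obtain ⟨p, q, hpq⟩ := submean_of_local_span ψ hψ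
  refine ⟨p + q, fun z hz => ?_⟩
  obtain ⟨t, ht⟩ : ∃ t : AddCircle (1 : ℝ), (AddCircle.toCircle t : ℂ) = z := by
    refine ⟨((Complex.arg z / (2 * Real.pi) : ℝ) : AddCircle (1 : ℝ)), ?_⟩
    rw [← fourier_one, fourier_coe_apply]
    have h1 := Complex.norm_mul_exp_arg_mul_I z
    rw [hz] at h1
    conv_rhs => rw [← h1]
    push_cast
    rw [one_mul]
    congr 1
    have : (Real.pi : ℂ) ≠ 0 := by exact_mod_cast Real.pi_ne_zero
    field_simp
  have h1 := ContinuousMap.dist_apply_le_dist (f := φ) (g := ψ) t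
  have h2 : φ t = ((u z : ℝ) : ℂ) := by
    show ((u (AddCircle.toCircle t : ℂ) : ℝ) : ℂ) = _
    rw [ht]
  have h3 : (ψ t).re = ((p + q).eval z).re := by
    rw [hpq, ht, Polynomial.eval_add, Complex.add_re, Complex.add_re, Complex.conj_re]
  have h4 : u z - ((p + q).eval z).re = (φ t - ψ t).re := by
    rw [Complex.sub_re, h2, Complex.ofReal_re, h3]
  rw [h4]
  rw [dist_eq_norm] at h1
  exact ((Complex.abs_re_le_norm _).trans h1).trans_lt hd

theorem submean_of_local_mean (P : Polynomial ℂ) (c : ℂ) (r : ℝ) :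
    (1 / (2 * Real.pi)) * ∫ θ in (0 : ℝ)..(2 * Real.pi), (P.eval (c + r * exp ((θ : ℂ) * I))).re
      = (P.eval c).re := by
  have h1 : DiffContOnCl ℂ (fun z => P.eval z) (Metric.ball c |r|) :=
    P.differentiable.diffContOnCl
  have h2 := h1.circleAverage
  rw [Real.circleAverage_def] at h2
  have h3 : Continuous (fun θ : ℝ => P.eval (circleMap c r θ)) :=
    P.continuous.comp (continuous_circleMap c r)
  have h4 : ∫ θ in (0 : ℝ)..(2 * Real.pi), (P.eval (circleMap c r θ)).re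
      = (∫ θ in (0 : ℝ)..(2 * Real.pi), P.eval (circleMap c r θ)).re := by
    have := Complex.reCLM.intervalIntegral_comp_comm (h3.intervalIntegrable (μ := volume) 0 (2 * Real.pi))
    simpa using this
  have h5 : ∫ θ in (0 : ℝ)..(2 * Real.pi), (P.eval (c + r * exp ((θ : ℂ) * I))).re
      = ∫ θ in (0 : ℝ)..(2 * Real.pi), (P.eval (circleMap c r θ)).re := rfl
  rw [h5, h4, ← h2]
  simp

theorem submean_of_local_max {D : ℂ → ℝ} {ε : ℝ} (hD : ContinuousOn D (Metric.closedBall 0 1))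
    (hl : ∀ c ∈ Metric.ball (0 : ℂ) 1, ∃ r0 > (0 : ℝ), ∀ r : ℝ, 0 < r → r < r0 →
      D c ≤ (1 / (2 * Real.pi)) * ∫ θ in (0 : ℝ)..(2 * Real.pi), D (c + r * exp ((θ : ℂ) * I)))
    (hb : ∀ z : ℂ, ‖z‖ = 1 → D z ≤ ε) : ∀ z ∈ Metric.closedBall (0 : ℂ) 1, D z ≤ ε := by
  have hcomp : IsCompact (Metric.closedBall (0 : ℂ) 1) := isCompact_closedBall _ _
  obtain ⟨z0, hz0, hmax⟩ := hcomp.exists_isMaxOn ⟨0, by simp⟩ hD
  by_contra hcon
  push Not at hcon
  obtain ⟨z1, hz1, hz1'⟩ := hcon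
  have hM : ε < D z0 := hz1'.trans_le (hmax hz1)
  have hK : IsCompact (Metric.closedBall (0 : ℂ) 1 ∩ D ⁻¹' {D z0}) :=
    hcomp.of_isClosed_subset (hD.preimage_isClosed_of_isClosed Metric.isClosed_closedBall
      isClosed_singleton) inter_subset_left
  obtain ⟨c, hc, hcmax⟩ := hK.exists_isMaxOn ⟨z0, hz0, rfl⟩ (continuous_norm.continuousOn)
  have hcD : D c = D z0 := hc.2
  have hc1 : ‖c‖ ≤ 1 := by simpa using hc.1
  have hclt : ‖c‖ < 1 := by
    rcases hc1.lt_or_eq with h | h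
    · exact h
    · have := hb c h
      rw [hcD] at this
      linarith
  obtain ⟨r0, hr0, hr⟩ := hl c (by simpa using hclt)
  obtain ⟨r, hrr⟩ : ∃ r, r = min (r0 / 2) ((1 - ‖c‖) / 2) := ⟨_, rfl⟩
  have hrpos : 0 < r := by
    rw [hrr]
    exact lt_min (by linarith) (by linarith)
  have hr1 : r < r0 := by
    have := min_le_left (r0 / 2) ((1 - ‖c‖) / 2)
    rw [← hrr] at this
    linarith
  have hr2 : r < 1 - ‖c‖ := by
    have := min_le_right (r0 / 2) ((1 - ‖c‖) / 2)
    rw [← hrr] at this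
    linarith
  have hsub := hr r hrpos hr1
  have hmem : ∀ θ : ℝ, c + r * exp ((θ : ℂ) * I) ∈ Metric.closedBall (0 : ℂ) 1 := by
    intro θ
    rw [mem_closedBall_zero_iff]
    refine (norm_add_le _ _).trans ?_
    rw [norm_mul, Complex.norm_exp_ofReal_mul_I, mul_one, Complex.norm_real,
      Real.norm_of_nonneg hrpos.le]
    linarith
  have hcont : Continuous (fun θ : ℝ => D (c + r * exp ((θ : ℂ) * I))) :=
    hD.comp_continuous (by fun_prop) hmem
  have hle : ∀ θ : ℝ, D (c + r * exp ((θ : ℂ) * I)) ≤ D z0 := fun θ => hmax (hmem θ)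
  -- a point of larger modulus
  obtain ⟨θ1, hθ1, hθe⟩ : ∃ θ1 ∈ Set.Icc (0 : ℝ) (2 * Real.pi),
      exp ((θ1 : ℂ) * I) = exp ((Complex.arg c : ℂ) * I) := by
    have h1 := Complex.neg_pi_lt_arg c
    have h2 := Complex.arg_le_pi c
    have hpi := Real.pi_pos
    by_cases h : 0 ≤ Complex.arg c
    · exact ⟨Complex.arg c, ⟨h, by linarith⟩, rfl⟩
    · refine ⟨Complex.arg c + 2 * Real.pi, ⟨by linarith, by linarith⟩, ?_⟩
      push_cast
      rw [add_mul, Complex.exp_add, Complex.exp_two_pi_mul_I, mul_one]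
  have hlt : D (c + r * exp ((θ1 : ℂ) * I)) < D z0 := by
    rcases (hle θ1).lt_or_eq with h | h
    · exact h
    · exfalso
      have h1 : c + r * exp ((θ1 : ℂ) * I) ∈ Metric.closedBall (0 : ℂ) 1 ∩ D ⁻¹' {D z0} :=
        ⟨hmem θ1, h⟩
      have h2 : ‖c + r * exp ((θ1 : ℂ) * I)‖ ≤ ‖c‖ := hcmax h1
      have h3 : c + r * exp ((θ1 : ℂ) * I) = ((‖c‖ + r : ℝ) : ℂ) * exp ((Complex.arg c : ℂ) * I) := by
        have h4 := Complex.norm_mul_exp_arg_mul_I c
        rw [hθe]
        push_cast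
        rw [add_mul, h4]
      rw [h3, norm_mul, Complex.norm_exp_ofReal_mul_I, mul_one, Complex.norm_real,
        Real.norm_of_nonneg (by positivity)] at h2
      linarith
  have hpos : 0 < ∫ θ in (0 : ℝ)..(2 * Real.pi), (D z0 - D (c + r * exp ((θ : ℂ) * I))) := by
    refine intervalIntegral.integral_pos Real.two_pi_pos
      (continuous_const.sub hcont).continuousOn (fun θ _ => ?_) ⟨θ1, hθ1, ?_⟩
    · have := hle θ
      linarith
    · linarith
  rw [intervalIntegral.integral_sub (by simp) (hcont.intervalIntegrable _ _),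
    intervalIntegral.integral_const, sub_zero, smul_eq_mul] at hpos
  rw [hcD] at hsub
  have hpi := Real.two_pi_pos
  rw [one_div, inv_mul_eq_div, le_div_iff₀ hpi] at hsub
  linarith


/-- G4 (local sub-mean value property implies the sub-mean value property) -/
theorem submean_of_local {u : ℂ → ℝ} (hu : ContinuousOn u (Metric.closedBall 0 1))
    (hl : ∀ c ∈ Metric.ball (0 : ℂ) 1, ∃ r0 > (0 : ℝ), ∀ r : ℝ, 0 < r → r < r0 →
      u c ≤ (1 / (2 * Real.pi)) * ∫ θ in (0 : ℝ)..(2 * Real.pi), u (c + r * exp ((θ : ℂ) * I))) :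
    u 0 ≤ (1 / (2 * Real.pi)) * ∫ θ in (0 : ℝ)..(2 * Real.pi), u (exp ((θ : ℂ) * I)) := by
  have hpi := Real.two_pi_pos
  refine le_of_forall_pos_le_add fun ε hε => ?_
  obtain ⟨P, hP⟩ := submean_of_local_approx hu (half_pos hε)
  have hPc : Continuous (fun z : ℂ => (P.eval z).re) := Complex.continuous_re.comp P.continuous
  have hDc : ContinuousOn (fun z => u z - (P.eval z).re) (Metric.closedBall 0 1) :=
    hu.sub hPc.continuousOn
  have key := submean_of_local_max (D := fun z => u z - (P.eval z).re) (ε := ε / 2) hDc ?_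
    (fun z hz => ((abs_lt.1 (hP z hz)).2).le) 0 (by simp)
  · have h1 := submean_of_local_mean P 0 1
    have hcu : Continuous (fun θ : ℝ => u (exp ((θ : ℂ) * I))) :=
      hu.comp_continuous (by fun_prop) (fun θ => by
        rw [mem_closedBall_zero_iff, Complex.norm_exp_ofReal_mul_I])
    have hcP : Continuous (fun θ : ℝ => (P.eval (exp ((θ : ℂ) * I))).re) := hPc.comp (by fun_prop)
    have h2 : ∫ θ in (0 : ℝ)..(2 * Real.pi), (P.eval (exp ((θ : ℂ) * I))).re
        ≤ ∫ θ in (0 : ℝ)..(2 * Real.pi), (u (exp ((θ : ℂ) * I)) + ε / 2) := by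
      refine intervalIntegral.integral_mono_on hpi.le (hcP.intervalIntegrable _ _)
        ((hcu.add continuous_const).intervalIntegrable _ _) fun θ _ => ?_
      have := (abs_lt.1 (hP (exp ((θ : ℂ) * I)) (Complex.norm_exp_ofReal_mul_I θ))).1
      linarith
    rw [intervalIntegral.integral_add (hcu.intervalIntegrable _ _) (by simp),
      intervalIntegral.integral_const, sub_zero, smul_eq_mul] at h2
    have h3 : (P.eval 0).re = (1 / (2 * Real.pi)) *
        ∫ θ in (0 : ℝ)..(2 * Real.pi), (P.eval (exp ((θ : ℂ) * I))).re := by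
      rw [← h1]
      simp
    have h4 := mul_le_mul_of_nonneg_left h2 (by positivity : 0 ≤ 1 / (2 * Real.pi))
    rw [mul_add] at h4
    have h5 : 1 / (2 * Real.pi) * (2 * Real.pi * (ε / 2)) = ε / 2 := by
      field_simp
    rw [h5, ← h3] at h4
    linarith
  · intro c hc
    obtain ⟨r0, hr0, hr⟩ := hl c hc
    have hc1 : ‖c‖ < 1 := by simpa using hc
    refine ⟨min r0 (1 - ‖c‖), lt_min hr0 (by linarith), fun r hr1 hr2 => ?_⟩
    have hr3 := hr r hr1 (hr2.trans_le (min_le_left _ _))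
    have hr4 : r < 1 - ‖c‖ := hr2.trans_le (min_le_right _ _)
    have hcu : Continuous (fun θ : ℝ => u (c + r * exp ((θ : ℂ) * I))) := by
      refine hu.comp_continuous (by fun_prop) (fun θ => ?_)
      rw [mem_closedBall_zero_iff]
      refine (norm_add_le _ _).trans ?_
      rw [norm_mul, Complex.norm_exp_ofReal_mul_I, mul_one, Complex.norm_real,
        Real.norm_of_nonneg hr1.le]
      linarith
    have hcP : Continuous (fun θ : ℝ => (P.eval (c + r * exp ((θ : ℂ) * I))).re) :=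
      hPc.comp (by fun_prop)
    rw [intervalIntegral.integral_sub (hcu.intervalIntegrable _ _) (hcP.intervalIntegrable _ _),
      mul_sub, submean_of_local_mean]
    linarith

end Wg
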