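import Mathlib
import Pool.Agent.Helper620.WgDefs
import Pool.Agent.Helper620.Wg.D56
import Pool.Agent.Helper620.Wg.G4

set_option autoImplicit false

open Complex MeasureTheory Set Filter Topology

namespace Wg


/-- D8: exhaustion function -/
noncomputable def phi (k : Kit) (p : ℂ × ℂ) : ℝ :=
  ‖p.1‖ ^ 2 + ‖p.2‖ ^ 2 + ‖(q k p.1)⁻¹‖ ^ 2 + ‖(q k p.1 - p.2 ^ 2)⁻¹‖ ^ 2 +
    (5 / 2 - S k p.1 p.2)⁻¹

/-- the natural domain of `S` -/
def phi_D (k : Kit) : Set (ℂ × ℂ) := {p | q k p.1 ≠ 0 ∧ q k p.1 ≠ p.2 ^ 2}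

theorem phi_q_cont (k : Kit) : Continuous (fun p : ℂ × ℂ => q k p.1) := by
  unfold q
  fun_prop

theorem phi_S_cont (k : Kit) {p : ℂ × ℂ} (h1 : q k p.1 ≠ 0) (h2 : q k p.1 ≠ p.2 ^ 2) :
    ContinuousAt (fun p : ℂ × ℂ => S k p.1 p.2) p := by
  obtain ⟨e, U, hU, hpU, he, hne, hS⟩ := S_local k h1 h2
  have hec : ContinuousAt e p := (he.differentiableAt (hU.mem_nhds hpU)).continuousAt
  have h3 : ContinuousAt (fun w => ‖e w‖ + ‖(e w)⁻¹‖) p :=
    hec.norm.add (hec.inv₀ (hne p hpU)).norm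
  refine h3.congr ?_
  filter_upwards [hU.mem_nhds hpU] with w hw
  exact (hS w hw).symm

theorem phi_cont (k : Kit) : ContinuousOn (phi k) (Om k) := by
  intro p hp
  obtain ⟨h1, h2, h3⟩ := hp
  apply ContinuousAt.continuousWithinAt
  unfold phi
  have hq : ContinuousAt (fun p : ℂ × ℂ => q k p.1) p := (phi_q_cont k).continuousAt
  have hS := phi_S_cont k h1 h2
  have c1 : ContinuousAt (fun p : ℂ × ℂ => ‖p.1‖ ^ 2 + ‖p.2‖ ^ 2) p := by fun_prop
  have c2 : ContinuousAt (fun p : ℂ × ℂ => ‖(q k p.1)⁻¹‖ ^ 2) p := ((hq.inv₀ h1).norm).pow 2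
  have c3 : ContinuousAt (fun p : ℂ × ℂ => ‖(q k p.1 - p.2 ^ 2)⁻¹‖ ^ 2) p := by
    have h4 : ContinuousAt (fun p : ℂ × ℂ => q k p.1 - p.2 ^ 2) p :=
      hq.sub (continuousAt_snd.pow 2)
    exact ((h4.inv₀ (sub_ne_zero.2 h2)).norm).pow 2
  have c4 : ContinuousAt (fun p : ℂ × ℂ => (5 / 2 - S k p.1 p.2)⁻¹) p :=
    (continuousAt_const.sub hS).inv₀ (sub_pos.2 h3).ne'
  exact ((c1.add c2).add c3).add c4

theorem phi_le_aux {x c : ℝ} (hx : 0 < x) (h : (x⁻¹) ^ 2 ≤ c) : 1 ≤ c * x ^ 2 := by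
  have h1 : (x⁻¹) ^ 2 * x ^ 2 = 1 := by
    field_simp
  rw [← h1]
  exact mul_le_mul_of_nonneg_right h (sq_nonneg x)

theorem phi_compact (k : Kit) (c : ℝ) : IsCompact {p | p ∈ Om k ∧ phi k p ≤ c} := by
  rcases le_or_gt c 0 with hc | hc
  · have : {p | p ∈ Om k ∧ phi k p ≤ c} = ∅ := by
      rw [Set.eq_empty_iff_forall_notMem]
      rintro p ⟨⟨h1, h2, h3⟩, h4⟩
      have h5 : 0 < (5 / 2 - S k p.1 p.2)⁻¹ := inv_pos.2 (sub_pos.2 h3)
      have h6 : 0 < phi k p := by unfold phi; positivity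
      linarith
    rw [this]
    exact isCompact_empty
  · -- closed set
    set K1 : Set (ℂ × ℂ) := {p | 1 ≤ c * ‖q k p.1‖ ^ 2 ∧ 1 ≤ c * ‖q k p.1 - p.2 ^ 2‖ ^ 2} with hK1
    have hqc := phi_q_cont k
    have hK1c : IsClosed K1 := by
      have i1 : IsClosed {p : ℂ × ℂ | 1 ≤ c * ‖q k p.1‖ ^ 2} :=
        isClosed_le continuous_const (by fun_prop)
      have i2 : IsClosed {p : ℂ × ℂ | 1 ≤ c * ‖q k p.1 - p.2 ^ 2‖ ^ 2} :=
        isClosed_le continuous_const (by fun_prop)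
      exact i1.inter i2
    have hK1D : ∀ p ∈ K1, q k p.1 ≠ 0 ∧ q k p.1 ≠ p.2 ^ 2 := by
      rintro p ⟨h1, h2⟩
      refine ⟨fun h => ?_, fun h => ?_⟩
      · rw [h] at h1
        norm_num at h1
      · rw [h, sub_self] at h2
        norm_num at h2
    have hSc : ContinuousOn (fun p : ℂ × ℂ => c * (5 / 2 - S k p.1 p.2)) K1 := by
      intro p hp
      obtain ⟨h1, h2⟩ := hK1D p hp
      exact (continuousAt_const.mul (continuousAt_const.sub
        (phi_S_cont k h1 h2))).continuousWithinAt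
    set K2 : Set (ℂ × ℂ) := K1 ∩ (fun p : ℂ × ℂ => c * (5 / 2 - S k p.1 p.2)) ⁻¹' Set.Ici 1 with hK2
    have hK2c : IsClosed K2 := hSc.preimage_isClosed_of_isClosed hK1c isClosed_Ici
    have hK2O : K2 ⊆ Om k := by
      rintro p ⟨hp1, hp2⟩
      obtain ⟨h1, h2⟩ := hK1D p hp1
      refine ⟨h1, h2, ?_⟩
      have h3 : 1 ≤ c * (5 / 2 - S k p.1 p.2) := hp2
      have h4 : 0 < c * (5 / 2 - S k p.1 p.2) := by linarith
      have h5 := pos_of_mul_pos_right h4 hc.le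
      linarith
    have hclosed : IsClosed (K2 ∩ (phi k) ⁻¹' Set.Iic c) :=
      ((phi_cont k).mono hK2O).preimage_isClosed_of_isClosed hK2c isClosed_Iic
    have hbd : Bornology.IsBounded (K2 ∩ (phi k) ⁻¹' Set.Iic c) := by
      rw [isBounded_iff_forall_norm_le]
      refine ⟨1 + c, ?_⟩
      rintro p ⟨hp1, hp2⟩
      have hpO := hK2O hp1
      have h5 : 0 < (5 / 2 - S k p.1 p.2)⁻¹ := inv_pos.2 (sub_pos.2 hpO.2.2)
      have h6 : phi k p ≤ c := hp2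
      unfold phi at h6
      have e1 : 0 ≤ ‖p.1‖ ^ 2 := by positivity
      have e2 : 0 ≤ ‖p.2‖ ^ 2 := by positivity
      have e3 : 0 ≤ ‖(q k p.1)⁻¹‖ ^ 2 := by positivity
      have e4 : 0 ≤ ‖(q k p.1 - p.2 ^ 2)⁻¹‖ ^ 2 := by positivity
      have e5 : ‖p.1‖ ^ 2 ≤ c := by linarith
      have e6 : ‖p.2‖ ^ 2 ≤ c := by linarith
      rw [Prod.norm_def]
      apply max_le
      · nlinarith [sq_nonneg (‖p.1‖ - 1), norm_nonneg p.1]
      · nlinarith [sq_nonneg (‖p.2‖ - 1), norm_nonneg p.2]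
    have heq : {p | p ∈ Om k ∧ phi k p ≤ c} = K2 ∩ (phi k) ⁻¹' Set.Iic c := by
      ext p
      constructor
      · rintro ⟨hp1, hp2⟩
        refine ⟨⟨?_, ?_⟩, hp2⟩
        · obtain ⟨h1, h2, h3⟩ := hp1
          have h5 : 0 < (5 / 2 - S k p.1 p.2)⁻¹ := inv_pos.2 (sub_pos.2 h3)
          have h6 : phi k p ≤ c := hp2
          unfold phi at h6
          have e1 : 0 ≤ ‖p.1‖ ^ 2 := by positivity
          have e2 : 0 ≤ ‖p.2‖ ^ 2 := by positivity
          have e3 : 0 ≤ ‖(q k p.1)⁻¹‖ ^ 2 := by positivity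
          have e4 : 0 ≤ ‖(q k p.1 - p.2 ^ 2)⁻¹‖ ^ 2 := by positivity
          refine ⟨phi_le_aux (norm_pos_iff.2 h1) ?_, phi_le_aux (norm_pos_iff.2
            (sub_ne_zero.2 h2)) ?_⟩
          · rw [← norm_inv]; linarith
          · rw [← norm_inv]; linarith
        · obtain ⟨h1, h2, h3⟩ := hp1
          have h5 : 0 < 5 / 2 - S k p.1 p.2 := sub_pos.2 h3
          have h6 : phi k p ≤ c := hp2
          unfold phi at h6
          have e1 : 0 ≤ ‖p.1‖ ^ 2 := by positivity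
          have e2 : 0 ≤ ‖p.2‖ ^ 2 := by positivity
          have e3 : 0 ≤ ‖(q k p.1)⁻¹‖ ^ 2 := by positivity
          have e4 : 0 ≤ ‖(q k p.1 - p.2 ^ 2)⁻¹‖ ^ 2 := by positivity
          have h7 : (5 / 2 - S k p.1 p.2)⁻¹ ≤ c := by linarith
          show 1 ≤ c * (5 / 2 - S k p.1 p.2)
          rw [inv_le_iff_one_le_mul₀ h5] at h7
          exact h7
      · rintro ⟨hp1, hp2⟩
        exact ⟨hK2O hp1, hp2⟩
    rw [heq]
    exact Metric.isCompact_of_isClosed_isBounded hclosed hbd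

/-- local sub-mean value property with integrability -/
def phi_SM (f : ℂ → ℝ) (c : ℂ) (r : ℝ) : Prop :=
  CircleIntegrable f c r ∧ f c ≤ Real.circleAverage f c r

theorem phi_SM_add {f g : ℂ → ℝ} {c : ℂ} {r : ℝ} (hf : phi_SM f c r) (hg : phi_SM g c r) :
    phi_SM (fun z => f z + g z) c r := by
  refine ⟨hf.1.add hg.1, ?_⟩
  rw [Real.circleAverage_fun_add hf.1 hg.1]
  exact add_le_add hf.2 hg.2

theorem phi_SM_const (a : ℝ) (c : ℂ) (r : ℝ) : phi_SM (fun _ => a) c r :=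
  ⟨circleIntegrable_const a c r, by rw [Real.circleAverage_const]⟩

theorem phi_SM_mul {f : ℂ → ℝ} {c : ℂ} {r : ℝ} (hf : phi_SM f c r) {a : ℝ} (ha : 0 ≤ a) :
    phi_SM (fun z => a * f z) c r := by
  refine ⟨hf.1.const_smul (a := a), ?_⟩
  have h1 : Real.circleAverage (fun z => a * f z) c r = a * Real.circleAverage f c r :=
    Real.circleAverage_fun_smul (a := a) (f := f)
  rw [h1]
  exact mul_le_mul_of_nonneg_left hf.2 ha

theorem phi_SM_norm {F : ℂ → ℂ} {c : ℂ} {r : ℝ} (hr : 0 < r)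
    (hF : ∀ z ∈ Metric.closedBall c r, DifferentiableAt ℂ F z) :
    phi_SM (fun z => ‖F z‖) c r := by
  have hcont : ContinuousOn F (Metric.closedBall c r) := fun z hz =>
    (hF z hz).continuousAt.continuousWithinAt
  have hcs : ContinuousOn (fun z => ‖F z‖) (Metric.sphere c r) :=
    (hcont.mono Metric.sphere_subset_closedBall).norm
  refine ⟨hcs.circleIntegrable hr.le, ?_⟩
  have h1 : Real.circleAverage F c r = F c := by
    apply circleAverage_of_differentiable_on_off_countable (s := ∅) Set.countable_empty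
    · rw [abs_of_pos hr]; exact hcont
    · rw [abs_of_pos hr]
      intro z hz
      exact hF z (Metric.ball_subset_closedBall hz.1)
  show ‖F c‖ ≤ Real.circleAverage (fun z => ‖F z‖) c r
  rw [← h1, Real.circleAverage_def, Real.circleAverage_def, norm_smul, smul_eq_mul,
    Real.norm_of_nonneg (by positivity : (0:ℝ) ≤ (2 * Real.pi)⁻¹)]
  refine mul_le_mul_of_nonneg_left ?_ (by positivity)
  exact intervalIntegral.norm_integral_le_integral_norm (by positivity)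

theorem phi_SM_sq {F : ℂ → ℂ} {c : ℂ} {r : ℝ} (hr : 0 < r)
    (hF : ∀ z ∈ Metric.closedBall c r, DifferentiableAt ℂ F z) :
    phi_SM (fun z => ‖F z‖ ^ 2) c r := by
  have h := phi_SM_norm (F := fun z => F z ^ 2) hr (fun z hz => (hF z hz).pow 2)
  simpa only [norm_pow] using h

theorem phi_convex {t t0 : ℝ} (ht : t < 5 / 2) (ht0 : t0 < 5 / 2) :
    ((5 / 2 - t0)⁻¹ - ((5 / 2 - t0)⁻¹) ^ 2 * t0) + ((5 / 2 - t0)⁻¹) ^ 2 * t ≤ (5 / 2 - t)⁻¹ := by
  have hs : 0 < 5 / 2 - t := by linarith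
  have hs0 : 0 < 5 / 2 - t0 := by linarith
  have e : (5 / 2 - t)⁻¹ - (((5 / 2 - t0)⁻¹ - ((5 / 2 - t0)⁻¹) ^ 2 * t0) +
      ((5 / 2 - t0)⁻¹) ^ 2 * t) = (t - t0) ^ 2 / ((5 / 2 - t) * (5 / 2 - t0) ^ 2) := by
    have h1 := hs.ne'
    have h2 := hs0.ne'
    rw [eq_div_iff (by positivity)]
    generalize hx : (5 / 2 - t)⁻¹ = x
    generalize hy : (5 / 2 - t0)⁻¹ = y
    have hx1 : x * (5 / 2 - t) = 1 := by rw [← hx]; exact inv_mul_cancel₀ h1
    have hy1 : y * (5 / 2 - t0) = 1 := by rw [← hy]; exact inv_mul_cancel₀ h2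
    have hy2 : y ^ 2 * (5 / 2 - t0) ^ 2 = 1 := by rw [← mul_pow, hy1, one_pow]
    calc (x - (y - y ^ 2 * t0 + y ^ 2 * t)) * ((5 / 2 - t) * (5 / 2 - t0) ^ 2)
        = (x * (5 / 2 - t)) * (5 / 2 - t0) ^ 2 - (y * (5 / 2 - t0)) * (5 / 2 - t0) * (5 / 2 - t)
          + (y ^ 2 * (5 / 2 - t0) ^ 2) * (t0 - t) * (5 / 2 - t) := by ring
      _ = (t - t0) ^ 2 := by rw [hx1, hy1, hy2]; ring
  have h3 : 0 ≤ (t - t0) ^ 2 / ((5 / 2 - t) * (5 / 2 - t0) ^ 2) := by positivity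
  linarith

theorem phi_submean (k : Kit) (a b : ℂ × ℂ) (h : ∀ ζ : ℂ, ‖ζ‖ ≤ 1 → a + ζ • b ∈ Om k) :
    phi k a ≤ (1 / (2 * Real.pi)) *
      ∫ θ in (0 : ℝ)..(2 * Real.pi), phi k (a + exp ((θ : ℂ) * I) • b) := by
  have hlc : Continuous (fun ζ : ℂ => a + ζ • b) := by fun_prop
  have hld : ∀ ζ : ℂ, DifferentiableAt ℂ (fun ζ : ℂ => a + ζ • b) ζ := fun ζ =>
    (differentiableAt_id.smul_const b).const_add a
  have hu : ContinuousOn (fun ζ : ℂ => phi k (a + ζ • b)) (Metric.closedBall 0 1) := by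
    refine (phi_cont k).comp hlc.continuousOn ?_
    intro ζ hζ
    exact h ζ (by simpa using hζ)
  have hmain := submean_of_local hu ?_
  · simpa using hmain
  intro c hc
  have hc1 : ‖c‖ < 1 := by simpa using hc
  have hA := h c hc1.le
  obtain ⟨e, U, hU, hpU, he, hne, hS⟩ := S_local k hA.1 hA.2.1
  have hV : {ζ : ℂ | a + ζ • b ∈ U} ∩ Metric.ball 0 1 ∈ 𝓝 c :=
    ((hU.preimage hlc).inter Metric.isOpen_ball).mem_nhds ⟨hpU, hc⟩
  obtain ⟨r0, hr0, hball⟩ := Metric.mem_nhds_iff.1 hV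
  refine ⟨r0, hr0, fun r hr hrr0 => ?_⟩
  have hsub : ∀ z ∈ Metric.closedBall c r, a + z • b ∈ U ∧ ‖z‖ < 1 := by
    intro z hz
    have := hball (Metric.closedBall_subset_ball hrr0 hz)
    exact ⟨this.1, by simpa using this.2⟩
  have hOm : ∀ z ∈ Metric.closedBall c r, a + z • b ∈ Om k := fun z hz =>
    h z (hsub z hz).2.le
  have hqd : ∀ z : ℂ, DifferentiableAt ℂ (fun z : ℂ => q k (a + z • b).1) z := by
    intro z
    have h1 : DifferentiableAt ℂ (fun z : ℂ => (a + z • b).1) z := (hld z).fst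
    unfold q
    exact (((h1.pow 3).const_mul 4).sub (h1.const_mul _)).sub_const _
  have d1 : ∀ z ∈ Metric.closedBall c r, DifferentiableAt ℂ (fun z : ℂ => (a + z • b).1) z :=
    fun z _ => (hld z).fst
  have d2 : ∀ z ∈ Metric.closedBall c r, DifferentiableAt ℂ (fun z : ℂ => (a + z • b).2) z :=
    fun z _ => (hld z).snd
  have d3 : ∀ z ∈ Metric.closedBall c r,
      DifferentiableAt ℂ (fun z : ℂ => (q k (a + z • b).1)⁻¹) z :=
    fun z hz => (hqd z).inv (hOm z hz).1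
  have d4 : ∀ z ∈ Metric.closedBall c r,
      DifferentiableAt ℂ (fun z : ℂ => (q k (a + z • b).1 - (a + z • b).2 ^ 2)⁻¹) z :=
    fun z hz => ((hqd z).sub ((hld z).snd.pow 2)).inv (sub_ne_zero.2 (hOm z hz).2.1)
  have d5 : ∀ z ∈ Metric.closedBall c r, DifferentiableAt ℂ (fun z : ℂ => e (a + z • b)) z :=
    fun z hz => (he.differentiableAt (hU.mem_nhds (hsub z hz).1)).comp z (hld z)
  have d6 : ∀ z ∈ Metric.closedBall c r, DifferentiableAt ℂ (fun z : ℂ => (e (a + z • b))⁻¹) z :=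
    fun z hz => (d5 z hz).inv (hne _ (hsub z hz).1)
  set t0 := S k (a + c • b).1 (a + c • b).2 with ht0
  set y := (5 / 2 - t0)⁻¹ with hy
  have hSM : phi_SM (fun z : ℂ => ‖(a + z • b).1‖ ^ 2 + ‖(a + z • b).2‖ ^ 2 +
      ‖(q k (a + z • b).1)⁻¹‖ ^ 2 + ‖(q k (a + z • b).1 - (a + z • b).2 ^ 2)⁻¹‖ ^ 2 +
      ((y - y ^ 2 * t0) + y ^ 2 * (‖e (a + z • b)‖ + ‖(e (a + z • b))⁻¹‖))) c r :=
    phi_SM_add (phi_SM_add (phi_SM_add (phi_SM_add (phi_SM_sq hr d1) (phi_SM_sq hr d2))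
      (phi_SM_sq hr d3)) (phi_SM_sq hr d4))
      (phi_SM_add (phi_SM_const _ _ _) (phi_SM_mul (phi_SM_add (phi_SM_norm hr d5)
        (phi_SM_norm hr d6)) (sq_nonneg y)))
  have hcmem : c ∈ Metric.closedBall c r := Metric.mem_closedBall_self hr.le
  have hSc : t0 = ‖e (a + c • b)‖ + ‖(e (a + c • b))⁻¹‖ := hS _ (hsub c hcmem).1
  have huInt : CircleIntegrable (fun ζ : ℂ => phi k (a + ζ • b)) c r := by
    apply ContinuousOn.circleIntegrable hr.le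
    refine hu.mono (fun z hz => ?_)
    have := (hsub z (Metric.sphere_subset_closedBall hz)).2
    simpa using this.le
  have hle : ∀ z ∈ Metric.sphere c |r|, ‖(a + z • b).1‖ ^ 2 + ‖(a + z • b).2‖ ^ 2 +
      ‖(q k (a + z • b).1)⁻¹‖ ^ 2 + ‖(q k (a + z • b).1 - (a + z • b).2 ^ 2)⁻¹‖ ^ 2 +
      ((y - y ^ 2 * t0) + y ^ 2 * (‖e (a + z • b)‖ + ‖(e (a + z • b))⁻¹‖)) ≤
      phi k (a + z • b) := by
    intro z hz
    rw [abs_of_pos hr] at hz
    have hz' := Metric.sphere_subset_closedBall hz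
    have hSz := hS _ (hsub z hz').1
    rw [← hSz]
    unfold phi
    have := phi_convex (hOm z hz').2.2 hA.2.2
    exact add_le_add le_rfl this
  have hfin := hSM.2.trans (Real.circleAverage_mono hSM.1 huInt hle)
  have hval : phi k (a + c • b) = ‖(a + c • b).1‖ ^ 2 + ‖(a + c • b).2‖ ^ 2 +
      ‖(q k (a + c • b).1)⁻¹‖ ^ 2 + ‖(q k (a + c • b).1 - (a + c • b).2 ^ 2)⁻¹‖ ^ 2 +
      ((y - y ^ 2 * t0) + y ^ 2 * (‖e (a + c • b)‖ + ‖(e (a + c • b))⁻¹‖)) := by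
    rw [← hSc]
    unfold phi
    rw [sub_add_cancel]
  show phi k (a + c • b) ≤ _
  rw [hval]
  refine hfin.trans (le_of_eq ?_)
  rw [Real.circleAverage_def, smul_eq_mul, one_div]
  rfl

end Wg
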