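import Mathlib
import Pool.Agent.Helper620.WgDefs

set_option autoImplicit false

open Complex MeasureTheory Set Filter Topology

namespace Wg


theorem rot_const_An_open : IsOpen An := by
  unfold An
  exact (isOpen_lt continuous_const continuous_norm).inter (isOpen_lt continuous_norm continuous_const)

theorem rot_const_An_preconnected : IsPreconnected An := by
  have h1 : An = Complex.exp '' {w : ℂ | -Real.log 2 < w.re ∧ w.re < Real.log 2} := by
    ext s
    constructor
    · rintro ⟨h1, h2⟩
      have hs : s ≠ 0 := by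
        rintro rfl
        rw [norm_zero] at h1
        norm_num at h1
      have hn : 0 < ‖s‖ := norm_pos_iff.2 hs
      refine ⟨Complex.log s, ⟨?_, ?_⟩, Complex.exp_log hs⟩
      · rw [Complex.log_re, ← Real.log_inv]
        exact Real.log_lt_log (by norm_num) (by norm_num at h1 ⊢; exact h1)
      · rw [Complex.log_re]
        exact Real.log_lt_log hn h2
    · rintro ⟨w, ⟨h1, h2⟩, rfl⟩
      refine ⟨?_, ?_⟩
      · rw [Complex.norm_exp]
        have : (1 / 2 : ℝ) = Real.exp (-Real.log 2) := by
          rw [Real.exp_neg, Real.exp_log (by norm_num)]; norm_num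
        rw [this]
        exact Real.exp_lt_exp.2 h1
      · rw [Complex.norm_exp]
        have : (2 : ℝ) = Real.exp (Real.log 2) := by
          rw [Real.exp_log (by norm_num)]
        rw [this]
        exact Real.exp_lt_exp.2 (by simpa using h2)
  rw [h1]
  refine IsPreconnected.image ?_ _ Complex.continuous_exp.continuousOn
  apply Convex.isPreconnected
  have : {w : ℂ | -Real.log 2 < w.re ∧ w.re < Real.log 2} = Complex.reLm ⁻¹' (Set.Ioo (-Real.log 2) (Real.log 2)) := by
    ext w; rfl
  rw [this]
  exact (convex_Ioo _ _).linear_preimage _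

theorem rot_const_inj : Function.Injective (fun n : ℕ => exp (n * I)) := by
  intro n m h
  rw [Complex.exp_eq_exp_iff_exists_int] at h
  obtain ⟨k, hk⟩ := h
  have h2 : (n : ℂ) = m + k * (2 * Real.pi) := by
    have : I * ((n : ℂ) - (m + k * (2 * Real.pi))) = 0 := by linear_combination hk
    rcases mul_eq_zero.1 this with h | h
    · exact absurd h I_ne_zero
    · exact sub_eq_zero.1 h
  have h3 : (n : ℝ) = m + k * (2 * Real.pi) := by exact_mod_cast h2
  by_cases hk0 : k = 0
  · rw [hk0] at h3
    simp at h3
    exact h3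
  · exfalso
    apply irrational_pi
    refine ⟨((n : ℚ) - m) / (2 * k), ?_⟩
    have : (k : ℝ) ≠ 0 := by exact_mod_cast hk0
    push_cast
    rw [div_eq_iff (by positivity), h3]
    ring

/-- G5 -/
theorem rot_const {h : ℂ → ℂ} (hd : DifferentiableOn ℂ h An)
    (hr : ∀ s ∈ An, h (exp I * s) = h s) : ∃ c, ∀ s ∈ An, h s = c := by
  have hn : ∀ n : ℕ, ‖exp (n * I)‖ = 1 := by
    intro n
    exact_mod_cast Complex.norm_exp_ofReal_mul_I n
  have hmem : ∀ n : ℕ, exp (n * I) ∈ An := by
    intro n
    refine ⟨?_, ?_⟩ <;> rw [hn] <;> norm_num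
  have hval : ∀ n : ℕ, h (exp (n * I)) = h 1 := by
    intro n
    induction n with
    | zero => simp
    | succ n ih =>
      rw [← ih, ← hr _ (hmem n), ← Complex.exp_add]
      congr 2
      push_cast; ring
  have hinf : (Set.range (fun n : ℕ => exp (n * I))).Infinite :=
    Set.infinite_range_of_injective rot_const_inj
  have hsub : Set.range (fun n : ℕ => exp (n * I)) ⊆ Metric.sphere (0 : ℂ) 1 := by
    rintro _ ⟨n, rfl⟩
    simpa using hn n
  obtain ⟨p, hp, hacc⟩ := hinf.exists_accPt_of_subset_isCompact (isCompact_sphere (0 : ℂ) 1) hsub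
  have hpAn : p ∈ An := by
    have : ‖p‖ = 1 := by simpa using hp
    refine ⟨?_, ?_⟩ <;> rw [this] <;> norm_num
  have han : AnalyticOnNhd ℂ h An := hd.analyticOnNhd rot_const_An_open
  have hf : ∃ᶠ z in 𝓝[≠] p, h z = (fun _ => h 1) z := by
    rw [accPt_iff_frequently_nhdsNE] at hacc
    refine hacc.mono ?_
    rintro z ⟨n, rfl⟩
    exact hval n
  have := han.eqOn_of_preconnected_of_frequently_eq (analyticOnNhd_const) rot_const_An_preconnected
    hpAn hf
  exact ⟨h 1, fun s hs => this hs⟩

end Wg
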