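import Mathlib
import Pool.Agent.Helper620.WgDefs
import Pool.Agent.Helper620.Wg.D14
import Pool.Agent.Helper620.Wg.D56

set_option autoImplicit false

open Complex MeasureTheory Set Filter Topology

namespace Wg

theorem HH_diff_z_closed : IsClosed (Lam : Set ℂ) := by
  have h1 : IsClosed (Complex.re ⁻¹' (Set.range (fun n : ℤ => (n : ℝ)))) :=
    (Int.isClosedEmbedding_coe_real.isClosed_range).preimage Complex.continuous_re
  have h2 : IsClosed (Complex.im ⁻¹' (Set.range (fun n : ℤ => (n : ℝ)))) :=
    (Int.isClosedEmbedding_coe_real.isClosed_range).preimage Complex.continuous_im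
  have e : (Lam : Set ℂ) = (Complex.re ⁻¹' (Set.range (fun n : ℤ => (n : ℝ)))) ∩
      (Complex.im ⁻¹' (Set.range (fun n : ℤ => (n : ℝ)))) := by
    ext z
    constructor
    · rintro ⟨m, n, rfl⟩
      exact ⟨⟨m, by simp⟩, ⟨n, by simp⟩⟩
    · rintro ⟨⟨m, hm⟩, ⟨n, hn⟩⟩
      refine ⟨m, n, ?_⟩
      apply Complex.ext
      · simpa using hm.symm
      · simpa using hn.symm
  rw [e]
  exact h1.inter h2


/-- M4 -/
theorem HH_diff_z (k : Kit) {F : ℂ × ℂ → ℂ} (hF : DifferentiableOn ℂ F (Om k)) {z s : ℂ}
    (hz : 2 * z ∉ Lam) (hs : s ∈ An) (hg : s + k.g z ≠ 0) :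
    DifferentiableAt ℂ (fun z => HH k F z s) z ∧ DifferentiableAt ℂ (fun s => HH k F z s) s := by
  have hzL : z ∉ Lam := notMem_of_two hz
  have hnhds : (Lam : Set ℂ)ᶜ ∈ 𝓝 z := HH_diff_z_closed.isOpen_compl.mem_nhds hzL
  have hPz : DifferentiableAt ℂ k.P z := (k.hP z hzL).differentiableAt
  have hPdz : DifferentiableAt ℂ k.Pd z := k.hPd.differentiableAt hnhds
  have hgz : DifferentiableAt ℂ k.g z := k.hg.differentiableAt hnhds
  have hFp : DifferentiableAt ℂ F (k.P z, psi k z s) :=
    hF.differentiableAt ((isOpen_Om k).mem_nhds (psi_mem k hz hs hg))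
  have hg2 : (s + k.g z) ^ 2 ≠ 0 := pow_ne_zero 2 hg
  constructor
  · have h1 : DifferentiableAt ℂ (fun z => psi k z s) z := by
      unfold psi
      exact (hPdz.mul ((differentiableAt_const s).sub hgz)).div ((differentiableAt_const s).add hgz) hg
    have h2 : DifferentiableAt ℂ (fun z => (k.P z, psi k z s)) z := hPz.prodMk h1
    have h3 : DifferentiableAt ℂ (fun z => F (k.P z, psi k z s)) z :=
      DifferentiableAt.comp (f := fun z => (k.P z, psi k z s)) (g := F) z hFp h2
    have h4 : DifferentiableAt ℂ (fun z => 4 * s * k.g z * (k.Pd z) ^ 2 / (s + k.g z) ^ 2) z :=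
      (((differentiableAt_const (4 * s)).mul hgz).mul (hPdz.pow 2)).div
        (((differentiableAt_const s).add hgz).pow 2) hg2
    exact h3.mul h4
  · have h1 : DifferentiableAt ℂ (fun s => psi k z s) s := by
      unfold psi
      exact ((differentiableAt_const (k.Pd z)).mul (differentiableAt_id.sub (differentiableAt_const _))).div
        (differentiableAt_id.add (differentiableAt_const _)) hg
    have h2 : DifferentiableAt ℂ (fun s => (k.P z, psi k z s)) s := (differentiableAt_const _).prodMk h1
    have h3 : DifferentiableAt ℂ (fun s => F (k.P z, psi k z s)) s :=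
      DifferentiableAt.comp (f := fun s => (k.P z, psi k z s)) (g := F) s hFp h2
    have h4 : DifferentiableAt ℂ (fun s => 4 * s * k.g z * (k.Pd z) ^ 2 / (s + k.g z) ^ 2) s :=
      ((((differentiableAt_const (4 : ℂ)).mul differentiableAt_id).mul (differentiableAt_const _)).mul
        (differentiableAt_const _)).div ((differentiableAt_id.add (differentiableAt_const _)).pow 2) hg2
    exact h3.mul h4

end Wg
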