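import Mathlib
import Pool.Agent.Helper620.WgDefs

set_option autoImplicit false

open Complex MeasureTheory Set Filter Topology

namespace Wg

/-- mean value inequality on circles, lintegral form -/
theorem removable_L2_circle {h : ℂ → ℂ} {s : ℂ} {ρ r : ℝ} (hr : 0 < r) (hrρ : r < ρ)
    (hd : DifferentiableOn ℂ h (Metric.ball s ρ)) :
    ENNReal.ofReal (2 * Real.pi * ‖h s‖ ^ 2) ≤
      ∫⁻ θ in Set.Ioo (-Real.pi) Real.pi, ENNReal.ofReal (‖h (circleMap s r θ)‖ ^ 2) := by
  have hsub : Metric.closedBall s |r| ⊆ Metric.ball s ρ := by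
    rw [abs_of_pos hr]
    exact Metric.closedBall_subset_ball hrρ
  have h2 : DifferentiableOn ℂ (fun z => h z ^ 2) (Metric.ball s ρ) := hd.pow 2
  have h3 := (h2.diffContOnCl_ball hsub).circleAverage
  rw [Real.circleAverage_eq_integral_add (-Real.pi)] at h3
  have h4 : ∫ θ in (0 : ℝ)..2 * Real.pi, (fun z => h z ^ 2) (circleMap s r (θ + -Real.pi)) =
      ∫ θ in (-Real.pi)..Real.pi, (h (circleMap s r θ)) ^ 2 := by
    rw [intervalIntegral.integral_comp_add_right (fun θ => (fun z => h z ^ 2) (circleMap s r θ))]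
    congr 1
    · ring
    · ring
  rw [h4] at h3
  have hpi := Real.pi_pos
  have h5 : ∫ θ in (-Real.pi)..Real.pi, (h (circleMap s r θ)) ^ 2 =
      ((2 * Real.pi : ℝ) : ℂ) * h s ^ 2 := by
    have h6 : h s ^ 2 = ((2 * Real.pi : ℝ)⁻¹ : ℝ) • ∫ θ in (-Real.pi)..Real.pi, (h (circleMap s r θ)) ^ 2 := h3.symm
    rw [h6, Complex.real_smul, ← mul_assoc, ← Complex.ofReal_mul, mul_inv_cancel₀ (by positivity),
      Complex.ofReal_one, one_mul]
  have h7 : ENNReal.ofReal (2 * Real.pi * ‖h s‖ ^ 2) =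
      ‖∫ θ in Set.Ioc (-Real.pi) Real.pi, (h (circleMap s r θ)) ^ 2‖ₑ := by
    rw [← intervalIntegral.integral_of_le (by linarith), h5, ← ofReal_norm_eq_enorm, norm_mul,
      norm_pow, Complex.norm_real, Real.norm_of_nonneg (by positivity)]
  rw [h7]
  refine (enorm_integral_le_lintegral_enorm _).trans ?_
  rw [MeasureTheory.setLIntegral_congr (Ioo_ae_eq_Ioc (a := -Real.pi) (b := Real.pi)).symm]
  apply le_of_eq
  apply lintegral_congr
  intro θ
  rw [← ofReal_norm_eq_enorm, norm_pow]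

theorem removable_L2_mean {h : ℂ → ℂ} {s : ℂ} {ρ : ℝ} (hρ : 0 < ρ)
    (hd : DifferentiableOn ℂ h (Metric.ball s ρ)) :
    ENNReal.ofReal (‖h s‖ ^ 2) ≤ ENNReal.ofReal (1 / (Real.pi * ρ ^ 2)) *
      ∫⁻ z in Metric.ball s ρ, ENNReal.ofReal (‖h z‖ ^ 2) := by
  classical
  have hpi := Real.pi_pos
  set F : ℂ → ENNReal := fun z => ENNReal.ofReal (‖h z‖ ^ 2) with hF
  set G : ℂ → ENNReal := (Metric.ball s ρ).piecewise F (fun _ => 0) with hG
  have hGm : Measurable G := by
    have hFc : ContinuousOn F (Metric.ball s ρ) := by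
      apply ENNReal.continuous_ofReal.comp_continuousOn
      exact (hd.continuousOn.norm).pow 2
    exact ContinuousOn.measurable_piecewise hFc continuousOn_const measurableSet_ball
  have hG1 : ∫⁻ z in Metric.ball s ρ, F z = ∫⁻ z, G z := by
    rw [← lintegral_indicator measurableSet_ball]
    apply lintegral_congr
    intro z
    rw [hG]
    by_cases hz : z ∈ Metric.ball s ρ
    · rw [Set.indicator_of_mem hz, Set.piecewise_eq_of_mem _ _ _ hz]
    · rw [Set.indicator_of_notMem hz, Set.piecewise_eq_of_notMem _ _ _ hz]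
  have hG2 : ∫⁻ z, G z = ∫⁻ z, G (s + z) := (lintegral_add_left_eq_self G s).symm
  have hG3 : ∫⁻ z, G (s + z) = ∫⁻ p in polarCoord.target,
      ENNReal.ofReal p.1 • G (s + Complex.polarCoord.symm p) :=
    (Complex.lintegral_comp_polarCoord_symm (fun z => G (s + z))).symm
  have hsymm : ∀ p : ℝ × ℝ, s + Complex.polarCoord.symm p = circleMap s p.1 p.2 := by
    intro p
    rw [Complex.polarCoord_symm_apply, circleMap, Complex.exp_mul_I]
    push_cast
    ring
  have hmeas : Measurable (fun p : ℝ × ℝ => ENNReal.ofReal p.1 * G (circleMap s p.1 p.2)) := by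
    apply Measurable.mul
    · exact ENNReal.measurable_ofReal.comp measurable_fst
    · apply hGm.comp
      have : Continuous (fun p : ℝ × ℝ => circleMap s p.1 p.2) := by
        unfold circleMap
        fun_prop
      exact this.measurable
  have hG4 : ∫⁻ z in Metric.ball s ρ, F z = ∫⁻ r in Set.Ioi (0 : ℝ), ∫⁻ θ in Set.Ioo (-Real.pi) Real.pi,
      ENNReal.ofReal r * G (circleMap s r θ) := by
    rw [hG1, hG2, hG3]
    simp only [smul_eq_mul, hsymm]
    rw [polarCoord_target, Measure.volume_eq_prod, ← Measure.prod_restrict,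
      lintegral_prod _ hmeas.aemeasurable]
  have hlow : ENNReal.ofReal (Real.pi * ρ ^ 2 * ‖h s‖ ^ 2) ≤ ∫⁻ z in Metric.ball s ρ, F z := by
    rw [hG4]
    have hsub : ∫⁻ r in Set.Ioo (0 : ℝ) ρ, ∫⁻ θ in Set.Ioo (-Real.pi) Real.pi,
        ENNReal.ofReal r * G (circleMap s r θ) ≤ ∫⁻ r in Set.Ioi (0 : ℝ),
        ∫⁻ θ in Set.Ioo (-Real.pi) Real.pi, ENNReal.ofReal r * G (circleMap s r θ) :=
      lintegral_mono_set (fun x hx => hx.1)
    refine le_trans ?_ hsub
    have h1 : ∀ r ∈ Set.Ioo (0 : ℝ) ρ, ENNReal.ofReal (r * (2 * Real.pi * ‖h s‖ ^ 2)) ≤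
        ∫⁻ θ in Set.Ioo (-Real.pi) Real.pi, ENNReal.ofReal r * G (circleMap s r θ) := by
      intro r hr
      have h2 := removable_L2_circle hr.1 hr.2 hd
      have h3 : ∫⁻ θ in Set.Ioo (-Real.pi) Real.pi, ENNReal.ofReal r * G (circleMap s r θ) =
          ENNReal.ofReal r * ∫⁻ θ in Set.Ioo (-Real.pi) Real.pi, F (circleMap s r θ) := by
        rw [← lintegral_const_mul' _ _ ENNReal.ofReal_ne_top]
        apply lintegral_congr
        intro θ
        congr 1
        rw [hG, Set.piecewise_eq_of_mem]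
        rw [Metric.mem_ball, dist_eq_norm, circleMap_sub_center, norm_circleMap_zero,
          abs_of_pos hr.1]
        exact hr.2
      rw [h3, ENNReal.ofReal_mul hr.1.le]
      gcongr
    have h4 : ∫⁻ r in Set.Ioo (0 : ℝ) ρ, ENNReal.ofReal (r * (2 * Real.pi * ‖h s‖ ^ 2)) =
        ENNReal.ofReal (Real.pi * ρ ^ 2 * ‖h s‖ ^ 2) := by
      rw [← ofReal_integral_eq_lintegral_ofReal]
      · congr 1
        rw [← integral_Ioc_eq_integral_Ioo, ← intervalIntegral.integral_of_le hρ.le,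
          intervalIntegral.integral_mul_const, integral_id]
        ring
      · apply (continuous_id.mul continuous_const).integrableOn_Icc.mono_set Set.Ioo_subset_Icc_self
      · rw [Filter.EventuallyLE, ae_restrict_iff' measurableSet_Ioo]
        exact Filter.Eventually.of_forall (fun r hr => by
          have := hr.1
          show 0 ≤ r * (2 * Real.pi * ‖h s‖ ^ 2)
          positivity)
    rw [← h4]
    exact setLIntegral_mono' measurableSet_Ioo h1
  calc ENNReal.ofReal (‖h s‖ ^ 2) = ENNReal.ofReal (1 / (Real.pi * ρ ^ 2)) *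
        ENNReal.ofReal (Real.pi * ρ ^ 2 * ‖h s‖ ^ 2) := by
        rw [← ENNReal.ofReal_mul (by positivity)]
        congr 1
        field_simp
    _ ≤ _ := by gcongr


/-- G2 (`L²` isolated singularities are removable) -/
theorem removable_L2 {u : ℂ → ℂ} {c : ℂ} {r : ℝ} (hr : 0 < r)
    (hd : DifferentiableOn ℂ u (Metric.ball c r \ {c}))
    (hL : ∫⁻ z in Metric.ball c r, ENNReal.ofReal (‖u z‖ ^ 2) < ⊤) :
    ∃ v : ℂ → ℂ, DifferentiableOn ℂ v (Metric.ball c r) ∧
      ∀ z ∈ Metric.ball c r \ {c}, v z = u z := by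
  have hpi := Real.pi_pos
  refine ⟨Function.update u c (limUnder (𝓝[≠] c) u), ?_, fun z hz => ?_⟩
  swap
  · exact Function.update_of_ne (fun h => hz.2 (by simp [h])) _ _
  apply Complex.differentiableOn_update_limUnder_of_isLittleO (Metric.ball_mem_nhds c hr) hd
  rw [Asymptotics.isLittleO_iff]
  intro ε hε
  -- the integral over small balls
  have hball : Tendsto (fun z : ℂ => (volume.restrict (Metric.ball c r)) (Metric.ball c (2 * ‖z - c‖)))
      (𝓝 c) (𝓝 0) := by
    have h1 : Tendsto (fun z : ℂ => volume (Metric.ball c (2 * ‖z - c‖))) (𝓝 c) (𝓝 0) := by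
      have h2 : ∀ z : ℂ, volume (Metric.ball c (2 * ‖z - c‖)) =
          ENNReal.ofReal (2 * ‖z - c‖) ^ 2 * NNReal.pi := fun z => Complex.volume_ball _ _
      simp only [h2]
      have h3 : Tendsto (fun z : ℂ => ENNReal.ofReal (2 * ‖z - c‖) ^ 2 * (NNReal.pi : ENNReal)) (𝓝 c)
          (𝓝 (ENNReal.ofReal (2 * ‖c - c‖) ^ 2 * (NNReal.pi : ENNReal))) := by
        apply ENNReal.Tendsto.mul_const
        · apply ENNReal.Tendsto.pow
          apply ENNReal.tendsto_ofReal
          have : Continuous (fun z : ℂ => 2 * ‖z - c‖) := by fun_prop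
          exact this.tendsto c
        · right; exact ENNReal.coe_ne_top
      simpa using h3
    exact tendsto_of_tendsto_of_tendsto_of_le_of_le tendsto_const_nhds h1 (fun _ => zero_le)
      (fun z => Measure.restrict_apply_le _ _)
  have hint := tendsto_setLIntegral_zero (μ := volume.restrict (Metric.ball c r))
    (f := fun z => ENNReal.ofReal (‖u z‖ ^ 2)) hL.ne hball
  have hη : (0 : ENNReal) < ENNReal.ofReal (Real.pi * (ε / 2) ^ 2 / 4) := by
    rw [ENNReal.ofReal_pos]; positivity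
  have e1 : ∀ᶠ z in 𝓝 c, ∫⁻ w in Metric.ball c (2 * ‖z - c‖), ENNReal.ofReal (‖u w‖ ^ 2)
      ∂(volume.restrict (Metric.ball c r)) < ENNReal.ofReal (Real.pi * (ε / 2) ^ 2 / 4) :=
    hint.eventually (gt_mem_nhds hη)
  have e2 : ∀ᶠ z in 𝓝 c, ‖z - c‖ < r / 2 := by
    have : Continuous (fun z : ℂ => ‖z - c‖) := by fun_prop
    have h := this.tendsto c
    rw [sub_self, norm_zero] at h
    exact h.eventually (gt_mem_nhds (by positivity))
  have e3 : ∀ᶠ z in 𝓝 c, ‖u c‖ * ‖z - c‖ < ε / 2 := by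
    have : Continuous (fun z : ℂ => ‖u c‖ * ‖z - c‖) := by fun_prop
    have h := this.tendsto c
    rw [sub_self, norm_zero, mul_zero] at h
    exact h.eventually (gt_mem_nhds (by positivity))
  have e4 : ∀ᶠ z in 𝓝[≠] c, z ≠ c := eventually_mem_nhdsWithin
  filter_upwards [e1.filter_mono nhdsWithin_le_nhds, e2.filter_mono nhdsWithin_le_nhds,
    e3.filter_mono nhdsWithin_le_nhds, e4] with z z1 z2 z3 z4
  have hz0 : 0 < ‖z - c‖ := norm_pos_iff.mpr (sub_ne_zero.mpr z4)
  have hsub1 : Metric.ball z (‖z - c‖ / 2) ⊆ Metric.ball c r \ {c} := by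
    intro w hw
    rw [Metric.mem_ball, dist_eq_norm] at hw
    constructor
    · rw [Metric.mem_ball, dist_eq_norm]
      calc ‖w - c‖ = ‖(w - z) + (z - c)‖ := by congr 1; ring
        _ ≤ ‖w - z‖ + ‖z - c‖ := norm_add_le _ _
        _ < r := by linarith
    · intro hwc
      rw [Set.mem_singleton_iff] at hwc
      rw [hwc, norm_sub_rev] at hw
      linarith
  have hsub2 : Metric.ball z (‖z - c‖ / 2) ⊆ Metric.ball c (2 * ‖z - c‖) := by
    intro w hw
    rw [Metric.mem_ball, dist_eq_norm] at hw ⊢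
    calc ‖w - c‖ = ‖(w - z) + (z - c)‖ := by congr 1; ring
      _ ≤ ‖w - z‖ + ‖z - c‖ := norm_add_le _ _
      _ < _ := by linarith
  have hm := removable_L2_mean (h := u) (s := z) (ρ := ‖z - c‖ / 2) (by positivity) (hd.mono hsub1)
  have hle : ∫⁻ w in Metric.ball z (‖z - c‖ / 2), ENNReal.ofReal (‖u w‖ ^ 2) ≤
      ∫⁻ w in Metric.ball c (2 * ‖z - c‖), ENNReal.ofReal (‖u w‖ ^ 2)
      ∂(volume.restrict (Metric.ball c r)) := by
    rw [Measure.restrict_restrict measurableSet_ball]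
    apply lintegral_mono_set
    exact fun w hw => ⟨hsub2 hw, (hsub1 hw).1⟩
  have hfin : ENNReal.ofReal (‖u z‖ ^ 2) ≤ ENNReal.ofReal ((ε / 2) ^ 2 / ‖z - c‖ ^ 2) := by
    calc ENNReal.ofReal (‖u z‖ ^ 2) ≤ ENNReal.ofReal (1 / (Real.pi * (‖z - c‖ / 2) ^ 2)) *
          ENNReal.ofReal (Real.pi * (ε / 2) ^ 2 / 4) := by
          refine hm.trans ?_
          gcongr
          exact hle.trans z1.le
      _ = _ := by
          rw [← ENNReal.ofReal_mul (by positivity)]
          congr 1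
          field_simp
          ring
  rw [ENNReal.ofReal_le_ofReal_iff (by positivity), ← div_pow] at hfin
  have hfin2 : ‖u z‖ ≤ ε / 2 / ‖z - c‖ := by
    exact (pow_le_pow_iff_left₀ (norm_nonneg _) (by positivity) two_ne_zero).mp hfin
  rw [norm_inv]
  have h5 : ‖u c‖ ≤ ε / 2 / ‖z - c‖ := by
    rw [le_div_iff₀ hz0]; exact z3.le
  calc ‖u z - u c‖ ≤ ‖u z‖ + ‖u c‖ := norm_sub_le _ _
    _ ≤ ε / 2 / ‖z - c‖ + ε / 2 / ‖z - c‖ := add_le_add hfin2 h5
    _ = ε * ‖z - c‖⁻¹ := by ring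

/-- G3 (`L²` mean value inequality with one puncture) -/
theorem mean_L2_punct {h : ℂ → ℂ} {s c : ℂ} {ρ : ℝ} (hρ : 0 < ρ) (hsc : s ≠ c)
    (hd : DifferentiableOn ℂ h (Metric.ball s ρ \ {c})) :
    ENNReal.ofReal (‖h s‖ ^ 2) ≤ ENNReal.ofReal (1 / (Real.pi * ρ ^ 2)) *
      ∫⁻ z in Metric.ball s ρ, ENNReal.ofReal (‖h z‖ ^ 2) := by
  have hpi := Real.pi_pos
  by_cases hc : c ∈ Metric.ball s ρ
  swap
  · rw [Set.sdiff_singleton_eq_self hc] at hd
    exact removable_L2_mean hρ hd
  by_cases hL : ∫⁻ z in Metric.ball s ρ, ENNReal.ofReal (‖h z‖ ^ 2) = ⊤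
  · rw [hL, ENNReal.mul_top]
    · exact le_top
    · rw [ENNReal.ofReal_ne_zero_iff]; positivity
  have hc' : ‖c - s‖ < ρ := by rwa [Metric.mem_ball, dist_eq_norm] at hc
  have hsub : Metric.ball c (ρ - ‖c - s‖) ⊆ Metric.ball s ρ := by
    intro w hw
    rw [Metric.mem_ball, dist_eq_norm] at hw ⊢
    calc ‖w - s‖ = ‖(w - c) + (c - s)‖ := by congr 1; ring
      _ ≤ ‖w - c‖ + ‖c - s‖ := norm_add_le _ _
      _ < _ := by linarith
  obtain ⟨v₀, hv1, hv2⟩ := removable_L2 (u := h) (c := c) (r := ρ - ‖c - s‖) (by linarith)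
    (hd.mono (Set.sdiff_subset_sdiff_left hsub))
    (lt_of_le_of_lt (lintegral_mono_set hsub) (lt_top_iff_ne_top.mpr hL))
  set v : ℂ → ℂ := Function.update h c (v₀ c) with hv
  have hvd : DifferentiableOn ℂ v (Metric.ball s ρ) := by
    intro z hz
    apply DifferentiableAt.differentiableWithinAt
    by_cases hzc : z = c
    · subst hzc
      have hnb : Metric.ball z (ρ - ‖z - s‖) ∈ 𝓝 z := Metric.ball_mem_nhds z (by linarith)
      have h1 : DifferentiableAt ℂ v₀ z := hv1.differentiableAt hnb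
      apply h1.congr_of_eventuallyEq
      filter_upwards [hnb] with w hw
      by_cases hwz : w = z
      · subst hwz; rw [hv, Function.update_self]
      · rw [hv, Function.update_of_ne hwz]
        exact (hv2 w ⟨hw, by simpa using hwz⟩).symm
    · have hopen : IsOpen (Metric.ball s ρ \ {c}) := Metric.isOpen_ball.sdiff isClosed_singleton
      have hnb : Metric.ball s ρ \ {c} ∈ 𝓝 z := hopen.mem_nhds ⟨hz, by simpa using hzc⟩
      have h1 : DifferentiableAt ℂ h z := hd.differentiableAt hnb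
      apply h1.congr_of_eventuallyEq
      filter_upwards [hnb] with w hw
      rw [hv, Function.update_of_ne (fun h => hw.2 (by simp [h]))]
  have hm := removable_L2_mean hρ hvd
  have h1 : v s = h s := by rw [hv, Function.update_of_ne hsc]
  have h2 : ∫⁻ z in Metric.ball s ρ, ENNReal.ofReal (‖v z‖ ^ 2) =
      ∫⁻ z in Metric.ball s ρ, ENNReal.ofReal (‖h z‖ ^ 2) := by
    apply lintegral_congr_ae
    apply ae_restrict_of_ae
    have h3 : ∀ᵐ z : ℂ ∂volume, z ≠ c := by
      rw [ae_iff]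
      simp
    filter_upwards [h3] with z hz
    rw [hv, Function.update_of_ne hz]
  rw [h1, h2] at hm
  exact hm

end Wg
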