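import Mathlib
import Pool.Agent.Helper620.WgDefs
import Pool.Agent.Helper620.Wg.G23

set_option autoImplicit false

open Complex MeasureTheory Set Filter Topology

namespace Wg


/-- G7 (removable sets of isolated singularities) -/
theorem removable_L2_set {U : Set ℂ} (hU : IsOpen U) {u : ℂ → ℂ}
    (h1 : ∀ z ∈ U, ∀ᶠ w in 𝓝[≠] z, DifferentiableAt ℂ u w)
    (h2 : ∀ z ∈ U, ∃ r > (0 : ℝ), ∫⁻ w in Metric.ball z r, ENNReal.ofReal (‖u w‖ ^ 2) < ⊤) :
    ∃ v : ℂ → ℂ, DifferentiableOn ℂ v U ∧ ∀ z ∈ U, DifferentiableAt ℂ u z → v z = u z := by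
  classical
  have key : ∀ z ∈ U, ∃ r > (0 : ℝ), ∃ w0 : ℂ → ℂ, DifferentiableOn ℂ w0 (Metric.ball z r) ∧
      ∀ z' ∈ Metric.ball z r, Tendsto u (𝓝[≠] z') (𝓝 (w0 z')) := by
    intro z hz
    have e1 := h1 z hz
    rw [eventually_nhdsWithin_iff, Metric.eventually_nhds_iff_ball] at e1
    obtain ⟨r1, hr1, hd1⟩ := e1
    obtain ⟨r2, hr2, hL⟩ := h2 z hz
    have hr : 0 < min r1 r2 := lt_min hr1 hr2
    obtain ⟨w0, hw0, hw1⟩ := removable_L2 (u := u) (c := z) hr
      (by
        intro w hw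
        exact (hd1 w (Metric.ball_subset_ball (min_le_left _ _) hw.1) hw.2).differentiableWithinAt)
      (lt_of_le_of_lt (lintegral_mono_set (Metric.ball_subset_ball (min_le_right _ _))) hL)
    refine ⟨min r1 r2, hr, w0, hw0, ?_⟩
    intro z' hz'
    have hcont : Tendsto w0 (𝓝[≠] z') (𝓝 (w0 z')) :=
      ((hw0.differentiableAt (Metric.isOpen_ball.mem_nhds hz')).continuousAt.tendsto).mono_left
        nhdsWithin_le_nhds
    refine hcont.congr' ?_
    by_cases hzz : z' = z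
    · subst hzz
      have hb : Metric.ball z' (min r1 r2) ∈ 𝓝[≠] z' :=
        mem_nhdsWithin_of_mem_nhds (Metric.ball_mem_nhds _ hr)
      filter_upwards [hb, self_mem_nhdsWithin] with w hwb hwn
      exact hw1 w ⟨hwb, hwn⟩
    · have hopen : IsOpen (Metric.ball z (min r1 r2) \ {z}) :=
        Metric.isOpen_ball.sdiff isClosed_singleton
      have hmem : Metric.ball z (min r1 r2) \ {z} ∈ 𝓝[≠] z' :=
        mem_nhdsWithin_of_mem_nhds (hopen.mem_nhds ⟨hz', hzz⟩)
      filter_upwards [hmem] with w hw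
      exact hw1 w hw
  refine ⟨fun z => limUnder (𝓝[≠] z) u, ?_, ?_⟩
  · intro z hz
    obtain ⟨r, hr, w0, hw0, hlim⟩ := key z hz
    have heq : ∀ᶠ z' in 𝓝 z, limUnder (𝓝[≠] z') u = w0 z' := by
      filter_upwards [Metric.ball_mem_nhds z hr] with z' hz'
      exact (hlim z' hz').limUnder_eq
    have hd : DifferentiableAt ℂ w0 z :=
      hw0.differentiableAt (Metric.isOpen_ball.mem_nhds (Metric.mem_ball_self hr))
    exact (hd.congr_of_eventuallyEq heq).differentiableWithinAt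
  · intro z hz hdz
    exact (hdz.continuousAt.tendsto.mono_left nhdsWithin_le_nhds).limUnder_eq

end Wg
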