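import Mathlib
import Pool.Agent.Helper620.WgDefs

set_option autoImplicit false

open Complex MeasureTheory Set Filter Topology

namespace Wg


theorem lintegral_image_cx_det (c : ℂ) :
    |((ContinuousLinearMap.smulRight (1 : ℂ →L[ℂ] ℂ) c).restrictScalars ℝ).det| = ‖c‖ ^ 2 := by
  have h1 : ((ContinuousLinearMap.smulRight (1 : ℂ →L[ℂ] ℂ) c).restrictScalars ℝ).det =
      Complex.normSq c := by
    have h2 : ((ContinuousLinearMap.smulRight (1 : ℂ →L[ℂ] ℂ) c).restrictScalars ℝ).det =
        LinearMap.det (Algebra.lmul ℝ ℂ c) := by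
      unfold ContinuousLinearMap.det
      congr 1
      ext z <;> simp [mul_comm]
    rw [h2]
    have h3 := Algebra.norm_complex_apply c
    rw [← h3, Algebra.norm_apply]
  rw [h1, abs_of_nonneg (Complex.normSq_nonneg c), Complex.normSq_eq_norm_sq]

/-- G1 (complex change of variables) -/
theorem lintegral_image_cx {s : Set ℂ} (hs : MeasurableSet s) {h h' : ℂ → ℂ}
    (hd : ∀ z ∈ s, HasDerivAt h (h' z) z) (hi : InjOn h s) (G : ℂ → ENNReal) :
    ∫⁻ w in h '' s, G w = ∫⁻ z in s, ENNReal.ofReal (‖h' z‖ ^ 2) * G (h z) := by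
  have h1 := MeasureTheory.lintegral_image_eq_lintegral_abs_det_fderiv_mul volume hs
    (f' := fun z => (ContinuousLinearMap.smulRight (1 : ℂ →L[ℂ] ℂ) (h' z)).restrictScalars ℝ)
    (fun z hz => ((hd z hz).hasFDerivAt.restrictScalars ℝ).hasFDerivWithinAt) hi G
  rw [h1]
  simp only [lintegral_image_cx_det]

end Wg
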