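import Mathlib
import Pool.Agent.Helper620.WgDefs
import Pool.Agent.Helper620.Wg.G1

set_option autoImplicit false

open Complex MeasureTheory Set Filter Topology

namespace Wg


theorem mult_two_lam_sep {l l' : ℂ} (hl : l ∈ Lam) (hl' : l' ∈ Lam) (h : ‖l - l'‖ < 1) : l = l' := by
  obtain ⟨m, n, rfl⟩ := hl
  obtain ⟨m', n', rfl⟩ := hl'
  have h1 := (Complex.abs_re_le_norm _).trans_lt h
  have h2 := (Complex.abs_im_le_norm _).trans_lt h
  have e1 : ((m : ℂ) + (n : ℂ) * I - ((m' : ℂ) + (n' : ℂ) * I)).re = ((m - m' : ℤ) : ℝ) := by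
    simp
  have e2 : ((m : ℂ) + (n : ℂ) * I - ((m' : ℂ) + (n' : ℂ) * I)).im = ((n - n' : ℤ) : ℝ) := by
    simp
  rw [e1] at h1
  rw [e2] at h2
  have h3 : |m - m'| < 1 := by exact_mod_cast h1
  have h4 : |n - n'| < 1 := by exact_mod_cast h2
  rw [Int.abs_lt_one_iff] at h3 h4
  have h5 : m = m' := by omega
  have h6 : n = n' := by omega
  rw [h5, h6]

theorem mult_two_lam_countable : (Lam : Set ℂ).Countable := by
  refine (Set.countable_range (fun p : ℤ × ℤ => (p.1 : ℂ) + (p.2 : ℂ) * I)).mono ?_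
  rintro z ⟨m, n, rfl⟩
  exact ⟨(m, n), rfl⟩

theorem mult_two_line (c : ℝ) : volume {z : ℂ | z.im = c} = 0 := by
  have h1 := Complex.volume_preserving_equiv_real_prod
  have h2 : {z : ℂ | z.im = c} = Complex.measurableEquivRealProd ⁻¹' (Set.univ ×ˢ {c}) := by
    ext z
    simp [Complex.measurableEquivRealProd]
  rw [h2, h1.measure_preimage_equiv, Measure.volume_eq_prod, Measure.prod_prod]
  simp

/-- M1: `℘` is at most two to one on discs of radius `1/4` -/
theorem mult_two (k : Kit) (z0 : ℂ) (J : ℂ → ENNReal) :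
    ∫⁻ z in Metric.ball z0 (1 / 4), ENNReal.ofReal (‖k.Pd z‖ ^ 2) * J (k.P z) ≤ 2 * ∫⁻ x, J x := by
  classical
  obtain ⟨l, hl⟩ : ∃ l : ℂ, ∀ l' ∈ Lam, ‖l' - 2 * z0‖ < 1 / 2 → l' = l := by
    by_cases h : ∃ l ∈ Lam, ‖l - 2 * z0‖ < 1 / 2
    · obtain ⟨l, hl1, hl2⟩ := h
      refine ⟨l, fun l' h1 h2 => mult_two_lam_sep h1 hl1 ?_⟩
      have e : l' - l = (l' - 2 * z0) - (l - 2 * z0) := by ring
      rw [e]
      have := norm_sub_le (l' - 2 * z0) (l - 2 * z0)
      linarith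
    · exact ⟨0, fun l' h1 h2 => absurd ⟨l', h1, h2⟩ h⟩
  -- injectivity
  have hinj : ∀ z ∈ Metric.ball z0 (1 / 4), ∀ z' ∈ Metric.ball z0 (1 / 4), z ∉ Lam → z' ∉ Lam →
      k.P z = k.P z' → z = z' ∨ z + z' = l := by
    intro z hz z' hz' hzL hzL' hP
    rw [Metric.mem_ball, dist_eq_norm] at hz hz'
    rcases k.P_inj z hzL z' hzL' hP with h | h
    · left
      have h1 : z - z' = 0 := by
        apply mult_two_lam_sep h Lam.zero_mem
        have e : z - z' - 0 = (z - z0) - (z' - z0) := by ring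
        rw [e]
        have := norm_sub_le (z - z0) (z' - z0)
        linarith
      exact sub_eq_zero.1 h1
    · right
      apply hl _ h
      have e : z + z' - 2 * z0 = (z - z0) + (z' - z0) := by ring
      rw [e]
      have := norm_add_le (z - z0) (z' - z0)
      linarith
  have hLm : MeasurableSet (Lam : Set ℂ) := mult_two_lam_countable.measurableSet
  obtain ⟨Hp, hHp⟩ : ∃ s : Set ℂ, s = (Metric.ball z0 (1 / 4) \ (Lam : Set ℂ)) ∩
    {z | 0 < (2 * z - l).im} := ⟨_, rfl⟩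
  obtain ⟨Hm, hHm⟩ : ∃ s : Set ℂ, s = (Metric.ball z0 (1 / 4) \ (Lam : Set ℂ)) ∩
    {z | (2 * z - l).im < 0} := ⟨_, rfl⟩
  have hmp : MeasurableSet Hp := by
    rw [hHp]
    refine (Metric.isOpen_ball.measurableSet.diff hLm).inter ?_
    exact (isOpen_lt continuous_const (by fun_prop)).measurableSet
  have hmm : MeasurableSet Hm := by
    rw [hHm]
    refine (Metric.isOpen_ball.measurableSet.diff hLm).inter ?_
    exact (isOpen_lt (by fun_prop) continuous_const).measurableSet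
  have hip : InjOn k.P Hp := by
    intro z hz z' hz' hP
    rw [hHp] at hz hz'
    obtain ⟨⟨hz1, hz2⟩, hz3⟩ := hz
    obtain ⟨⟨hz1', hz2'⟩, hz3'⟩ := hz'
    rcases hinj z hz1 z' hz1' hz2 hz2' hP with h | h
    · exact h
    · exfalso
      have h1 : 0 < (2 * z - l).im := hz3
      have h2 : 0 < (2 * z' - l).im := hz3'
      have e1 : 2 * z - l = z - z' := by rw [← h]; ring
      have e2 : 2 * z' - l = z' - z := by rw [← h]; ring
      rw [e1, Complex.sub_im] at h1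
      rw [e2, Complex.sub_im] at h2
      linarith
  have him : InjOn k.P Hm := by
    intro z hz z' hz' hP
    rw [hHm] at hz hz'
    obtain ⟨⟨hz1, hz2⟩, hz3⟩ := hz
    obtain ⟨⟨hz1', hz2'⟩, hz3'⟩ := hz'
    rcases hinj z hz1 z' hz1' hz2 hz2' hP with h | h
    · exact h
    · exfalso
      have h1 : (2 * z - l).im < 0 := hz3
      have h2 : (2 * z' - l).im < 0 := hz3'
      have e1 : 2 * z - l = z - z' := by rw [← h]; ring
      have e2 : 2 * z' - l = z' - z := by rw [← h]; ring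
      rw [e1, Complex.sub_im] at h1
      rw [e2, Complex.sub_im] at h2
      linarith
  have hdp : ∀ z ∈ Hp, HasDerivAt k.P (k.Pd z) z := by
    intro z hz
    rw [hHp] at hz
    exact k.hP z hz.1.2
  have hdm : ∀ z ∈ Hm, HasDerivAt k.P (k.Pd z) z := by
    intro z hz
    rw [hHm] at hz
    exact k.hP z hz.1.2
  have hIp : ∫⁻ z in Hp, ENNReal.ofReal (‖k.Pd z‖ ^ 2) * J (k.P z) ≤ ∫⁻ x, J x := by
    rw [← lintegral_image_cx hmp hdp hip J]
    exact setLIntegral_le_lintegral _ _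
  have hIm : ∫⁻ z in Hm, ENNReal.ofReal (‖k.Pd z‖ ^ 2) * J (k.P z) ≤ ∫⁻ x, J x := by
    rw [← lintegral_image_cx hmm hdm him J]
    exact setLIntegral_le_lintegral _ _
  have hN : volume ({z : ℂ | z.im = l.im / 2} ∪ (Lam : Set ℂ)) = 0 := by
    rw [measure_union_null_iff]
    exact ⟨mult_two_line _, mult_two_lam_countable.measure_zero _⟩
  have hcov : Metric.ball z0 (1 / 4) ⊆ Hp ∪ (Hm ∪ ({z : ℂ | z.im = l.im / 2} ∪ (Lam : Set ℂ))) := by
    intro z hz
    by_cases hzL : z ∈ (Lam : Set ℂ)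
    · exact Or.inr (Or.inr (Or.inr hzL))
    · rcases lt_trichotomy (2 * z - l).im 0 with h | h | h
      · right; left
        rw [hHm]
        exact ⟨⟨hz, hzL⟩, h⟩
      · right; right; left
        show z.im = l.im / 2
        have : (2 * z - l).im = 2 * z.im - l.im := by simp
        rw [this] at h
        linarith
      · left
        rw [hHp]
        exact ⟨⟨hz, hzL⟩, h⟩
  calc ∫⁻ z in Metric.ball z0 (1 / 4), ENNReal.ofReal (‖k.Pd z‖ ^ 2) * J (k.P z)
      ≤ ∫⁻ z in Hp ∪ (Hm ∪ ({z : ℂ | z.im = l.im / 2} ∪ (Lam : Set ℂ))),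
        ENNReal.ofReal (‖k.Pd z‖ ^ 2) * J (k.P z) := lintegral_mono_set hcov
    _ ≤ (∫⁻ z in Hp, ENNReal.ofReal (‖k.Pd z‖ ^ 2) * J (k.P z)) +
        ((∫⁻ z in Hm, ENNReal.ofReal (‖k.Pd z‖ ^ 2) * J (k.P z)) +
        ∫⁻ z in ({z : ℂ | z.im = l.im / 2} ∪ (Lam : Set ℂ)),
          ENNReal.ofReal (‖k.Pd z‖ ^ 2) * J (k.P z)) := by
        refine (lintegral_union_le _ _ _).trans ?_
        gcongr
        exact lintegral_union_le _ _ _
    _ ≤ (∫⁻ x, J x) + ((∫⁻ x, J x) + 0) := by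
        rw [setLIntegral_measure_zero _ _ hN]
        gcongr
    _ = 2 * ∫⁻ x, J x := by rw [add_zero, two_mul]

end Wg
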