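import Mathlib
import Pool.Agent.Helper620.WgDefs
import Pool.Agent.Helper620.Wg.D14
import Pool.Agent.Helper620.Wg.G1

set_option autoImplicit false

open Complex MeasureTheory Set Filter Topology

namespace Wg


theorem fibre_cov_meas (k : Kit) (z : ℂ) : MeasurableSet (An \ {- k.g z}) := by
  have h1 : MeasurableSet An := by
    have e : An = {s : ℂ | 1 / 2 < ‖s‖} ∩ {s : ℂ | ‖s‖ < 2} := rfl
    rw [e]
    exact (measurableSet_lt measurable_const measurable_norm).inter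
      (measurableSet_lt measurable_norm measurable_const)
  exact h1.diff (measurableSet_singleton _)

theorem fibre_cov_ne (k : Kit) {z s : ℂ} (hs : s ∈ An \ {- k.g z}) : s + k.g z ≠ 0 := by
  intro h
  exact hs.2 (by rw [Set.mem_singleton_iff]; exact eq_neg_of_add_eq_zero_left h)

theorem fibre_cov_ne0 {s : ℂ} (hs : s ∈ An) : s ≠ 0 := by
  rintro rfl
  have := hs.1
  rw [norm_zero] at this
  norm_num at this

theorem fibre_cov_deriv (k : Kit) {z s : ℂ} (h : s + k.g z ≠ 0) :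
    HasDerivAt (psi k z) (2 * k.Pd z * k.g z / (s + k.g z) ^ 2) s := by
  have h1 : HasDerivAt (fun s : ℂ => k.Pd z * (s - k.g z)) (k.Pd z) s := by
    have := ((hasDerivAt_id s).sub_const (k.g z)).const_mul (k.Pd z)
    simpa using this
  have h2 : HasDerivAt (fun s : ℂ => s + k.g z) 1 s := (hasDerivAt_id s).add_const (k.g z)
  have h3 := h1.div h2 h
  have e : (k.Pd z * (s + k.g z) - k.Pd z * (s - k.g z) * 1) / (s + k.g z) ^ 2 =
      2 * k.Pd z * k.g z / (s + k.g z) ^ 2 := by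
    congr 1
    ring
  rw [e] at h3
  exact h3

/-- M2: change of variables in the fibre -/
theorem fibre_cov (k : Kit) {z : ℂ} (hz : 2 * z ∉ Lam) (G : ℂ → ENNReal) :
    ∫⁻ y in {y | (k.P z, y) ∈ Om k}, G y =
      ∫⁻ s in An \ {- k.g z}, ENNReal.ofReal (‖2 * k.Pd z * k.g z / (s + k.g z) ^ 2‖ ^ 2) *
        G (psi k z s) := by
  have himg : {y | (k.P z, y) ∈ Om k} = psi k z '' (An \ {- k.g z}) := by
    ext y
    constructor
    · intro hy
      obtain ⟨_, h2, h3, h4⟩ := exists_psi k (notMem_of_two hz) hy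
      refine ⟨E k z y, ⟨h2, ?_⟩, h4⟩
      intro h5
      rw [Set.mem_singleton_iff] at h5
      apply h3
      rw [h5]
      ring
    · rintro ⟨s, hs, rfl⟩
      exact psi_mem k hz hs.1 (fibre_cov_ne k hs)
  rw [himg]
  apply lintegral_image_cx (fibre_cov_meas k z)
  · intro s hs
    exact fibre_cov_deriv k (fibre_cov_ne k hs)
  · intro s hs s' hs' h
    have h1 := (psi_spec k hz (fibre_cov_ne0 hs.1) (fibre_cov_ne k hs)).1
    have h2 := (psi_spec k hz (fibre_cov_ne0 hs'.1) (fibre_cov_ne k hs')).1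
    rw [← h1, ← h2, h]

/-- M3 -/
theorem fibre_ineq (k : Kit) (F : ℂ × ℂ → ℂ) {z : ℂ} (hz : 2 * z ∉ Lam) :
    ∫⁻ s in An, ENNReal.ofReal (‖HH k F z s‖ ^ 2) ≤
      16 * ENNReal.ofReal (‖k.Pd z‖ ^ 2) *
        ∫⁻ y in {y | (k.P z, y) ∈ Om k}, ENNReal.ofReal (‖F (k.P z, y)‖ ^ 2) := by
  rw [fibre_cov k hz]
  have h1 : ∫⁻ s in An, ENNReal.ofReal (‖HH k F z s‖ ^ 2) =
      ∫⁻ s in An \ {- k.g z}, ENNReal.ofReal (‖HH k F z s‖ ^ 2) := by
    apply setLIntegral_congr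
    exact (diff_null_ae_eq_self (measure_singleton _)).symm
  rw [h1, ← lintegral_const_mul' _ _ (ENNReal.mul_ne_top (by norm_num) ENNReal.ofReal_ne_top)]
  apply setLIntegral_mono' (fibre_cov_meas k z)
  intro s hs
  have h16 : (16 : ENNReal) = ENNReal.ofReal 16 := by norm_num
  rw [h16, ← ENNReal.ofReal_mul (by positivity), ← ENNReal.ofReal_mul (by positivity),
    ← ENNReal.ofReal_mul (by positivity)]
  apply ENNReal.ofReal_le_ofReal
  have h2 : HH k F z s = F (k.P z, psi k z s) * (2 * k.Pd z * k.g z / (s + k.g z) ^ 2) *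
      (2 * s * k.Pd z) := by
    unfold HH
    ring
  rw [h2, norm_mul, norm_mul, mul_pow, mul_pow]
  have h3 : ‖2 * s * k.Pd z‖ ^ 2 ≤ 16 * ‖k.Pd z‖ ^ 2 := by
    rw [norm_mul, norm_mul, Complex.norm_ofNat]
    have h4 := hs.1.2
    have h5 := norm_nonneg s
    have h6 : (2 * ‖s‖ * ‖k.Pd z‖) ^ 2 = 4 * ‖s‖ ^ 2 * ‖k.Pd z‖ ^ 2 := by ring
    rw [h6]
    have h7 : ‖s‖ ^ 2 ≤ 4 := by nlinarith
    have h8 : 0 ≤ ‖k.Pd z‖ ^ 2 := by positivity
    nlinarith
  calc ‖F (k.P z, psi k z s)‖ ^ 2 * ‖2 * k.Pd z * k.g z / (s + k.g z) ^ 2‖ ^ 2 *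
        ‖2 * s * k.Pd z‖ ^ 2
      ≤ ‖F (k.P z, psi k z s)‖ ^ 2 * ‖2 * k.Pd z * k.g z / (s + k.g z) ^ 2‖ ^ 2 *
        (16 * ‖k.Pd z‖ ^ 2) := by gcongr
    _ = 16 * ‖k.Pd z‖ ^ 2 * (‖2 * k.Pd z * k.g z / (s + k.g z) ^ 2‖ ^ 2 *
        ‖F (k.P z, psi k z s)‖ ^ 2) := by ring

end Wg
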