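import Mathlib
import Pool.Agent.Helper620.WgDefs
import Pool.Agent.Helper620.Wg.D14
import Pool.Agent.Helper620.Wg.D56
import Pool.Agent.Helper620.Wg.M4

set_option autoImplicit false

open Complex MeasureTheory Set Filter Topology

namespace Wg

theorem one_mem_Lam : (1 : ℂ) ∈ Lam := ⟨1, 0, by simp⟩
theorem two_mem_Lam : (2 : ℂ) ∈ Lam := ⟨2, 0, by simp⟩

theorem mem_Lam_re {z : ℂ} (h : z ∈ Lam) : ∃ m n : ℤ, z.re = m ∧ z.im = n := by
  obtain ⟨m, n, rfl⟩ := h
  exact ⟨m, n, by simp, by simp⟩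

theorem zq : 2 * ((1 / 4 : ℝ) : ℂ) ∉ Lam := by
  intro h
  obtain ⟨m, n, h1, h2⟩ := mem_Lam_re h
  have h3 : (2 * ((1 / 4 : ℝ) : ℂ)).re = 1 / 2 := by
    rw [show (2 * ((1 / 4 : ℝ) : ℂ)) = ((1 / 2 : ℝ) : ℂ) by push_cast; ring, ofReal_re]
  rw [h3] at h1
  have h4 : (2 : ℝ) * m = 1 := by linarith
  have h5 : (2 : ℤ) * m = 1 := by exact_mod_cast h4
  omega

theorem two_mul_add_one_notMem {z : ℂ} (h : 2 * z ∉ Lam) : 2 * (z + 1) ∉ Lam := by
  intro h'
  apply h
  have := Lam.sub_mem h' two_mem_Lam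
  have e : 2 * (z + 1) - 2 = 2 * z := by ring
  rwa [e] at this

theorem exp_I_ne_one : exp I ≠ 1 := by
  intro h
  rw [exp_eq_one_iff] at h
  obtain ⟨n, hn⟩ := h
  have h1 : (1 : ℂ) = n * (2 * Real.pi) := by
    have h2 : (1 : ℂ) * I = (n * (2 * Real.pi)) * I := by
      linear_combination hn
    exact mul_right_cancel₀ I_ne_zero h2
  have h3 : (1 : ℝ) = n * (2 * Real.pi) := by exact_mod_cast h1
  have hpi := Real.pi_gt_three
  rcases lt_trichotomy n 0 with hn0 | hn0 | hn0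
  · have : (n : ℝ) ≤ -1 := by exact_mod_cast (by omega : n ≤ -1)
    nlinarith
  · rw [hn0] at h3; norm_num at h3
  · have : (1 : ℝ) ≤ n := by exact_mod_cast (by omega : 1 ≤ n)
    nlinarith

theorem norm_exp_I : ‖exp I‖ = 1 := by
  have := norm_exp_ofReal_mul_I 1
  simpa using this

theorem An_ne_zero {s : ℂ} (hs : s ∈ An) : s ≠ 0 := by
  rintro rfl
  have := hs.1
  norm_num at this

theorem exp_I_mul_mem {s : ℂ} (hs : s ∈ An) : exp I * s ∈ An := by
  have : ‖exp I * s‖ = ‖s‖ := by rw [norm_mul, norm_exp_I, one_mul]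
  refine ⟨?_, ?_⟩
  · rw [this]; exact hs.1
  · rw [this]; exact hs.2

/-- for every `s` there is an admissible `z` -/
theorem exists_good (k : Kit) (s : ℂ) : ∃ z, 2 * z ∉ Lam ∧ s + k.g z ≠ 0 := by
  by_cases h : s + k.g ((1 / 4 : ℝ) : ℂ) = 0
  · refine ⟨((1 / 4 : ℝ) : ℂ) + 1, two_mul_add_one_notMem zq, ?_⟩
    rw [k.g_one _ (notMem_of_two zq)]
    intro h2
    have h3 : (exp I - 1) * k.g ((1 / 4 : ℝ) : ℂ) = 0 := by linear_combination h2 - h
    rcases mul_eq_zero.1 h3 with h4 | h4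
    · exact exp_I_ne_one (sub_eq_zero.1 h4)
    · exact k.g_ne _ h4
  · exact ⟨_, zq, h⟩

theorem isOpen_An : IsOpen An := by
  apply IsOpen.inter
  · exact isOpen_lt continuous_const continuous_norm
  · exact isOpen_lt continuous_norm continuous_const

theorem HH_shift (k : Kit) (F : ℂ × ℂ → ℂ) {z s : ℂ} (hz : z ∉ Lam) :
    HH k F (z + 1) (exp I * s) = HH k F z s := by
  have h1 : k.P (z + 1) = k.P z := k.P_add 1 one_mem_Lam z
  have h2 : k.Pd (z + 1) = k.Pd z := k.Pd_add 1 one_mem_Lam z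
  have h3 := k.g_one z hz
  have he : exp I ≠ 0 := exp_ne_zero _
  have hpsi : psi k (z + 1) (exp I * s) = psi k z s := by
    unfold psi
    rw [h2, h3]
    rw [show exp I * s - exp I * k.g z = exp I * (s - k.g z) by ring,
      show exp I * s + exp I * k.g z = exp I * (s + k.g z) by ring]
    rw [show k.Pd z * (exp I * (s - k.g z)) = exp I * (k.Pd z * (s - k.g z)) by ring]
    rw [mul_div_mul_left _ _ he]
  unfold HH
  rw [hpsi, h1, h2, h3]
  congr 1
  rw [show exp I * s + exp I * k.g z = exp I * (s + k.g z) by ring, mul_pow,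
    show 4 * (exp I * s) * (exp I * k.g z) * k.Pd z ^ 2 = exp I ^ 2 * (4 * s * k.g z * k.Pd z ^ 2) by
      ring]
  rw [mul_div_mul_left _ _ (pow_ne_zero 2 he)]

end Wg
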