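import Mathlib
import Pool.Agent.Helper620.WgDefs
import Pool.Agent.Helper620.Wg.D14
import Pool.Agent.Helper620.Wg.D56
import Pool.Agent.Helper620.Wg.G23
import Pool.Agent.Helper620.Wg.G7
import Pool.Agent.Helper620.Wg.M1
import Pool.Agent.Helper620.Wg.M23
import Pool.Agent.Helper620.Wg.M4
import Pool.Agent.Helper620.Wg.M6a

set_option autoImplicit false

open Complex MeasureTheory Set Filter Topology

namespace Wg

theorem Lam_eq_of_close {a b : ℂ} (ha : a ∈ Lam) (hb : b ∈ Lam) (h : ‖a - b‖ < 1) : a = b := by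
  obtain ⟨m, n, hm, hn⟩ : ∃ m n : ℤ, (a - b).re = m ∧ (a - b).im = n := by
    obtain ⟨m, n, e⟩ := Lam.sub_mem ha hb
    exact ⟨m, n, by rw [e]; simp, by rw [e]; simp⟩
  have h1 : |(a - b).re| < 1 := lt_of_le_of_lt (abs_re_le_norm _) h
  have h2 : |(a - b).im| < 1 := lt_of_le_of_lt (abs_im_le_norm _) h
  rw [hm] at h1
  rw [hn] at h2
  have h1' : |m| < 1 := by exact_mod_cast h1
  have h2' : |n| < 1 := by exact_mod_cast h2
  have hm0 : m = 0 := Int.abs_lt_one_iff.1 h1'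
  have hn0 : n = 0 := Int.abs_lt_one_iff.1 h2'
  apply sub_eq_zero.1
  apply Complex.ext
  · rw [hm, hm0]; simp
  · rw [hn, hn0]; simp

/-- near every point, off the point itself, `2 z ∉ Λ` -/
theorem ev_two_notMem (z0 : ℂ) : ∀ᶠ w in 𝓝[≠] z0, 2 * w ∉ Lam := by
  by_cases h : ∃ w1, w1 ≠ z0 ∧ 2 * w1 ∈ Lam ∧ ‖w1 - z0‖ < 1 / 4
  · obtain ⟨w1, h1, h2, h3⟩ := h
    have hpos : 0 < ‖w1 - z0‖ := norm_pos_iff.2 (sub_ne_zero.2 h1)
    have hb : Metric.ball z0 ‖w1 - z0‖ ∈ 𝓝[≠] z0 :=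
      mem_nhdsWithin_of_mem_nhds (Metric.ball_mem_nhds _ hpos)
    filter_upwards [hb] with w hw hwL
    rw [Metric.mem_ball, dist_eq_norm] at hw
    have h4 : 2 * w = 2 * w1 := by
      apply Lam_eq_of_close hwL h2
      rw [← mul_sub, norm_mul]
      have : ‖w - w1‖ ≤ ‖w - z0‖ + ‖w1 - z0‖ := by
        have := norm_sub_le (w - z0) (w1 - z0)
        simpa using this
      rw [Complex.norm_two]
      linarith
    have h5 : w = w1 := mul_left_cancel₀ two_ne_zero h4
    rw [h5] at hw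
    exact lt_irrefl _ hw
  · push Not at h
    have hb : Metric.ball z0 (1 / 4) ∈ 𝓝[≠] z0 :=
      mem_nhdsWithin_of_mem_nhds (Metric.ball_mem_nhds _ (by norm_num))
    filter_upwards [hb, self_mem_nhdsWithin] with w hw hwn hwL
    rw [Metric.mem_ball, dist_eq_norm] at hw
    exact absurd hw (not_lt.2 (h w hwn hwL))

theorem ev_notMem (z0 : ℂ) : ∀ᶠ w in 𝓝[≠] z0, w ∉ Lam :=
  (ev_two_notMem z0).mono fun _ h => notMem_of_two h

theorem isClosed_Lam' : IsClosed (Lam : Set ℂ) := by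
  rw [← isOpen_compl_iff, isOpen_iff_mem_nhds]
  intro z hz
  have := ev_notMem z
  rw [eventually_nhdsWithin_iff] at this
  filter_upwards [this] with w hw
  by_cases h : w = z
  · rw [h]; exact hz
  · exact hw h

theorem countable_Lam : (Lam : Set ℂ).Countable := by
  have : (Lam : Set ℂ) = Set.range (fun p : ℤ × ℤ => (p.1 : ℂ) + (p.2 : ℂ) * I) := by
    ext z; constructor
    · rintro ⟨m, n, rfl⟩; exact ⟨(m, n), rfl⟩
    · rintro ⟨⟨m, n⟩, rfl⟩; exact ⟨m, n, rfl⟩
  rw [this]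
  exact Set.countable_range _

theorem isPreconnected_Lamc : IsPreconnected ((Lam : Set ℂ)ᶜ) :=
  (countable_Lam.isConnected_compl_of_one_lt_rank (by
    rw [Complex.rank_real_complex]; norm_num)).isPreconnected

/-- zeros of `s + g` are isolated -/
theorem ev_g_ne (k : Kit) {s : ℂ} (hs : s ≠ 0) {z0 : ℂ} (hz0 : z0 ∉ Lam) :
    ∀ᶠ w in 𝓝[≠] z0, s + k.g w ≠ 0 := by
  have hopen : IsOpen ((Lam : Set ℂ)ᶜ) := isClosed_Lam'.isOpen_compl
  have ha : AnalyticOnNhd ℂ (fun w => s + k.g w) ((Lam : Set ℂ)ᶜ) :=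
    (((differentiableOn_const s).add k.hg)).analyticOnNhd hopen
  by_contra hcon
  have hfreq : ∃ᶠ w in 𝓝[≠] z0, s + k.g w = 0 := by
    intro h
    exact hcon (h.mono fun _ hw => hw)
  have heq := ha.eqOn_zero_of_preconnected_of_frequently_eq_zero isPreconnected_Lamc hz0 hfreq
  obtain ⟨z, hz, hg⟩ := exists_good k s
  exact hg (heq (notMem_of_two hz))

theorem null_of_ev {N : Set ℂ} (h : ∀ z ∈ N, ∀ᶠ w in 𝓝[≠] z, w ∉ N) : volume N = 0 := by
  apply MeasureTheory.measure_null_of_locally_null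
  intro z hz
  have h1 := h z hz
  rw [eventually_nhdsWithin_iff] at h1
  refine ⟨{z}, ?_, by simp⟩
  rw [mem_nhdsWithin_iff_eventually]
  filter_upwards [h1] with w hw hwN
  by_contra hne
  exact hw hne hwN

/-- the bad set is null -/
theorem null_bad (k : Kit) {s : ℂ} (hs : s ≠ 0) :
    volume {z | 2 * z ∈ Lam ∨ s + k.g z = 0} = 0 := by
  have h1 : volume (Lam : Set ℂ) = 0 := countable_Lam.measure_zero _
  have h2 : volume ({z | 2 * z ∈ Lam ∨ s + k.g z = 0} \ (Lam : Set ℂ)) = 0 := by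
    apply null_of_ev
    rintro z ⟨_, hz⟩
    filter_upwards [ev_two_notMem z, ev_g_ne k hs hz] with w h3 h4 h5
    rcases h5.1 with h6 | h6
    · exact h3 h6
    · exact h4 h6
  refine measure_mono_null (t := ({z | 2 * z ∈ Lam ∨ s + k.g z = 0} \ (Lam : Set ℂ)) ∪ (Lam : Set ℂ))
    ?_ (measure_union_null h2 h1)
  intro z hz
  by_cases h : z ∈ Lam
  · exact Or.inr h
  · exact Or.inl ⟨hz, h⟩

/-- the fibre integral -/
noncomputable def JJ (k : Kit) (F : ℂ × ℂ → ℂ) (x : ℂ) : ENNReal :=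
  ∫⁻ y in {y | (x, y) ∈ Om k}, ENNReal.ofReal (‖F (x, y)‖ ^ 2)

theorem JJ_lint (k : Kit) {F : ℂ × ℂ → ℂ} (hF : DifferentiableOn ℂ F (Om k)) :
    ∫⁻ x, JJ k F x = ∫⁻ p in Om k, ENNReal.ofReal (‖F p‖ ^ 2) := by
  have hO := (isOpen_Om k).measurableSet
  have hm : Measurable ((Om k).indicator fun p => ENNReal.ofReal (‖F p‖ ^ 2)) := by
    have h1 : Measurable ((Om k).indicator F) := by
      classical
      rw [show (Om k).indicator F = (Om k).piecewise F (fun _ => 0) from by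
        ext p; simp [Set.indicator, Set.piecewise]]
      exact ContinuousOn.measurable_piecewise hF.continuousOn continuousOn_const hO
    have h2 : ((Om k).indicator fun p => ENNReal.ofReal (‖F p‖ ^ 2)) =
        fun p => ENNReal.ofReal (‖(Om k).indicator F p‖ ^ 2) := by
      ext p
      by_cases hp : p ∈ Om k
      · simp [hp]
      · simp [hp]
    rw [h2]
    exact (h1.norm.pow_const 2).ennreal_ofReal
  rw [← lintegral_indicator hO, Measure.volume_eq_prod, lintegral_prod _ hm.aemeasurable]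
  congr 1
  ext x
  unfold JJ
  have hO2 : MeasurableSet {y | (x, y) ∈ Om k} := measurable_prodMk_left hO
  rw [← lintegral_indicator hO2]
  congr 1

/-- M5 pointwise bound -/
theorem HH_bound (k : Kit) {F : ℂ × ℂ → ℂ} (hF : DifferentiableOn ℂ F (Om k)) {s : ℂ} {ρ : ℝ}
    (hρ : 0 < ρ) (hb : Metric.ball s ρ ⊆ An) (hs : s ∈ An) {z : ℂ} (hz : 2 * z ∉ Lam)
    (hg : s + k.g z ≠ 0) :
    ENNReal.ofReal (‖HH k F z s‖ ^ 2) ≤ ENNReal.ofReal (1 / (Real.pi * ρ ^ 2)) * 16 *
      (ENNReal.ofReal (‖k.Pd z‖ ^ 2) * JJ k F (k.P z)) := by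
  have hne : s ≠ - k.g z := by
    intro h; apply hg; rw [h]; ring
  have h1 := mean_L2_punct (h := fun s => HH k F z s) hρ hne (by
    intro s' hs'
    refine (HH_diff_z k hF hz (hb hs'.1) ?_).2.differentiableWithinAt
    intro h0
    apply hs'.2
    rw [Set.mem_singleton_iff]
    linear_combination h0)
  refine h1.trans ?_
  have h2 : ∫⁻ s' in Metric.ball s ρ, ENNReal.ofReal (‖HH k F z s'‖ ^ 2) ≤
      16 * ENNReal.ofReal (‖k.Pd z‖ ^ 2) * JJ k F (k.P z) :=
    (lintegral_mono_set hb).trans (fibre_ineq k F hz)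
  calc _ ≤ ENNReal.ofReal (1 / (Real.pi * ρ ^ 2)) *
        (16 * ENNReal.ofReal (‖k.Pd z‖ ^ 2) * JJ k F (k.P z)) := by gcongr
    _ = _ := by ring

theorem HH_liouville' (k : Kit) {F : ℂ × ℂ → ℂ} (hF : DifferentiableOn ℂ F (Om k))
    (hL : ∫⁻ p in Om k, ENNReal.ofReal (‖F p‖ ^ 2) < ⊤) :
    ∃ h : ℂ → ℂ, ∀ s ∈ An, ∀ z, 2 * z ∉ Lam → s + k.g z ≠ 0 → HH k F z s = h s := by
  have key : ∀ s ∈ An, ∃ c : ℂ, ∀ z, 2 * z ∉ Lam → s + k.g z ≠ 0 → HH k F z s = c := by
    intro s hs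
    have hs0 : s ≠ 0 := An_ne_zero hs
    obtain ⟨ρ, hρ, hb⟩ := Metric.isOpen_iff.1 isOpen_An s hs
    have hJ : ∫⁻ x, JJ k F x < ⊤ := by rw [JJ_lint k hF]; exact hL
    set C : ENNReal := ENNReal.ofReal (1 / (Real.pi * ρ ^ 2)) * 16 with hC
    have hCtop : C ≠ ⊤ := ENNReal.mul_ne_top ENNReal.ofReal_ne_top (by norm_num)
    set M : ENNReal := C * (2 * ∫⁻ x, JJ k F x) with hM
    have hMtop : M < ⊤ := ENNReal.mul_lt_top hCtop.lt_top (ENNReal.mul_lt_top (by norm_num) hJ)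
    -- integral bound
    have hint : ∀ (v : ℂ → ℂ), (∀ z, 2 * z ∉ Lam → s + k.g z ≠ 0 → v z = HH k F z s) →
        ∀ z0 : ℂ, ∫⁻ z in Metric.ball z0 (1 / 4), ENNReal.ofReal (‖v z‖ ^ 2) ≤ M := by
      intro v hv z0
      calc ∫⁻ z in Metric.ball z0 (1 / 4), ENNReal.ofReal (‖v z‖ ^ 2)
          ≤ ∫⁻ z in Metric.ball z0 (1 / 4), C * (ENNReal.ofReal (‖k.Pd z‖ ^ 2) * JJ k F (k.P z)) := by
            apply lintegral_mono_ae
            apply ae_restrict_of_ae
            have hnull := null_bad k hs0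
            rw [← compl_compl {z | 2 * z ∈ Lam ∨ s + k.g z = 0}, ← mem_ae_iff] at hnull
            filter_upwards [hnull] with z hz
            simp only [Set.mem_compl_iff, Set.mem_setOf_eq, not_or] at hz
            rw [hv z hz.1 hz.2]
            exact HH_bound k hF hρ hb hs hz.1 hz.2
        _ = C * ∫⁻ z in Metric.ball z0 (1 / 4), (ENNReal.ofReal (‖k.Pd z‖ ^ 2) * JJ k F (k.P z)) :=
            lintegral_const_mul' _ _ hCtop
        _ ≤ M := by
            rw [hM]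
            gcongr
            exact mult_two k z0 _
    -- first extension
    have hu_diff : ∀ z, 2 * z ∉ Lam → s + k.g z ≠ 0 →
        DifferentiableAt ℂ (fun z => HH k F z s) z := fun z h1 h2 => (HH_diff_z k hF h1 hs h2).1
    obtain ⟨v, hvd, hvu⟩ := removable_L2_set (U := ((Lam : Set ℂ)ᶜ)) isClosed_Lam'.isOpen_compl
      (u := fun z => HH k F z s)
      (by
        intro z hz
        filter_upwards [ev_two_notMem z, ev_g_ne k hs0 hz] with w h1 h2
        exact hu_diff w h1 h2)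
      (by
        intro z _
        exact ⟨1 / 4, by norm_num, lt_of_le_of_lt (hint _ (fun _ _ _ => rfl) z) hMtop⟩)
    have hv1 : ∀ z, 2 * z ∉ Lam → s + k.g z ≠ 0 → v z = HH k F z s := fun z h1 h2 =>
      hvu z (notMem_of_two h1) (hu_diff z h1 h2)
    obtain ⟨V, hVd, hVv⟩ := removable_L2_set (U := Set.univ) isOpen_univ (u := v)
      (by
        intro z _
        filter_upwards [ev_notMem z] with w hw
        exact hvd.differentiableAt (isClosed_Lam'.isOpen_compl.mem_nhds hw))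
      (by
        intro z _
        exact ⟨1 / 4, by norm_num, lt_of_le_of_lt (hint _ hv1 z) hMtop⟩)
    have hV1 : ∀ z, 2 * z ∉ Lam → s + k.g z ≠ 0 → V z = HH k F z s := by
      intro z h1 h2
      rw [← hv1 z h1 h2]
      exact hVv z (Set.mem_univ _)
        (hvd.differentiableAt (isClosed_Lam'.isOpen_compl.mem_nhds (notMem_of_two h1)))
    have hVdiff : Differentiable ℂ V := fun z => (hVd z (Set.mem_univ _)).differentiableAt univ_mem
    -- boundedness
    set B : ENNReal := ENNReal.ofReal (1 / (Real.pi * (1 / 4) ^ 2)) * M with hB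
    have hBtop : B < ⊤ := ENNReal.mul_lt_top ENNReal.ofReal_lt_top hMtop
    have hbd : ∀ z, ‖V z‖ ^ 2 ≤ B.toReal := by
      intro z
      have h1 := mean_L2_punct (h := V) (s := z) (c := z + 1) (ρ := 1 / 4) (by norm_num)
        (by intro h; simpa using h.symm)
        (hVdiff.differentiableOn)
      have h2 : ENNReal.ofReal (‖V z‖ ^ 2) ≤ B := by
        refine h1.trans ?_
        rw [hB]
        gcongr
        exact hint V hV1 z
      exact (ENNReal.ofReal_le_iff_le_toReal hBtop.ne).1 h2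
    have hbounded : Bornology.IsBounded (Set.range V) := by
      rw [isBounded_iff_forall_norm_le]
      refine ⟨Real.sqrt B.toReal, ?_⟩
      rintro _ ⟨z, rfl⟩
      exact Real.le_sqrt_of_sq_le (hbd z)
    refine ⟨V 0, ?_⟩
    intro z h1 h2
    rw [← hV1 z h1 h2]
    exact hVdiff.apply_eq_apply_of_bounded hbounded z 0
  choose! h hh using key
  exact ⟨h, fun s hs z h1 h2 => hh s hs z h1 h2⟩

end Wg
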