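import Mathlib
import Pool.Agent.Helper620.WgDefs
import Pool.Agent.Helper620.Wg.D14
import Pool.Agent.Helper620.Wg.D56
import Pool.Agent.Helper620.Wg.G5
import Pool.Agent.Helper620.Wg.M4
import Pool.Agent.Helper620.Wg.M6a
import Pool.Agent.Helper620.Wg.M5

set_option autoImplicit false

open Complex MeasureTheory Set Filter Topology

namespace Wg

theorem bergman_one' (k : Kit) {F : ℂ × ℂ → ℂ} (hF : DifferentiableOn ℂ F (Om k))
    (hL : ∫⁻ p in Om k, ENNReal.ofReal (‖F p‖ ^ 2) < ⊤) :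
    ∃ c : ℂ, ∀ p ∈ Om k, F p = c * (q k p.1 - p.2 ^ 2)⁻¹ := by
  obtain ⟨h, hh⟩ := HH_liouville' k hF hL
  have hd : DifferentiableOn ℂ h An := by
    intro s hs
    obtain ⟨z, hz, hg⟩ := exists_good k s
    have h1 : DifferentiableAt ℂ (fun s => HH k F z s) s := (HH_diff_z k hF hz hs hg).2
    have h2 : h =ᶠ[𝓝 s] fun s => HH k F z s := by
      have h3 : ∀ᶠ s' in 𝓝 s, s' + k.g z ≠ 0 :=
        (by fun_prop : ContinuousAt (fun s' : ℂ => s' + k.g z) s).eventually_ne hg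
      filter_upwards [h3, isOpen_An.mem_nhds hs] with s' h4 h5
      exact (hh s' h5 z hz h4).symm
    exact (h1.congr_of_eventuallyEq h2).differentiableWithinAt
  have hr : ∀ s ∈ An, h (exp I * s) = h s := by
    intro s hs
    obtain ⟨z, hz, hg⟩ := exists_good k s
    have hzL := notMem_of_two hz
    have hg' : exp I * s + k.g (z + 1) ≠ 0 := by
      rw [k.g_one z hzL, ← mul_add]
      exact mul_ne_zero (exp_ne_zero _) hg
    rw [← hh s hs z hz hg, ← hh _ (exp_I_mul_mem hs) (z + 1) (two_mul_add_one_notMem hz) hg',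
      HH_shift k F hzL]
  obtain ⟨c, hc⟩ := rot_const hd hr
  refine ⟨c, ?_⟩
  rintro ⟨x, y⟩ hp
  obtain ⟨hz, hPz⟩ := sec_spec k x
  have hp' : (k.P (sec k x), y) ∈ Om k := by rw [hPz]; exact hp
  obtain ⟨h1, h2, h3, h4⟩ := exists_psi k hz hp'
  have h5 := hh _ h2 _ h1 h3
  rw [hc _ h2] at h5
  have h6 := (psi_spec k h1 (An_ne_zero h2) h3).2.1
  unfold HH at h5
  rw [← h6, h4, hPz] at h5
  have h7 : q k x - y ^ 2 ≠ 0 := sub_ne_zero.2 hp.2.1
  rw [← h5]
  field_simp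

end Wg
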