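import Mathlib
import Pool.Agent.Helper620.WgDefs
import Pool.Agent.Helper620.Wg.D14
import Pool.Agent.Helper620.Wg.D56
import Pool.Agent.Helper620.Wg.G1
import Pool.Agent.Helper620.Wg.M23

set_option autoImplicit false

open Complex MeasureTheory Set Filter Topology

namespace Wg


/-- the fundamental half rectangle -/
def f0_L2_Q : Set ℂ := {z | 0 < z.re ∧ z.re < 1 ∧ 0 < z.im ∧ z.im < 1 / 2}

theorem f0_L2_notMem {z : ℂ} (hz : z ∈ f0_L2_Q) : z ∉ Lam := by
  rintro ⟨m, n, h⟩
  obtain ⟨_, _, h3, h4⟩ := hz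
  have him : z.im = (n : ℝ) := by
    rw [h]; simp
  rw [him] at h3 h4
  have h5 : (0 : ℤ) < n := by exact_mod_cast h3
  have h6 : (n : ℝ) < 1 := by linarith
  have h7 : n < (1 : ℤ) := by exact_mod_cast h6
  omega

theorem f0_L2_inj (k : Kit) : InjOn k.P f0_L2_Q := by
  intro z hz z' hz' he
  rcases k.P_inj z (f0_L2_notMem hz) z' (f0_L2_notMem hz') he with ⟨m, n, h⟩ | ⟨m, n, h⟩
  · obtain ⟨a1, a2, a3, a4⟩ := hz
    obtain ⟨b1, b2, b3, b4⟩ := hz'
    have him : z.im - z'.im = (n : ℝ) := by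
      have := congrArg Complex.im h
      simpa using this
    have hre : z.re - z'.re = (m : ℝ) := by
      have := congrArg Complex.re h
      simpa using this
    have hn : n = 0 := by
      have h1 : (n : ℝ) < 1 := by linarith
      have h2 : (-1 : ℝ) < n := by linarith
      have h3 : n < (1 : ℤ) := by exact_mod_cast h1
      have h4 : (-1 : ℤ) < n := by exact_mod_cast h2
      omega
    have hm : m = 0 := by
      have h1 : (m : ℝ) < 1 := by linarith
      have h2 : (-1 : ℝ) < m := by linarith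
      have h3 : m < (1 : ℤ) := by exact_mod_cast h1
      have h4 : (-1 : ℤ) < m := by exact_mod_cast h2
      omega
    subst hn; subst hm
    have : z - z' = 0 := by rw [h]; simp
    exact sub_eq_zero.mp this
  · exfalso
    obtain ⟨a1, a2, a3, a4⟩ := hz
    obtain ⟨b1, b2, b3, b4⟩ := hz'
    have him : z.im + z'.im = (n : ℝ) := by
      have := congrArg Complex.im h
      simpa using this
    have h1 : (n : ℝ) < 1 := by linarith
    have h2 : (0 : ℝ) < n := by linarith
    have h3 : n < (1 : ℤ) := by exact_mod_cast h1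
    have h4 : (0 : ℤ) < n := by exact_mod_cast h2
    omega

/-- the boundary lines -/
def f0_L2_L : Set ℂ := {z | z.re = 0} ∪ {z | z.re = 1} ∪ {z | z.im = 0} ∪ {z | z.im = 1 / 2}

theorem f0_L2_re_null (c : ℝ) : volume {z : ℂ | z.re = c} = 0 := by
  have h := Complex.volume_preserving_equiv_real_prod
  have h2 : {z : ℂ | z.re = c} = Complex.measurableEquivRealProd ⁻¹' ({c} ×ˢ univ) := by
    ext z
    simp [Complex.measurableEquivRealProd_apply]
  rw [h2, h.measure_preimage ((measurableSet_singleton c).prod MeasurableSet.univ).nullMeasurableSet]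
  rw [Measure.volume_eq_prod, Measure.prod_prod]
  simp

theorem f0_L2_im_null (c : ℝ) : volume {z : ℂ | z.im = c} = 0 := by
  have h := Complex.volume_preserving_equiv_real_prod
  have h2 : {z : ℂ | z.im = c} = Complex.measurableEquivRealProd ⁻¹' (univ ×ˢ {c}) := by
    ext z
    simp [Complex.measurableEquivRealProd_apply]
  rw [h2, h.measure_preimage (MeasurableSet.univ.prod (measurableSet_singleton c)).nullMeasurableSet]
  rw [Measure.volume_eq_prod, Measure.prod_prod]
  simp

theorem f0_L2_L_null : volume f0_L2_L = 0 := by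
  unfold f0_L2_L
  rw [measure_union_null_iff, measure_union_null_iff, measure_union_null_iff]
  exact ⟨⟨⟨f0_L2_re_null 0, f0_L2_re_null 1⟩, f0_L2_im_null 0⟩, f0_L2_im_null (1/2)⟩

theorem f0_L2_cover (k : Kit) (x : ℂ) : ∃ z ∉ Lam, k.P z = x ∧ (z ∈ f0_L2_Q ∨ z ∈ f0_L2_L) := by
  obtain ⟨z, hz, hx⟩ := k.P_surj x
  -- translate to the unit square
  have key : ∀ u : ℂ, u ∉ Lam → k.P u = x → 0 ≤ u.re → u.re ≤ 1 → 0 ≤ u.im → u.im ≤ 1 / 2 →
      ∃ z ∉ Lam, k.P z = x ∧ (z ∈ f0_L2_Q ∨ z ∈ f0_L2_L) := by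
    intro u hu hux h1 h2 h3 h4
    refine ⟨u, hu, hux, ?_⟩
    by_cases hL : u ∈ f0_L2_L
    · exact Or.inr hL
    · left
      unfold f0_L2_L at hL
      simp only [mem_union, mem_ofPred_eq, not_or] at hL
      obtain ⟨⟨⟨e1, e2⟩, e3⟩, e4⟩ := hL
      exact ⟨lt_of_le_of_ne h1 (Ne.symm e1), lt_of_le_of_ne h2 e2, lt_of_le_of_ne h3 (Ne.symm e3),
        lt_of_le_of_ne h4 e4⟩
  set l : ℂ := (((-⌊z.re⌋ : ℤ) : ℂ) + ((-⌊z.im⌋ : ℤ) : ℂ) * I) with hl
  have hlL : l ∈ Lam := ⟨-⌊z.re⌋, -⌊z.im⌋, hl⟩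
  have hu : z + l ∉ Lam := fun h => hz (by
    have := Lam.sub_mem h hlL
    rwa [add_sub_cancel_right] at this)
  have hPu : k.P (z + l) = x := by rw [k.P_add l hlL z, hx]
  have hre : (z + l).re = Int.fract z.re := by
    have e := Int.self_sub_floor z.re
    rw [hl, ← e, Complex.add_re, Complex.add_re, Complex.mul_re]
    simp only [Complex.intCast_re, Complex.intCast_im, Complex.I_re, Complex.I_im]
    push_cast
    ring
  have him : (z + l).im = Int.fract z.im := by
    have e := Int.self_sub_floor z.im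
    rw [hl, ← e, Complex.add_im, Complex.add_im, Complex.mul_im]
    simp only [Complex.intCast_re, Complex.intCast_im, Complex.I_re, Complex.I_im]
    push_cast
    ring
  have f1 := Int.fract_nonneg z.re
  have f2 := Int.fract_lt_one z.re
  have f3 := Int.fract_nonneg z.im
  have f4 := Int.fract_lt_one z.im
  by_cases hc : (z + l).im ≤ 1 / 2
  · exact key (z + l) hu hPu (by rw [hre]; exact f1) (by rw [hre]; exact f2.le)
      (by rw [him]; exact f3) hc
  · push Not at hc
    have hl2 : ((1 : ℂ) + I) ∈ Lam := ⟨1, 1, by simp⟩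
    have hv : -(z + l) + (1 + I) ∉ Lam := fun h => hu (by
      have := Lam.sub_mem hl2 h
      have e : (1 + I) - (-(z + l) + (1 + I)) = z + l := by ring
      rwa [e] at this)
    have hPv : k.P (-(z + l) + (1 + I)) = x := by
      rw [k.P_add _ hl2, k.P_neg, hPu]
    have vre : (-(z + l) + (1 + I)).re = 1 - Int.fract z.re := by
      rw [Complex.add_re, Complex.neg_re, hre]; simp; ring
    have vim : (-(z + l) + (1 + I)).im = 1 - (z + l).im := by
      rw [Complex.add_im, Complex.neg_im]; simp; ring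
    have f5 : (z + l).im < 1 := by rw [him]; exact f4
    exact key _ hv hPv (by rw [vre]; linarith) (by rw [vre]; linarith)
      (by rw [vim]; linarith) (by rw [vim]; linarith)

theorem f0_L2_null (k : Kit) : volume (k.P '' f0_L2_Q)ᶜ = 0 := by
  have hsub : (k.P '' f0_L2_Q)ᶜ ⊆ k.P '' (f0_L2_L \ Lam) := by
    intro x hx
    obtain ⟨z, hz, hzx, h | h⟩ := f0_L2_cover k x
    · exact absurd ⟨z, h, hzx⟩ hx
    · exact ⟨z, ⟨h, hz⟩, hzx⟩
  refine measure_mono_null hsub ?_
  refine MeasureTheory.addHaar_image_eq_zero_of_differentiableOn_of_addHaar_eq_zero volume ?_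
    (measure_mono_null sdiff_subset f0_L2_L_null)
  intro z hz
  exact ((k.hP z hz.2).differentiableAt.restrictScalars ℝ).differentiableWithinAt

theorem f0_L2_Q_open : IsOpen f0_L2_Q := by
  unfold f0_L2_Q
  refine (isOpen_lt continuous_const Complex.continuous_re).inter ?_
  refine (isOpen_lt Complex.continuous_re continuous_const).inter ?_
  exact (isOpen_lt continuous_const Complex.continuous_im).inter
    (isOpen_lt Complex.continuous_im continuous_const)

theorem f0_L2_Q_fin : volume f0_L2_Q < ⊤ := by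
  refine (measure_mono (t := Metric.closedBall (0:ℂ) 2) ?_).trans_lt
    (isCompact_closedBall (0:ℂ) 2).measure_lt_top
  intro z hz
  obtain ⟨h1, h2, h3, h4⟩ := hz
  rw [mem_closedBall_zero_iff]
  refine (Complex.norm_le_abs_re_add_abs_im z).trans ?_
  rw [abs_of_pos h1, abs_of_pos h3]
  linarith

theorem f0_L2_An_fin : volume An < ⊤ := by
  refine (measure_mono (t := Metric.closedBall (0:ℂ) 2) ?_).trans_lt
    (isCompact_closedBall (0:ℂ) 2).measure_lt_top
  intro z hz
  rw [mem_closedBall_zero_iff]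
  exact hz.2.le

theorem f0_L2_An_meas : MeasurableSet An := by
  have : IsOpen An := (isOpen_lt continuous_const continuous_norm).inter
    (isOpen_lt continuous_norm continuous_const)
  exact this.measurableSet

/-- the fibre integral -/
noncomputable def f0_L2_K (k : Kit) (x : ℂ) : ENNReal :=
  ∫⁻ y in {y | (x, y) ∈ Om k}, ENNReal.ofReal (‖(q k x - y ^ 2)⁻¹‖ ^ 2)

theorem f0_L2_K_bound (k : Kit) {z : ℂ} (hz : z ∉ Lam) :
    ENNReal.ofReal (‖k.Pd z‖ ^ 2) * f0_L2_K k (k.P z) ≤ volume An := by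
  by_cases h2 : 2 * z ∈ Lam
  · rw [k.Pd_zero z h2]
    have : f0_L2_K k (k.P z) = 0 := by
      unfold f0_L2_K
      have he : {y | (k.P z, y) ∈ Om k} = ∅ := by
        ext y
        simp only [mem_ofPred_eq, mem_empty_iff_false, iff_false]
        intro hy
        have := hy.1
        apply this
        show q k (k.P z) = 0
        rw [q_P k hz, k.Pd_zero z h2]; simp
      rw [he]; simp
    rw [this]; simp
  · have hw : k.Pd z ≠ 0 := k.Pd_ne z h2
    have hg := k.g_ne z
    have hwpos : 0 < ‖k.Pd z‖ := norm_pos_iff.mpr hw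
    unfold f0_L2_K
    rw [fibre_cov k h2 (fun y => ENNReal.ofReal (‖(q k (k.P z) - y ^ 2)⁻¹‖ ^ 2))]
    have hb : ∀ s ∈ An \ {- k.g z},
        ENNReal.ofReal (‖2 * k.Pd z * k.g z / (s + k.g z) ^ 2‖ ^ 2) *
        ENNReal.ofReal (‖(q k (k.P z) - (psi k z s) ^ 2)⁻¹‖ ^ 2) ≤
          ENNReal.ofReal ((‖k.Pd z‖ ^ 2)⁻¹) := by
      intro s hs
      obtain ⟨⟨hs1, hs2⟩, hs3⟩ := hs
      have hs0 : s ≠ 0 := by
        intro h; rw [h, norm_zero] at hs1; norm_num at hs1
      have hsg : s + k.g z ≠ 0 := by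
        intro h
        apply hs3
        exact eq_neg_of_add_eq_zero_left h
      obtain ⟨_, e, _, _⟩ := psi_spec k h2 hs0 hsg
      rw [e, ← ENNReal.ofReal_mul (by positivity)]
      apply ENNReal.ofReal_le_ofReal
      rw [← mul_pow, ← norm_mul]
      have e2 : 2 * k.Pd z * k.g z / (s + k.g z) ^ 2 *
          (4 * s * k.g z * k.Pd z ^ 2 / (s + k.g z) ^ 2)⁻¹ = (2 * s * k.Pd z)⁻¹ := by
        field_simp
        ring
      rw [e2, norm_inv, norm_mul, norm_mul, ← inv_pow]
      apply pow_le_pow_left₀ (by positivity)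
      apply inv_anti₀ hwpos
      have : (1:ℝ) ≤ ‖(2:ℂ)‖ * ‖s‖ := by
        rw [Complex.norm_two]; linarith
      nlinarith
    calc ENNReal.ofReal (‖k.Pd z‖ ^ 2) * ∫⁻ s in An \ {- k.g z},
            ENNReal.ofReal (‖2 * k.Pd z * k.g z / (s + k.g z) ^ 2‖ ^ 2) *
            ENNReal.ofReal (‖(q k (k.P z) - (psi k z s) ^ 2)⁻¹‖ ^ 2)
        ≤ ENNReal.ofReal (‖k.Pd z‖ ^ 2) * ∫⁻ s in An \ {- k.g z},
            ENNReal.ofReal ((‖k.Pd z‖ ^ 2)⁻¹) := by
          refine mul_le_mul_right ?_ _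
          exact setLIntegral_mono' (f0_L2_An_meas.diff (measurableSet_singleton _)) hb
      _ = ENNReal.ofReal (‖k.Pd z‖ ^ 2) * (ENNReal.ofReal ((‖k.Pd z‖ ^ 2)⁻¹) *
            volume (An \ {- k.g z})) := by
          rw [setLIntegral_const]
      _ = volume (An \ {- k.g z}) := by
          rw [← mul_assoc, ← ENNReal.ofReal_mul (by positivity),
            mul_inv_cancel₀ (by positivity), ENNReal.ofReal_one, one_mul]
      _ ≤ volume An := measure_mono sdiff_subset

/-- M7 -/
theorem f0_L2 (k : Kit) :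
    ∫⁻ p in Om k, ENNReal.ofReal (‖(q k p.1 - p.2 ^ 2)⁻¹‖ ^ 2) < ⊤ := by
  have hOm : MeasurableSet (Om k) := (isOpen_Om k).measurableSet
  have hf : Measurable (fun p : ℂ × ℂ => ENNReal.ofReal (‖(q k p.1 - p.2 ^ 2)⁻¹‖ ^ 2)) := by
    have hc : Continuous (fun p : ℂ × ℂ => q k p.1 - p.2 ^ 2) := by
      unfold q; fun_prop
    exact ENNReal.measurable_ofReal.comp ((hc.measurable.inv.norm).pow_const 2)
  have h1 : ∫⁻ p in Om k, ENNReal.ofReal (‖(q k p.1 - p.2 ^ 2)⁻¹‖ ^ 2) =
      ∫⁻ x, f0_L2_K k x := by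
    rw [← lintegral_indicator hOm, Measure.volume_eq_prod,
      lintegral_prod _ (hf.indicator hOm).aemeasurable]
    refine lintegral_congr fun x => ?_
    unfold f0_L2_K
    have hm : MeasurableSet {y | (x, y) ∈ Om k} := measurable_prodMk_left hOm
    rw [← lintegral_indicator hm]
    rfl
  rw [h1]
  have h2 : ∫⁻ x, f0_L2_K k x = ∫⁻ x in k.P '' f0_L2_Q, f0_L2_K k x := by
    have : (volume : Measure ℂ).restrict (k.P '' f0_L2_Q) = volume := by
      apply Measure.restrict_eq_self_of_ae_mem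
      rw [ae_iff]
      exact f0_L2_null k
    rw [this]
  rw [h2, lintegral_image_cx f0_L2_Q_open.measurableSet
    (fun z hz => k.hP z (f0_L2_notMem hz)) (f0_L2_inj k)]
  calc ∫⁻ z in f0_L2_Q, ENNReal.ofReal (‖k.Pd z‖ ^ 2) * f0_L2_K k (k.P z)
      ≤ ∫⁻ z in f0_L2_Q, volume An :=
        setLIntegral_mono' f0_L2_Q_open.measurableSet
          (fun z hz => f0_L2_K_bound k (f0_L2_notMem hz))
    _ = volume An * volume f0_L2_Q := by rw [setLIntegral_const]
    _ < ⊤ := ENNReal.mul_lt_top f0_L2_An_fin f0_L2_Q_fin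

end Wg
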