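import Mathlib
import Pool.Agent.Helper620.WgDefs
import Pool.Agent.Helper620.Wg.D14
import Pool.Agent.Helper620.Wg.D56
import Pool.Agent.Helper620.Wg.D7
import Pool.Agent.Helper620.Wg.D8
import Pool.Agent.Helper620.Wg.M78
import Pool.Agent.Helper620.Wg.M6b

set_option autoImplicit false

open Complex MeasureTheory Set Filter Topology

namespace Wg

theorem memLp_two_iff' {α : Type*} [MeasurableSpace α] {μ : Measure α} {f : α → ℂ}
    (hf : AEStronglyMeasurable f μ) :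
    MemLp f 2 μ ↔ ∫⁻ a, ENNReal.ofReal (‖f a‖ ^ 2) ∂μ < ⊤ := by
  have e : ∀ a, ENNReal.ofReal (‖f a‖ ^ 2) = ‖f a‖ₑ ^ (2 : ENNReal).toReal := by
    intro a
    rw [ENNReal.toReal_ofNat, ENNReal.ofReal_pow (norm_nonneg _), ofReal_norm]
    norm_cast
  simp_rw [e]
  constructor
  · intro h
    exact (eLpNorm_lt_top_iff_lintegral_rpow_enorm_lt_top (by norm_num) (by norm_num)).1 h.2
  · intro h
    exact ⟨hf, (eLpNorm_lt_top_iff_lintegral_rpow_enorm_lt_top (by norm_num) (by norm_num)).2 h⟩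

/-- the domain in `Fin 2 → ℂ` -/
def Om2 (k : Kit) : Set (Fin 2 → ℂ) := {v | (v 0, v 1) ∈ Om k}

def toP (v : Fin 2 → ℂ) : ℂ × ℂ := (v 0, v 1)
def ofP (p : ℂ × ℂ) : Fin 2 → ℂ := ![p.1, p.2]

theorem ofP_toP (v : Fin 2 → ℂ) : ofP (toP v) = v := by
  funext i; fin_cases i <;> rfl
theorem toP_ofP (p : ℂ × ℂ) : toP (ofP p) = p := rfl

theorem cont_toP : Continuous toP := by unfold toP; fun_prop
theorem cont_ofP : Continuous ofP := by
  unfold ofP
  refine continuous_pi ?_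
  intro i; fin_cases i
  · exact continuous_fst
  · exact continuous_snd

theorem diff_toP : Differentiable ℂ toP := by unfold toP; fun_prop
theorem diff_ofP : Differentiable ℂ ofP := by
  unfold ofP
  rw [differentiable_pi]
  intro i; fin_cases i
  · exact differentiable_fst
  · exact differentiable_snd

theorem Om2_eq_preimage (k : Kit) : Om2 k = toP ⁻¹' (Om k) := rfl
theorem Om2_eq_image (k : Kit) : Om2 k = ofP '' (Om k) := by
  ext v; constructor
  · intro h; exact ⟨toP v, h, ofP_toP v⟩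
  · rintro ⟨p, hp, rfl⟩; exact hp

theorem mp_toP : MeasurePreserving toP (volume : Measure (Fin 2 → ℂ)) (volume : Measure (ℂ × ℂ)) := by
  have := volume_preserving_finTwoArrow ℂ
  exact this

theorem lint_toP (k : Kit) (G : ℂ × ℂ → ENNReal) :
    ∫⁻ v in Om2 k, G (toP v) = ∫⁻ p in Om k, G p := by
  have h : MeasurableEmbedding toP := (MeasurableEquiv.finTwoArrow (α := ℂ)).measurableEmbedding
  rw [Om2_eq_preimage]
  exact mp_toP.setLIntegral_comp_preimage_emb h G (Om k)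

theorem main_of_kit (k : Kit) :
    ∃ n : ℕ, 1 ≤ n ∧ ∃ Ω : Set (Fin n → ℂ), IsOpen Ω ∧ IsConnected Ω ∧
      (∃ φ : (Fin n → ℂ) → ℝ, ContinuousOn φ Ω ∧
        (∀ c : ℝ, IsCompact {z | z ∈ Ω ∧ φ z ≤ c}) ∧
        ∀ a b : Fin n → ℂ, (∀ ζ : ℂ, ‖ζ‖ ≤ 1 → a + ζ • b ∈ Ω) →
          φ a ≤ (1 / (2 * Real.pi)) *
            ∫ θ in (0:ℝ)..(2 * Real.pi), φ (a + Complex.exp ((θ : ℂ) * Complex.I) • b)) ∧
      (∃ f : (Fin n → ℂ) → ℂ, DifferentiableOn ℂ f Ω ∧
        MemLp f 2 (volume.restrict Ω) ∧ ∃ z ∈ Ω, f z ≠ 0) ∧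
      ∃ k : ℕ, ∃ g : Fin k → (Fin n → ℂ) → ℂ,
        (∀ i, DifferentiableOn ℂ (g i) Ω ∧ MemLp (g i) 2 (volume.restrict Ω)) ∧
        ∀ f : (Fin n → ℂ) → ℂ, DifferentiableOn ℂ f Ω → MemLp f 2 (volume.restrict Ω) →
          ∃ c : Fin k → ℂ, ∀ z ∈ Ω, f z = ∑ i, c i * g i z := by
  have hopen : IsOpen (Om2 k) := (isOpen_Om k).preimage cont_toP
  have hf0d : DifferentiableOn ℂ (fun v : Fin 2 → ℂ => (q k (v 0) - (v 1) ^ 2)⁻¹) (Om2 k) := by
    intro v hv
    have h1 : q k (v 0) - (v 1) ^ 2 ≠ 0 := sub_ne_zero.2 hv.2.1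
    have h2 : DifferentiableAt ℂ (fun v : Fin 2 → ℂ => q k (v 0) - (v 1) ^ 2) v := by
      unfold q; fun_prop
    exact (h2.inv h1).differentiableWithinAt
  have hmeas : ∀ f : (Fin 2 → ℂ) → ℂ, DifferentiableOn ℂ f (Om2 k) →
      AEStronglyMeasurable f (volume.restrict (Om2 k)) := fun f hf =>
    hf.continuousOn.aestronglyMeasurable hopen.measurableSet
  have hf0L : MemLp (fun v : Fin 2 → ℂ => (q k (v 0) - (v 1) ^ 2)⁻¹) 2 (volume.restrict (Om2 k)) := by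
    rw [memLp_two_iff' (hmeas _ hf0d)]
    have := lint_toP k (fun p => ENNReal.ofReal (‖(q k p.1 - p.2 ^ 2)⁻¹‖ ^ 2))
    have h2 := f0_L2 k
    rw [← this] at h2
    exact h2
  refine ⟨2, by norm_num, Om2 k, hopen, ?_, ?_, ?_, ?_⟩
  · rw [Om2_eq_image]
    exact (isConnected_Om k).image _ cont_ofP.continuousOn
  · refine ⟨fun v => phi k (toP v), ?_, ?_, ?_⟩
    · exact (phi_cont k).comp cont_toP.continuousOn (fun v hv => hv)
    · intro c
      have : {z | z ∈ Om2 k ∧ phi k (toP z) ≤ c} = ofP '' {p | p ∈ Om k ∧ phi k p ≤ c} := by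
        ext v; constructor
        · rintro ⟨h1, h2⟩
          exact ⟨toP v, ⟨h1, h2⟩, ofP_toP v⟩
        · rintro ⟨p, hp, rfl⟩
          exact hp
      rw [this]
      exact (phi_compact k c).image cont_ofP
    · intro a b h
      exact phi_submean k (toP a) (toP b) (fun ζ hζ => h ζ hζ)
  · obtain ⟨p, hp⟩ := (isConnected_Om k).nonempty
    refine ⟨_, hf0d, hf0L, ofP p, hp, ?_⟩
    exact inv_ne_zero (sub_ne_zero.2 hp.2.1)
  · refine ⟨1, fun _ v => (q k (v 0) - (v 1) ^ 2)⁻¹, fun _ => ⟨hf0d, hf0L⟩, ?_⟩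
    intro f hf hL
    have hF : DifferentiableOn ℂ (fun p => f (ofP p)) (Om k) :=
      hf.comp diff_ofP.differentiableOn (fun p hp => hp)
    have hFL : ∫⁻ p in Om k, ENNReal.ofReal (‖f (ofP p)‖ ^ 2) < ⊤ := by
      rw [← lint_toP k (fun p => ENNReal.ofReal (‖f (ofP p)‖ ^ 2))]
      simp_rw [ofP_toP]
      exact (memLp_two_iff' (hmeas f hf)).1 hL
    obtain ⟨c, hc⟩ := bergman_one' k hF hFL
    refine ⟨fun _ => c, ?_⟩
    intro v hv
    have := hc (toP v) hv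
    simp only [ofP_toP] at this
    rw [Fin.sum_univ_one, this]
    rfl

end Wg
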