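import Mathlib
import Pool.Agent.Helper620.WgDefs
import Pool.Agent.Helper620.Wg.KS

set_option autoImplicit false

open Complex MeasureTheory Set Filter Topology

namespace Wg


/-- the square lattice -/
theorem indep_one_I : LinearIndependent ℝ ![(1 : ℂ), I] := by
  have h := Complex.basisOneI.linearIndependent
  rwa [Complex.coe_basisOneI] at h

noncomputable def L0 : PeriodPair := ⟨1, I, indep_one_I⟩

theorem mem_L0 (z : ℂ) : z ∈ L0.lattice ↔ z ∈ Lam := by
  rw [PeriodPair.mem_lattice]
  constructor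
  · rintro ⟨m, n, h⟩
    exact ⟨m, n, by rw [← h]; simp [L0]⟩
  · rintro ⟨m, n, h⟩
    exact ⟨m, n, by rw [h]; simp [L0]⟩

theorem mem_L0_I_mul {l : ℂ} (hl : l ∈ Lam) : I * l ∈ Lam := by
  obtain ⟨m, n, rfl⟩ := hl
  refine ⟨-n, m, ?_⟩
  push_cast
  linear_combination (n : ℂ) * I_mul_I

theorem mem_L0_I_mul_iff {l : ℂ} : I * l ∈ Lam ↔ l ∈ Lam := by
  refine ⟨fun h => ?_, mem_L0_I_mul⟩
  have h1 := neg_mem (mem_L0_I_mul h)
  have e : -(I * (I * l)) = l := by linear_combination (-l) * I_mul_I
  rwa [e] at h1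

theorem wp_I_mul (z : ℂ) : L0.weierstrassP (I * z) = - L0.weierstrassP z := by
  have hI : ∀ l : ℂ, l ∈ L0.lattice → I * l ∈ L0.lattice := fun l hl =>
    (mem_L0 _).2 (mem_L0_I_mul ((mem_L0 _).1 hl))
  let e : L0.lattice ≃ L0.lattice :=
    { toFun := fun l => ⟨I * l.1, hI _ l.2⟩
      invFun := fun l => ⟨-(I * l.1), neg_mem (hI _ l.2)⟩
      left_inv := fun l => by
        apply Subtype.ext
        show -(I * (I * l.1)) = l.1
        linear_combination (-l.1) * I_mul_I
      right_inv := fun l => by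
        apply Subtype.ext
        show I * (-(I * l.1)) = l.1
        linear_combination (-l.1) * I_mul_I }
  simp only [PeriodPair.weierstrassP]
  rw [← e.tsum_eq, ← tsum_neg]
  congr 1
  ext l
  show 1 / (I * z - I * l.1) ^ 2 - 1 / (I * l.1) ^ 2 = -(1 / (z - l.1) ^ 2 - 1 / l.1 ^ 2)
  have h1 : (I * z - I * l.1) ^ 2 = -(z - l.1) ^ 2 := by
    linear_combination (z - l.1) ^ 2 * I_sq
  have h2 : (I * l.1) ^ 2 = - l.1 ^ 2 := by
    linear_combination l.1 ^ 2 * I_sq
  rw [h1, h2, div_neg, div_neg]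
  ring

theorem zeta_quasi_set : (L0.lattice : Set ℂ) = (Lam : Set ℂ) := by
  ext z; exact mem_L0 z

theorem zeta_quasi_open : IsOpen ((Lam : Set ℂ)ᶜ) := by
  rw [← zeta_quasi_set]
  exact L0.isClosed_lattice.isOpen_compl

theorem zeta_quasi_countable : (Lam : Set ℂ).Countable := by
  have : (Lam : Set ℂ) ⊆ Set.range (fun p : ℤ × ℤ => (p.1 : ℂ) + (p.2 : ℂ) * I) := by
    rintro z ⟨m, n, rfl⟩
    exact ⟨(m, n), rfl⟩
  exact (Set.countable_range _).mono this

theorem zeta_quasi_preconn : IsPreconnected ((Lam : Set ℂ)ᶜ) := by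
  have h : 1 < Module.rank ℝ ℂ := by
    rw [Complex.rank_real_complex]; exact Cardinal.one_lt_two
  exact (zeta_quasi_countable.isPathConnected_compl_of_one_lt_rank h).isConnected.isPreconnected

theorem zeta_quasi_half : (1 + I) / 2 ∉ Lam := by
  rintro ⟨m, n, h⟩
  have := congrArg Complex.re h
  simp at this
  have h2 : (1 : ℝ) = 2 * m := by linarith
  have h3 : (1 : ℤ) = 2 * m := by exact_mod_cast h2
  omega

theorem zeta_quasi_eta {ζ : ℂ → ℂ} (hd : ∀ z ∉ Lam, HasDerivAt ζ (- L0.weierstrassP z) z)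
    (hodd : ∀ z, ζ (-z) = - ζ z) (ha : AnalyticAt ℂ (fun z => ζ z - 1 / z) 0)
    (h1 : ∀ z ∉ Lam, ζ (z + 1) = ζ z) (h2 : ∀ z ∉ Lam, ζ (z + I) = ζ z) : False := by
  classical
  have h1m : (1 : ℂ) ∈ Lam := ⟨1, 0, by simp⟩
  have hIm : I ∈ Lam := ⟨0, 1, by simp⟩
  set Z : ℂ → ℂ := fun z => if z ∈ Lam then 0 else ζ z with hZ
  have hmem : ∀ l ∈ Lam, ∀ z, (z + l ∈ Lam ↔ z ∈ Lam) := fun l hl z => Lam.add_mem_cancel_right hl
  have p1 : Function.Periodic Z 1 := by
    intro z
    simp only [hZ, hmem 1 h1m z]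
    split_ifs with h
    · rfl
    · exact h1 z h
  have pI : Function.Periodic Z I := by
    intro z
    simp only [hZ, hmem I hIm z]
    split_ifs with h
    · rfl
    · exact h2 z h
  have pl : ∀ l ∈ Lam, ∀ z, Z (z + l) = Z z := by
    rintro l ⟨m, n, rfl⟩ z
    have a1 := (pI.int_mul n) (z + m)
    have a2 := (p1.int_mul m) z
    rw [mul_one] at a2
    rw [← add_assoc, a1, a2]
  set F : ℂ → ℂ := fun z => Z z ^ 2 - L0.weierstrassP z with hF
  have pF : ∀ l ∈ Lam, ∀ z, F (z + l) = F z := by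
    intro l hl z
    have := L0.weierstrassP_add_coe z ⟨l, (mem_L0 l).2 hl⟩
    simp only [hF, pl l hl z]
    simp only at this
    rw [this]
  have hopen := zeta_quasi_open
  -- near a point off the lattice
  have hF1 : ∀ x ∉ Lam, DifferentiableAt ℂ F x := by
    intro x hx
    have e : F =ᶠ[𝓝 x] fun z => ζ z ^ 2 - L0.weierstrassP z := by
      filter_upwards [hopen.mem_nhds hx] with z hz
      have hz' : z ∉ Lam := hz
      simp only [hF, hZ, if_neg hz']
    have d1 : DifferentiableAt ℂ ζ x := (hd x hx).differentiableAt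
    have d2 : DifferentiableAt ℂ L0.weierstrassP x := by
      have := L0.differentiableOn_weierstrassP
      rw [zeta_quasi_set] at this
      exact this.differentiableAt (hopen.mem_nhds hx)
    exact ((d1.pow 2).sub d2).congr_of_eventuallyEq e
  -- near zero
  set a : ℂ → ℂ := fun z => ζ z - 1 / z with hadef
  have ha0 : a 0 = 0 := by
    have : ζ 0 = 0 := by
      have := hodd 0
      rw [neg_zero] at this
      exact self_eq_neg.1 this
    simp [hadef, this]
  have hex : ∀ z, L0.weierstrassP z = L0.weierstrassPExcept 0 z + 1 / z ^ 2 := by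
    intro z
    have := L0.weierstrassPExcept_add (0 : L0.lattice) z
    simp at this
    rw [← this]; simp
  have hexd : DifferentiableAt ℂ (L0.weierstrassPExcept 0) 0 := (L0.analyticAt_weierstrassPExcept 0).differentiableAt
  have hnear : ∀ᶠ z in 𝓝 (0 : ℂ), z ∉ Lam ∨ z = 0 := by
    have := L0.compl_lattice_sdiff_singleton_mem_nhds 0
    filter_upwards [this] with z hz
    simp only [Set.mem_compl_iff, Set.mem_sdiff, Set.mem_singleton_iff, not_and, not_not] at hz
    by_cases h : z = 0
    · exact Or.inr h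
    · left
      intro hl
      exact h (hz ((mem_L0 z).2 hl))
  have hda : deriv a 0 = 0 := by
    have e1 : deriv a =ᶠ[𝓝[≠] 0] fun z => - L0.weierstrassPExcept 0 z := by
      have hnear' : ∀ᶠ z in 𝓝[≠] (0 : ℂ), z ∉ Lam := by
        filter_upwards [nhdsWithin_le_nhds hnear, self_mem_nhdsWithin] with z hz hz0
        exact hz.resolve_right hz0
      filter_upwards [hnear', self_mem_nhdsWithin] with z hz hz0
      have hz0' : z ≠ 0 := hz0
      have d : HasDerivAt a (- L0.weierstrassP z - (-(1 / z ^ 2))) z := by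
        have := (hd z hz).sub ((hasDerivAt_inv hz0'))
        simp only [hadef, one_div]
        exact this
      rw [d.deriv, hex z]
      ring
    have e2 : deriv a =ᶠ[𝓝 0] fun z => - L0.weierstrassPExcept 0 z :=
      (ContinuousAt.eventuallyEq_nhds_iff_eventuallyEq_nhdsNE ha.deriv.continuousAt
        hexd.neg.continuousAt).1 e1
    have := e2.self_of_nhds
    rw [this]; simp
  have hF0 : DifferentiableAt ℂ F 0 := by
    have e : F =ᶠ[𝓝 0] fun z => 2 * dslope a 0 z + a z ^ 2 - L0.weierstrassPExcept 0 z := by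
      filter_upwards [hnear] with z hz
      by_cases hz0 : z = 0
      · subst hz0
        have : (0 : ℂ) ∈ Lam := zero_mem _
        simp only [hF, hZ, if_pos this, dslope_same, hda, ha0]
        simp
      · have hz' := hz.resolve_right hz0
        simp only [hF, hZ, if_neg hz', dslope_of_ne _ hz0, slope_def_field, ha0, hex z]
        simp only [hadef]
        field_simp
        ring
    have d1 : DifferentiableAt ℂ (dslope a 0) 0 := by
      obtain ⟨p, hp⟩ := ha
      exact hp.has_fpower_series_dslope_fslope.analyticAt.differentiableAt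
    exact (((d1.const_mul 2).add (ha.differentiableAt.pow 2)).sub hexd).congr_of_eventuallyEq e
  have hFd : Differentiable ℂ F := by
    intro x
    by_cases hx : x ∈ Lam
    · have e : F = fun z => F (z - x) := by
        ext z
        have := pF (-x) (neg_mem hx) z
        rw [← sub_eq_add_neg] at this
        exact this.symm
      have hF0' : DifferentiableAt ℂ F (x - x) := by rw [sub_self]; exact hF0
      have h := DifferentiableAt.comp (g := F) (f := fun z => z - x) x hF0' (differentiableAt_id.sub_const x)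
      have h' : DifferentiableAt ℂ (fun z => F (z - x)) x := h
      rwa [← e] at h'
    · exact hF1 x hx
  have hFc : ∀ z, F z = 0 := by
    intro z
    have hb := (IsZLattice.isCompact_range_of_periodic L0.lattice F hFd.continuous
      (fun z w hw => pF w ((mem_L0 w).1 hw) z)).isBounded
    rw [hFd.apply_eq_apply_of_bounded hb z 0]
    have : (0 : ℂ) ∈ Lam := zero_mem _
    simp only [hF, hZ, if_pos this]
    simp
  have hsq : ∀ z ∉ Lam, L0.weierstrassP z = ζ z ^ 2 := by
    intro z hz
    have := hFc z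
    simp only [hF, hZ, if_neg hz] at this
    exact (sub_eq_zero.1 this).symm
  -- the zero
  set z0 : ℂ := (1 + I) / 2 with hz0
  have hz0m : z0 ∉ Lam := zeta_quasi_half
  have hζ0 : ζ z0 = 0 := by
    have hw : L0.weierstrassP z0 = 0 := by
      have e1 := wp_I_mul z0
      have e2 : I * z0 + ((⟨1, (mem_L0 1).2 h1m⟩ : L0.lattice) : ℂ) = z0 := by
        simp only [hz0]
        linear_combination (1 / 2 : ℂ) * I_mul_I
      have e3 := L0.weierstrassP_add_coe (I * z0) ⟨1, (mem_L0 1).2 h1m⟩
      rw [e2, e1] at e3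
      exact self_eq_neg.1 e3
    have := hsq z0 hz0m
    rw [hw] at this
    exact pow_eq_zero_iff (two_ne_zero) |>.1 this.symm
  have han : AnalyticAt ℂ ζ z0 := by
    have : DifferentiableOn ℂ ζ ((Lam : Set ℂ)ᶜ) := fun z hz =>
      (hd z hz).differentiableAt.differentiableWithinAt
    exact this.analyticAt (hopen.mem_nhds hz0m)
  have hder : deriv ζ =ᶠ[𝓝 z0] fun z => -(ζ z * ζ z) := by
    filter_upwards [hopen.mem_nhds hz0m] with z hz
    rw [(hd z hz).deriv, hsq z hz, sq]
  have o1 := han.analyticOrderAt_deriv_add_one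
  rw [hζ0] at o1
  simp only [sub_zero] at o1
  have o2 : analyticOrderAt (deriv ζ) z0 = analyticOrderAt ζ z0 + analyticOrderAt ζ z0 := by
    rw [analyticOrderAt_congr hder]
    have e : (fun z => -(ζ z * ζ z)) = -(ζ * ζ) := rfl
    rw [e, analyticOrderAt_neg, analyticOrderAt_mul han han]
  have otop : analyticOrderAt ζ z0 = ⊤ := by
    rw [o2] at o1
    cases hcase : analyticOrderAt ζ z0 with
    | top => rfl
    | coe m =>
      rw [hcase] at o1
      exfalso
      have : m + m + 1 = m := by exact_mod_cast o1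
      omega
  have hzero : ∀ᶠ z in 𝓝 z0, ζ z = 0 := analyticOrderAt_eq_top.1 otop
  have hon : AnalyticOnNhd ℂ ζ ((Lam : Set ℂ)ᶜ) := by
    have : DifferentiableOn ℂ ζ ((Lam : Set ℂ)ᶜ) := fun z hz =>
      (hd z hz).differentiableAt.differentiableWithinAt
    exact this.analyticOnNhd hopen
  have hall : Set.EqOn ζ 0 ((Lam : Set ℂ)ᶜ) :=
    hon.eqOn_zero_of_preconnected_of_eventuallyEq_zero zeta_quasi_preconn hz0m hzero
  have hwp : L0.weierstrassP = fun _ => 0 := by
    ext z
    by_cases hz : z ∈ Lam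
    · have := L0.weierstrassP_coe ⟨z, (mem_L0 z).2 hz⟩
      exact this
    · rw [hsq z hz, hall hz]; simp
  apply L0.not_continuousAt_weierstrassP 0 (zero_mem _)
  rw [hwp]
  exact continuousAt_const

/-- quasi-periods of a zeta function of the square lattice -/
theorem zeta_quasi {ζ : ℂ → ℂ} (hd : ∀ z ∉ Lam, HasDerivAt ζ (- L0.weierstrassP z) z)
    (hodd : ∀ z, ζ (-z) = - ζ z) (ha : AnalyticAt ℂ (fun z => ζ z - 1 / z) 0) :
    ∃ η : ℂ, η ≠ 0 ∧ (∀ z ∉ Lam, ζ (z + 1) = ζ z + η) ∧ (∀ z ∉ Lam, ζ (z + I) = ζ z - I * η) := by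
  have h1m : (1 : ℂ) ∈ Lam := ⟨1, 0, by simp⟩
  have hIm : I ∈ Lam := ⟨0, 1, by simp⟩
  have hmem : ∀ l ∈ Lam, ∀ z, (z + l ∈ Lam ↔ z ∈ Lam) := fun l hl z => Lam.add_mem_cancel_right hl
  have hopen := zeta_quasi_open
  have A1 : ∀ z ∉ Lam, HasDerivAt (fun z => ζ (z + 1) - ζ z) 0 z := by
    intro z hz
    have hz1 : z + 1 ∉ Lam := fun h => hz ((hmem 1 h1m z).1 h)
    have d1 : HasDerivAt (fun z => ζ (z + 1)) (- L0.weierstrassP (z + 1)) z :=
      HasDerivAt.comp_add_const z 1 (hd (z + 1) hz1)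
    have e := L0.weierstrassP_add_coe z ⟨1, (mem_L0 1).2 h1m⟩
    have e' : L0.weierstrassP (z + 1) = L0.weierstrassP z := e
    have := d1.sub (hd z hz)
    rw [e', sub_self] at this
    exact this
  obtain ⟨η, hη⟩ := hopen.exists_is_const_of_deriv_eq_zero zeta_quasi_preconn
    (fun z hz => (A1 z hz).differentiableAt.differentiableWithinAt) (fun z hz => (A1 z hz).deriv)
  have A2 : ∀ z ∉ Lam, HasDerivAt (fun z => ζ (I * z) + I * ζ z) 0 z := by
    intro z hz
    have hz1 : I * z ∉ Lam := fun h => hz (mem_L0_I_mul_iff.1 h)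
    have d1 : HasDerivAt (fun z => ζ (I * z)) (- L0.weierstrassP (I * z) * (I * 1)) z :=
      HasDerivAt.comp z (hd (I * z) hz1) ((hasDerivAt_id z).const_mul I)
    have := d1.add ((hd z hz).const_mul I)
    rw [wp_I_mul] at this
    have e0 : - -L0.weierstrassP z * (I * 1) + I * -L0.weierstrassP z = 0 := by ring
    rw [e0] at this
    exact this
  obtain ⟨c, hc⟩ := hopen.exists_is_const_of_deriv_eq_zero zeta_quasi_preconn
    (fun z hz => (A2 z hz).differentiableAt.differentiableWithinAt) (fun z hz => (A2 z hz).deriv)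
  have hc0 : c = 0 := by
    have g1 := hc ((1 + I) / 2) zeta_quasi_half
    have g2 := hc (-((1 + I) / 2)) (fun h => zeta_quasi_half (neg_mem_iff.1 h))
    have e : ζ (I * -((1 + I) / 2)) = - ζ (I * ((1 + I) / 2)) := by
      rw [mul_neg, hodd]
    simp only [e, hodd] at g2
    have : c = -c := by
      calc c = -ζ (I * ((1 + I) / 2)) + I * -ζ ((1 + I) / 2) := g2.symm
        _ = -(ζ (I * ((1 + I) / 2)) + I * ζ ((1 + I) / 2)) := by ring
        _ = -c := by rw [g1]
    exact self_eq_neg.1 this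
  have hI : ∀ z ∉ Lam, ζ (I * z) = - (I * ζ z) := by
    intro z hz
    have := hc z hz
    rw [hc0] at this
    exact eq_neg_of_add_eq_zero_left this
  have h1 : ∀ z ∉ Lam, ζ (z + 1) = ζ z + η := by
    intro z hz
    have := hη z hz
    rw [← this]; ring
  have h2 : ∀ z ∉ Lam, ζ (z + I) = ζ z - I * η := by
    intro z hz
    have hw : -(I * z) ∉ Lam := fun h => hz (mem_L0_I_mul_iff.1 (neg_mem_iff.1 h))
    have hw1 : -(I * z) + 1 ∉ Lam := fun h => hw ((hmem 1 h1m _).1 h)
    have e1 : z + I = I * (-(I * z) + 1) := by linear_combination z * I_mul_I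
    have e2 : ζ z = ζ (I * (-(I * z))) := by
      congr 1
      linear_combination z * I_mul_I
    rw [e1, hI _ hw1, h1 _ hw, e2, hI _ hw]
    ring
  refine ⟨η, ?_, h1, h2⟩
  intro h0
  rw [h0] at h1 h2
  exact zeta_quasi_eta hd hodd ha (fun z hz => by simpa using h1 z hz) (fun z hz => by simpa using h2 z hz)

end Wg
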