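import Mathlib
import Pool.Agent.Helper620.WgDefs

set_option autoImplicit false

open Complex MeasureTheory Set Filter Topology

namespace Wg

theorem zeta_bound (r : ℝ) (hr : 0 < r) (s : ℂ) (hs : ‖s‖ < r) (l : ℂ) (h : 2 * r ≤ ‖l‖) :
    ‖1 / (s - l) + 1 / l + s / l ^ 2‖ ≤ 2 * r ^ 2 * ‖l‖ ^ (-3 : ℝ) := by
  have hsl : s ≠ l := by rintro rfl; linarith
  have hl : 0 < ‖l‖ := by linarith
  have hl0 : l ≠ 0 := norm_pos_iff.mp hl
  have hsl0 : s - l ≠ 0 := sub_ne_zero.mpr hsl
  have e : 1 / (s - l) + 1 / l + s / l ^ 2 = s ^ 2 / (l ^ 2 * (s - l)) := by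
    field_simp
    ring
  rw [e]
  have h1 : ‖l‖ / 2 ≤ ‖s - l‖ := by
    rw [norm_sub_rev]
    exact .trans (by linarith) (norm_sub_norm_le l s)
  calc ‖s ^ 2 / (l ^ 2 * (s - l))‖ = ‖s‖ ^ 2 / (‖l‖ ^ 2 * ‖s - l‖) := by simp
    _ ≤ r ^ 2 / (‖l‖ ^ 2 * (‖l‖ / 2)) := by gcongr
    _ = 2 * r ^ 2 / ‖l‖ ^ 3 := by field_simp
    _ = _ := by
      rw [Real.rpow_neg hl.le]
      norm_cast

/-- zeta function without one term -/
noncomputable def zE (L : PeriodPair) (l₀ : ℂ) (z : ℂ) : ℂ :=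
  ∑' l : L.lattice, if l.1 = l₀ then 0 else (1 / (z - l) + 1 / l + z / l ^ 2)

theorem hs_zE (L : PeriodPair) (l₀ : ℂ) :
    HasSumLocallyUniformly
      (fun (l : L.lattice) (z : ℂ) ↦ if l.1 = l₀ then 0 else (1 / (z - l) + 1 / l + z / l ^ 2))
      (zE L l₀) := by
  refine L.hasSumLocallyUniformly_aux (u := fun r l => 2 * r ^ 2 * ‖l‖ ^ (-3 : ℝ)) _
    (fun _ _ ↦ (ZLattice.summable_norm_rpow _ _ (by simp; norm_num)).mul_left _) fun r hr ↦
    Filter.eventually_atTop.mpr ⟨2 * r, ?_⟩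
  rintro _ h s hs l rfl
  split_ifs
  · rw [norm_zero]
    positivity
  · exact zeta_bound r hr s hs l h

theorem diff_zE (L : PeriodPair) (l₀ : ℂ) :
    DifferentiableOn ℂ (zE L l₀) (L.lattice \ {l₀})ᶜ := by
  refine (hs_zE L l₀).hasSumLocallyUniformlyOn.differentiableOn
    (.of_forall fun s ↦ .fun_sum fun i hi ↦ ?_) L.isOpen_compl_lattice_sdiff
  split_ifs
  · simp
  · refine .add (.add (.div (by fun_prop) (by fun_prop) ?_) (by fun_prop)) (by fun_prop)
    intro x hx
    have : x ≠ i := by rintro rfl; simp_all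
    simpa [sub_eq_zero]

theorem deriv_zE (L : PeriodPair) (l₀ : ℂ) :
    Set.EqOn (deriv (zE L l₀)) (fun z => - L.weierstrassPExcept l₀ z) (L.lattice \ {l₀})ᶜ := by
  refine ((hs_zE L l₀).tendstoLocallyUniformlyOn.deriv
    (.of_forall fun s ↦ ?_) L.isOpen_compl_lattice_sdiff).unique ?_
  · refine .fun_sum fun i hi ↦ ?_
    split_ifs
    · simp
    refine .add (.add (.div (by fun_prop) (by fun_prop) fun x hx ↦ ?_) (by fun_prop)) (by fun_prop)
    have : x ≠ i := by rintro rfl; simp_all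
    simpa [sub_eq_zero]
  · have hneg : TendstoLocallyUniformlyOn
        (fun (s : Finset L.lattice) (z : ℂ) => - ∑ l ∈ s, (if l.1 = l₀ then 0 else (1 / (z - l) ^ 2 - 1 / l ^ 2)))
        (fun z => - L.weierstrassPExcept l₀ z) atTop (L.lattice \ {l₀})ᶜ := by
      have h0 := (L.hasSumLocallyUniformly_weierstrassPExcept l₀).tendstoLocallyUniformlyOn
        (s := ((L.lattice : Set ℂ) \ {l₀})ᶜ)
      exact h0.neg
    refine hneg.congr ?_
    intro s l hl
    simp only [Function.comp_apply]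
    rw [deriv_fun_sum]
    · rw [← Finset.sum_neg_distrib]
      congr with x
      split_ifs with hl₁
      · simp
      have hl₁ : l - x ≠ 0 := fun e ↦ hl₁ (by
        obtain rfl := sub_eq_zero.mp e
        simpa using hl)
      have hd : HasDerivAt (fun z : ℂ => 1 / (z - (x : ℂ)) + 1 / (x : ℂ) + z / (x : ℂ) ^ 2)
          (-(1 / (l - (x : ℂ)) ^ 2 - 1 / (x : ℂ) ^ 2)) l := by
        have h1 : HasDerivAt (fun z : ℂ => z - (x : ℂ)) 1 l := (hasDerivAt_id l).sub_const _
        have h2 := (h1.inv hl₁)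
        have h3 : HasDerivAt (fun z : ℂ => z / (x : ℂ) ^ 2) (1 / (x : ℂ) ^ 2) l :=
          (hasDerivAt_id l).div_const _
        have h4 := (h2.add_const (1 / (x : ℂ))).add h3
        refine (h4.congr_deriv ?_).congr_of_eventuallyEq (Filter.Eventually.of_forall fun z => ?_)
        · ring
        · simp [one_div]
      exact hd.deriv.symm
    · intros x hxs
      split_ifs with hl₁
      · simp
      have hl₁ : l - x ≠ 0 := fun e ↦ hl₁ (by
        obtain rfl := sub_eq_zero.mp e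
        simpa using hl)
      exact .add (.add (.div (by fun_prop) (by fun_prop) (by simpa)) (by fun_prop)) (by fun_prop)

theorem exists_zeta (L : PeriodPair) : ∃ ζ : ℂ → ℂ,
    (∀ z ∉ L.lattice, HasDerivAt ζ (- L.weierstrassP z) z) ∧ (∀ z, ζ (-z) = - ζ z) ∧
    AnalyticAt ℂ (fun z => ζ z - 1 / z) 0 := by
  have hω := L.ω₁_div_two_notMem_lattice
  have hval : ∀ z, zE L (L.ω₁ / 2) z = ∑' l : L.lattice, (1 / (z - l) + 1 / l + z / l ^ 2) := by
    intro z
    unfold zE
    congr with l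
    rw [if_neg]
    intro e
    exact hω (e ▸ l.2)
  refine ⟨zE L (L.ω₁ / 2), ?_, ?_, ?_⟩
  · intro z hz
    have hmem : z ∈ ((L.lattice : Set ℂ) \ {L.ω₁ / 2})ᶜ := fun h => hz h.1
    have h1 := (diff_zE L (L.ω₁ / 2)).differentiableAt (L.isOpen_compl_lattice_sdiff.mem_nhds hmem)
    have h2 := deriv_zE L (L.ω₁ / 2) hmem
    have h3 := h1.hasDerivAt
    rw [h2] at h3
    simpa only [L.weierstrassPExcept_of_notMem _ hω] using h3
  · intro z
    rw [hval, hval, ← tsum_neg, ← (Equiv.neg L.lattice).tsum_eq]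
    congr with l
    simp
    by_cases h : z = -(l : ℂ)
    · subst h
      by_cases hl : (l : ℂ) = 0
      · simp [hl]
      · field_simp
        simp
        norm_num
    · have h1 : z + (l : ℂ) ≠ 0 := fun e => h (by linear_combination e)
      rw [show -z + (l : ℂ) = -(z - l) by ring, inv_neg]
      ring
  · have hA : AnalyticAt ℂ (zE L 0) 0 := by
      apply (diff_zE L 0).analyticAt
      exact L.isOpen_compl_lattice_sdiff.mem_nhds (by simp)
    refine hA.congr (Filter.Eventually.of_forall fun z => ?_)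
    have hs1 : Summable (fun l : L.lattice => if l.1 = 0 then 0 else (1 / (z - (l:ℂ)) + 1 / (l:ℂ) + z / (l:ℂ) ^ 2)) :=
      (hs_zE L 0).hasSum.summable
    have hs2 : Summable (fun l : L.lattice => if l = 0 then (1 / z : ℂ) else 0) :=
      (hasSum_ite_eq (0 : L.lattice) (1 / z : ℂ)).summable
    have : zE L (L.ω₁ / 2) z = zE L 0 z + 1 / z := by
      rw [hval]
      have e2 : (1 / z : ℂ) = ∑' l : L.lattice, if l = 0 then (1 / z : ℂ) else 0 :=
        (hasSum_ite_eq (0 : L.lattice) (1 / z : ℂ)).tsum_eq.symm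
      rw [e2]
      unfold zE
      rw [← hs1.tsum_add hs2]
      congr with l
      by_cases h : l = 0
      · subst h
        simp
      · have h' : (l : ℂ) ≠ 0 := by simpa using h
        simp [h]
    show zE L 0 z = zE L (L.ω₁ / 2) z - 1 / z
    rw [this]
    ring

end Wg
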