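import Mathlib
import Pool.Agent.Helper620.WgDefs
import Pool.Agent.Helper620.Wg.KI
import Pool.Agent.Helper620.Wg.KQ
import Pool.Agent.Helper620.Wg.KS
import Pool.Agent.Helper620.Wg.KZ

set_option autoImplicit false

open Complex MeasureTheory Set Filter Topology

namespace Wg


theorem exists_kit_notMem {z l : ℂ} (hz : z ∉ Lam) (hl : l ∈ Lam) : z + l ∉ Lam := by
  intro h
  exact hz (by simpa using Lam.sub_mem h hl)

theorem exists_kit_int (m : ℤ) : (m : ℂ) ∈ Lam := ⟨m, 0, by simp⟩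

theorem exists_kit_intI (n : ℤ) : (n : ℂ) * I ∈ Lam := ⟨0, n, by simp⟩

theorem exists_kit_add_int {ζ : ℂ → ℂ} {η : ℂ} (h1 : ∀ z ∉ Lam, ζ (z + 1) = ζ z + η)
    (m : ℤ) : ∀ z ∉ Lam, ζ (z + m) = ζ z + m * η := by
  induction m using Int.induction_on with
  | zero => intro z hz; simp
  | succ i ih =>
    intro z hz
    have := h1 (z + (i : ℤ)) (exists_kit_notMem hz (exists_kit_int _))
    rw [ih z hz] at this
    push_cast at this ⊢
    rw [← add_assoc, this]; ring
  | pred i ih =>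
    intro z hz
    have h2 : z + ((-(i : ℤ) - 1 : ℤ) : ℂ) ∉ Lam := exists_kit_notMem hz (exists_kit_int _)
    have := h1 _ h2
    have h3 : z + ((-(i : ℤ) - 1 : ℤ) : ℂ) + 1 = z + ((-(i : ℤ) : ℤ) : ℂ) := by
      push_cast; ring
    rw [h3, ih z hz] at this
    have h4 : ζ (z + ((-(i : ℤ) - 1 : ℤ) : ℂ)) = ζ z + ((-(i : ℤ) : ℤ) : ℂ) * η - η := by
      rw [this]; ring
    rw [h4]; push_cast; ring

theorem exists_kit_add_intI {ζ : ℂ → ℂ} {η : ℂ} (h1 : ∀ z ∉ Lam, ζ (z + I) = ζ z - I * η)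
    (m : ℤ) : ∀ z ∉ Lam, ζ (z + m * I) = ζ z - m * I * η := by
  induction m using Int.induction_on with
  | zero => intro z hz; simp
  | succ i ih =>
    intro z hz
    have := h1 (z + (i : ℤ) * I) (exists_kit_notMem hz (exists_kit_intI _))
    rw [ih z hz] at this
    have h3 : z + (((i : ℤ) + 1 : ℤ) : ℂ) * I = z + ((i : ℤ) : ℂ) * I + I := by
      push_cast; ring
    rw [h3, this]; push_cast; ring
  | pred i ih =>
    intro z hz
    have h2 : z + ((-(i : ℤ) - 1 : ℤ) : ℂ) * I ∉ Lam := exists_kit_notMem hz (exists_kit_intI _)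
    have := h1 _ h2
    have h3 : z + ((-(i : ℤ) - 1 : ℤ) : ℂ) * I + I = z + ((-(i : ℤ) : ℤ) : ℂ) * I := by
      push_cast; ring
    rw [h3, ih z hz] at this
    have h4 : ζ (z + ((-(i : ℤ) - 1 : ℤ) : ℂ) * I)
        = ζ z - ((-(i : ℤ) : ℤ) : ℂ) * I * η + I * η := by
      rw [this]; ring
    rw [h4]; push_cast; ring

theorem exists_kit_add {ζ : ℂ → ℂ} {η : ℂ} (h1 : ∀ z ∉ Lam, ζ (z + 1) = ζ z + η)
    (h2 : ∀ z ∉ Lam, ζ (z + I) = ζ z - I * η) (m n : ℤ) (z : ℂ) (hz : z ∉ Lam) :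
    ζ (z + (m + n * I)) = ζ z + m * η - n * I * η := by
  rw [← add_assoc, exists_kit_add_intI h2 n _ (exists_kit_notMem hz (exists_kit_int m)),
    exists_kit_add_int h1 m z hz]

theorem exists_kit : Nonempty Kit := by
  obtain ⟨ζ, hζd, hζodd, hζa⟩ := exists_zeta L0
  have hζd' : ∀ z ∉ Lam, HasDerivAt ζ (- L0.weierstrassP z) z := fun z hz =>
    hζd z (fun h => hz ((mem_L0 z).1 h))
  obtain ⟨η, hη, hq1, hqI⟩ := zeta_quasi hζd' hζodd hζa
  have hset : (Lam : Set ℂ) = (L0.lattice : Set ℂ) := by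
    ext z; exact (mem_L0 z).symm
  have hopen : IsOpen ((L0.lattice : Set ℂ)ᶜ) := L0.isClosed_lattice.isOpen_compl
  refine ⟨{ P := L0.weierstrassP, Pd := L0.derivWeierstrassP,
            g := fun z => exp ((I / 2) * (ζ z / η + z)), g2 := L0.g₂, g3 := L0.g₃,
            hP := ?_, hPd := ?_, P_add := ?_, Pd_add := ?_, P_neg := ?_, Pd_neg := ?_,
            Pd_sq := ?_, Pd_ne := ?_, Pd_zero := ?_, P_inj := ?_, P_surj := ?_, hg := ?_,
            g_ne := ?_, g_neg := ?_, g_add := ?_, g_one := ?_ }⟩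
  · intro z hz
    have hz' : z ∈ (L0.lattice : Set ℂ)ᶜ := fun h => hz ((mem_L0 z).1 h)
    have h := (L0.differentiableOn_weierstrassP.differentiableAt
      (hopen.mem_nhds hz')).hasDerivAt
    rwa [PeriodPair.deriv_weierstrassP] at h
  · rw [hset]; exact L0.differentiableOn_derivWeierstrassP
  · intro l hl z
    exact L0.weierstrassP_add_coe z ⟨l, (mem_L0 l).2 hl⟩
  · intro l hl z
    exact L0.derivWeierstrassP_add_coe z ⟨l, (mem_L0 l).2 hl⟩
  · intro z; exact L0.weierstrassP_neg z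
  · intro z; exact L0.derivWeierstrassP_neg z
  · intro z hz
    exact L0.derivWeierstrassP_sq z (fun h => hz ((mem_L0 z).1 h))
  · intro z hz
    exact wpd_ne L0 z (fun h => hz ((mem_L0 _).1 h))
  · intro z hz
    have h1 : L0.derivWeierstrassP (-z) = L0.derivWeierstrassP z := by
      have h2 := L0.derivWeierstrassP_add_coe (-z) ⟨2 * z, (mem_L0 _).2 hz⟩
      have h3 : -z + 2 * z = z := by ring
      simp only [h3] at h2
      exact h2.symm
    rw [L0.derivWeierstrassP_neg] at h1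
    have h4 : (2 : ℂ) * L0.derivWeierstrassP z = 0 := by linear_combination -h1
    simpa using h4
  · intro z hz z' hz' h
    rcases wp_inj L0 z z' (fun h => hz ((mem_L0 _).1 h)) (fun h => hz' ((mem_L0 _).1 h)) h with h | h
    · exact Or.inl ((mem_L0 _).1 h)
    · exact Or.inr ((mem_L0 _).1 h)
  · intro x
    obtain ⟨z, hz, h⟩ := wp_surj L0 x
    exact ⟨z, fun h' => hz ((mem_L0 _).2 h'), h⟩
  · intro z hz
    have h := (hζd' z hz).differentiableAt
    apply DifferentiableAt.differentiableWithinAt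
    fun_prop
  · intro z; exact exp_ne_zero _
  · intro z
    simp only [hζodd, ← exp_neg]
    congr 1; ring
  · rintro l ⟨m, n, rfl⟩
    refine ⟨exp ((m : ℂ) * I), by simpa using norm_exp_ofReal_mul_I (m : ℝ), ?_⟩
    intro z hz
    simp only [exists_kit_add hq1 hqI m n z hz, ← exp_add]
    congr 1
    field_simp
    ring
  · intro z hz
    simp only [hq1 z hz, ← exp_add]
    congr 1
    field_simp
    ring

end Wg
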